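import Pool.Agent.Full.Bad.SlabLaw
import Pool.Agent.Full.X3.Marks
import Pool.Agent.Full.X3.ThWall
import Pool.Agent.Full.Def.Shape
import Pool.Agent.Full.Def.Build

/-!
# The number of the walls between two marks is even
-/

set_option autoImplicit false

namespace Full
open Full.X3 Function Finset

namespace Slab
variable {D : Slab} {W : Lab} {nL nU a x y : ℤ}

/-- the sides of the row have other positions than the walls -/
lemma rowSide_pos (hW : W.Ok D a nL nU) (hnL : 0 ≤ nL) (hnU : 0 ≤ nU) (hb : D.b < y) (ht : y < D.t) {u : Half ZT}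
    (hu : D.RowSide y u) :
    ¬ ((0 ≤ W.pos u ∧ W.pos u < nL) ∨ (W.P ≤ W.pos u ∧ W.pos u < W.P + nU)) := by
  have hP := hW.P_eq
  rcases hu with ⟨v, h1, h2, rfl | rfl⟩ | ⟨v, h1, h2, rfl | rfl⟩
  · rw [(hW.lowW v h1 (by omega)).1]
    omega
  · rw [(hW.lowE v h1 (by omega)).1]
    omega
  · rw [(hW.upW v (by omega) h2).1]
    omega
  · rw [(hW.upE v (by omega) h2).1]
    omega

/-- **the number of the gaps between two marks is even** -/
theorem odd_marks (hl : D.l < x) (hr : x < D.r) (hb : D.b < y) (ht : y < D.t)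
    (hW : W.Ok D a nL nU) (ha : 0 < a) {E : Fin 3 → Half ZT} (hE : MarksOk D W a nL nU E)
    {w : Half ZT → Half ZT} (hw : Full.IsW (D.T y) (D.go x y) ({z x y} ∪ Set.range E) w) :
    ∃ n : ℕ, 1 ≤ n ∧ W.pos (E 2) + 1 = W.pos (E 1) + 2 * n := by
  classical
  have hP := hW.P_eq
  have hG : Glu (D.T y) (D.go x y) := glu_go
  have hgo : ∀ {u : Half ZT}, Bd (D.T y) (D.go x y) u ∧ u ≠ z x y ↔ D.IsW u ∨ D.RowSide y u :=
    isW_go hl.le hr.le hb ht
  have hwG : Glu (D.T y) w := hw.toWall.toExt.toGlu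
  have hnL : 0 ≤ nL := by
    have h1 := hW.floorL 0 le_rfl ha
    have h2 := hW.low _ _ h1.1
    omega
  have hnU : 0 ≤ nU := by
    have h1 := hW.ceilR 0 le_rfl ha
    have h2 := hW.up _ _ h1.1
    omega
  set p1 := W.pos (E 1) with hp1
  set p2 := W.pos (E 2) with hp2
  have hlt : p1 < p2 := hE.lt
  have f1 := hE.far 1
  have f2 := hE.far 2
  have hs := hE.side
  rw [← hp1] at f1 hs
  rw [← hp2] at f2 hs
  -- positions between the marks belong to walls
  have hrng : ∀ p, p1 ≤ p → p ≤ p2 → (0 ≤ p ∧ p < nL) ∨ (W.P ≤ p ∧ p < W.P + nU) := by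
    intro p q1 q2
    omega
  have hfix : ∀ i, w (E i) = E i := fun i =>
    (hw.ends _ (hgo.2 (Or.inl (hE.wall i))).1).2 (Or.inr ⟨i, rfl⟩)
  have hzW : ∀ u, D.IsW u → u ≠ z x y := fun u hu => (hgo.2 (Or.inl hu)).2
  -- the walls between the marks
  have hex : ∀ p : ℤ, ∃ u : Half ZT, p1 ≤ p → p ≤ p2 → D.IsW u ∧ W.pos u = p := by
    intro p
    by_cases h1 : p1 ≤ p ∧ p ≤ p2
    · obtain ⟨u, hu, hup⟩ := hW.surj p (hrng p h1.1 h1.2)
      exact ⟨u, fun _ _ => ⟨hu, hup⟩⟩
    · exact ⟨E 1, fun q1 q2 => absurd ⟨q1, q2⟩ h1⟩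
  choose e he using hex
  set S := (Ioo p1 p2).image e with hS
  have hSm : ∀ u, u ∈ S ↔ D.IsW u ∧ p1 < W.pos u ∧ W.pos u < p2 := by
    intro u
    rw [hS, Finset.mem_image]
    constructor
    · rintro ⟨p, hp, rfl⟩
      rw [Finset.mem_Ioo] at hp
      obtain ⟨q1, q2⟩ := he p hp.1.le hp.2.le
      exact ⟨q1, by omega, by omega⟩
    · rintro ⟨q1, q2, q3⟩
      obtain ⟨q4, q5⟩ := he (W.pos u) q2.le q3.le
      exact ⟨W.pos u, Finset.mem_Ioo.2 ⟨q2, q3⟩, hW.inj _ _ q4 q1 q5⟩
  have hcard : S.card = (p2 - p1 - 1).toNat := by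
    rw [hS, Finset.card_image_of_injOn, Int.card_Ioo]
    intro p hp p' hp' h
    rw [Finset.mem_coe, Finset.mem_Ioo] at hp hp'
    have q1 := (he p hp.1.le hp.2.le).2
    have q2 := (he p' hp'.1.le hp'.2.le).2
    rw [h] at q1
    omega
  -- the wall map moves the position by one
  have hmove : ∀ u ∈ S, w u ≠ u ∧ w u ∈ S := by
    intro u hu
    obtain ⟨h1, h2, h3⟩ := (hSm u).1 hu
    obtain ⟨b1, z1⟩ := hgo.2 (Or.inl h1)
    have hne : w u ≠ u := by
      intro h4
      rcases (hw.ends u b1).1 h4 with h5 | ⟨i, h5⟩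
      · exact z1 h5
      · have c1 := hE.cyc
        fin_cases i
        · simp only [Fin.zero_eta] at h5
          rw [h5] at c1
          omega
        · simp only [Fin.mk_one] at h5
          rw [← h5] at h2
          omega
        · have h6 : E 2 = u := h5
          rw [← h6] at h3
          omega
    refine ⟨hne, ?_⟩
    have bw : Bd (D.T y) (D.go x y) (w u) := hw.toExt.bd hG b1
    have zw : w u ≠ z x y := by
      intro h4
      have h5 := hwG.inv u
      rw [h4] at h5
      have h6 : w (z x y) = z x y := (hw.ends _ (by rw [← h4]; exact bw)).2 (Or.inl rfl)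
      rw [h6] at h5
      exact z1 h5.symm
    -- the position of `w u`
    have hpos : W.pos (w u) = W.pos u + 1 ∨ W.pos u = W.pos (w u) + 1 := by
      rcases hw.near u b1 with h4 | h4 | h4
      · exact absurd h4 hne
      · left
        rw [h4]
        refine (hW.step x y hl hr hb ht u b1 z1 ?_).1
        rintro rfl
        exact rowSide_pos hW hnL hnU hb ht (Or.inr ⟨y, le_rfl, ht, Or.inl rfl⟩) (hrng _ h2.le h3.le)
      · right
        have h5 := hW.step x y hl hr hb ht (w u) bw zw ?_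
        · rw [← h4] at h5
          exact h5.1
        · intro h6
          rw [h6, (next_upW hb ht hl hr.le).1] at h4
          rw [h4] at h2 h3 
          exact rowSide_pos hW hnL hnU hb ht (Or.inl ⟨y - 1, by omega, by omega, Or.inl rfl⟩)
            (hrng _ h2.le h3.le)
    have hin : p1 ≤ W.pos (w u) ∧ W.pos (w u) ≤ p2 := by omega
    have hWw : D.IsW (w u) := by
      rcases hgo.1 ⟨bw, zw⟩ with h4 | h4
      · exact h4
      · exact absurd (hrng _ hin.1 hin.2) (rowSide_pos hW hnL hnU hb ht h4)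
    rw [hSm]
    refine ⟨hWw, lt_of_le_of_ne hin.1 fun h4 => ?_, lt_of_le_of_ne hin.2 fun h4 => ?_⟩
    · have h5 : E 1 = w u := hW.inj _ _ (hE.wall 1) hWw h4
      have h6 := hwG.inv u
      rw [← h5, hfix] at h6
      rw [← h6] at h2
      omega
    · have h5 : w u = E 2 := hW.inj _ _ hWw (hE.wall 2) h4
      have h6 := hwG.inv u
      rw [h5, hfix] at h6
      rw [← h6] at h3
      omega
  have hev : ((S.card : ℕ) : ZMod 2) = 0 := by
    have h1 : ∑ _u ∈ S, (1 : ZMod 2) = 0 := by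
      refine Finset.sum_involution (fun u _ => w u) (fun u hu => ?_) (fun u hu _ => (hmove u hu).1)
        (fun u hu => (hmove u hu).2) (fun u hu => hwG.inv u)
      decide
    rw [Finset.sum_const, nsmul_eq_mul, mul_one] at h1
    exact h1
  rw [ZMod.natCast_eq_zero_iff] at hev
  obtain ⟨m, hm⟩ := hev
  refine ⟨m + 1, by omega, ?_⟩
  rw [hcard] at hm
  push_cast
  omega

end Slab

end Full
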