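import Pool.Agent.Full.Bad.SlabSeam
import Pool.Agent.Full.Bad.SlabOdd
import Pool.Agent.Full.X3.Stat

/-!
# The second moment of the amplitude of a domain with a closed row
-/

set_option autoImplicit false

namespace Full
open Full.X3 Full.X3.Bad Full.Bad Function Finset
open Full.Perc (Ex)

namespace Slab
variable {D : Slab} {W : Lab} {c : Chg} {nL nU a x y A : ℤ} {ω : Finset ZT}

lemma fin_arith {s X : ℝ} (hs : 0 ≤ s) {N N' q : ℕ} (hq : q ≤ 5)
    (h : X ≤ s * 2 ^ N * (((5 + 2 * q + 2 * N : ℕ) : ℝ) * ((3 + 2 * q + 2 * N' : ℕ) : ℝ))) :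
    X ≤ 2 ^ N * ((((15 : ℕ) : ℝ) + 2 * (N : ℝ)) * (((13 : ℕ) : ℝ) + 2 * (N' : ℝ))) * s := by
  have g1 : ((5 + 2 * q + 2 * N : ℕ) : ℝ) ≤ ((15 : ℕ) : ℝ) + 2 * (N : ℝ) := by
    have : 5 + 2 * q + 2 * N ≤ 15 + 2 * N := by omega
    exact_mod_cast this
  have g2 : ((3 + 2 * q + 2 * N' : ℕ) : ℝ) ≤ ((13 : ℕ) : ℝ) + 2 * (N' : ℝ) := by
    have : 3 + 2 * q + 2 * N' ≤ 13 + 2 * N' := by omega
    exact_mod_cast this
  calc X ≤ s * 2 ^ N * (((5 + 2 * q + 2 * N : ℕ) : ℝ) * ((3 + 2 * q + 2 * N' : ℕ) : ℝ)) := h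
    _ ≤ s * 2 ^ N * ((((15 : ℕ) : ℝ) + 2 * (N : ℝ)) * (((13 : ℕ) : ℝ) + 2 * (N' : ℝ))) := by
        refine mul_le_mul_of_nonneg_left ?_ (by positivity)
        exact mul_le_mul g1 g2 (Nat.cast_nonneg _) (by positivity)
    _ = _ := by ring

/-- the hypotheses of the bound: `m` is the height of the row, the charge `+2` of the marks runs through
the `2 n1` gaps from `p1` on, the charge `+2` of the trio through the `2 n2` gaps from `m4` to `b4` -/
structure BadOk (D : Slab) (W : Lab) (c : Chg) (a nL nU p1 b4 x y : ℤ) (m n1 n2 : ℕ) : Prop where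
  good : D.Good x y a
  go : GoOk D x y
  lab : W.Ok D a nL nU
  height : D.t - D.b ≤ m
  m4le : -a + (3 * (m : ℤ) + 2) ≤ c.m4
  b4lt : b4 + 3 * (m : ℤ) < 0
  n2eq : b4 + 1 = c.m4 + 2 * (n2 : ℤ)
  n2p : 1 ≤ n2
  far1 : Far W a nL nU c.m1
  far2 : Far W a nL nU c.m2
  side : (a ≤ p1 ∧ p1 + 2 * n1 ≤ nL - a) ∨ (W.P + a ≤ p1 ∧ p1 + 2 * n1 ≤ W.P + nU - a)

namespace BadOk
variable {p1 b4 : ℤ} {m n1 n2 : ℕ} (h : BadOk D W c a nL nU p1 b4 x y m n1 n2)
include h

lemma bt : D.b < D.t := h.good.bt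

lemma gc' : ∀ u, (Bd (D.T y) (D.gc x y) u ∧ u ≠ z x y) ↔ D.IsW u := fun _ =>
  isW_gc h.go.lx h.go.xr.le h.go.by' h.go.yt

lemma go' : ∀ u : Half ZT, D.IsW u → D.go x y u = u := fun _ hu =>
  ((isW_go h.go.lx h.go.xr.le h.go.by' h.go.yt).2 (Or.inl hu)).1.2

lemma seam : D.SeamAt x y := seamAt h.go.by' h.go.yt

lemma one_le : 1 ≤ m := by
  have h1 := h.height
  have h2 := h.good.bt
  omega

lemma apos : 6 * (m : ℤ) + 3 ≤ a := by
  have h1 := h.m4le
  have h2 := h.b4lt
  have h3 := h.n2eq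
  have h4 := h.n2p
  omega

lemma nLpos : 0 < nL := by
  have h1 := h.apos
  have h2 := h.lab.floorL 0 le_rfl (by omega)
  have h3 := h.lab.low _ _ h2.1
  omega

lemma nUpos : 0 < nU := by
  have h1 := h.apos
  have h2 := h.lab.ceilR 0 le_rfl (by omega)
  have h3 := h.lab.up _ _ h2.1
  omega

/-- the corridor -/
theorem strip1 : Strip (D.T y) (D.gc x y) (fun i j => phC D.l D.r y (i, j)) (-a + 1) (a - 1)
    D.b D.t :=
  strip h.good.dead (by have := h.apos; omega) h.good.xl h.good.xr h.good.yb h.good.yt (by omega)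
    (by omega)

/-- its right half -/
theorem strip2 : Strip (D.T y) (D.gc x y) (fun i j => phC D.l D.r y (i, j)) (-a + 1) 0 D.b D.t :=
  strip h.good.dead (by have := h.apos; omega) h.good.xl h.good.xr h.good.yb h.good.yt (by omega)
    (by have := h.apos; omega)

lemma w1 : -a + 1 + (4 * (m : ℤ) + 2) ≤ a - 1 := by
  have h1 := h.apos
  have h2 := h.one_le
  omega

lemma w2 : -a + 1 + (4 * (m : ℤ) + 2) ≤ 0 := by
  have h1 := h.apos
  have h2 := h.one_le
  omega

/-- the phases are natural -/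
theorem natural : Natural (D.T y) (D.gc x y) (z x y) (D.qb W c A x y) := by
  have key : ∀ v : Half ZT, D.gc x y v ≠ v → (4 : ℤ) ∣ D.qb W c A x y v := by
    intro v hv
    have hn : ¬ D.IsW v := fun h5 => hv ((h.gc' v).2 h5).1.2
    unfold qb
    rw [if_neg hn]
    refine dvd_sub ?_ ?_
    · obtain ⟨⟨i, j⟩ | ⟨i, j⟩, d⟩ := v
      · cases d
        · exact dvd_zero _
        · exact dvd_zero _
        · simp only
          split_ifs
          · exact ⟨A, rfl⟩
          · exact dvd_zero _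
        · exact dvd_zero _
      · cases d
        · exact dvd_zero _
        · exact dvd_zero _
        · simp only
          split_ifs
          · exact ⟨A - 1, rfl⟩
          · exact dvd_zero _
        · exact dvd_zero _
    · split_ifs
      · exact dvd_refl _
      · exact dvd_zero _
  refine ⟨fun v hv => dvd_sub (key v hv) (key _ ?_), fun e he hez => ?_⟩
  · rw [(glu_gc (D := D)).inv]
    exact fun h5 => hv h5.symm
  · have hw := (h.gc' e).1 ⟨he, hez⟩
    obtain ⟨t, ht⟩ := h.lab.dir e hw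
    unfold qb
    rw [if_pos hw]
    have hside : (4 : ℤ) ∣ if lside D.l x y e = true then 4 else 0 := by
      split_ifs
      · exact dvd_refl _
      · exact dvd_zero _
    obtain ⟨s, hs⟩ := hside
    rw [hs]
    refine ⟨-t - cb W c (W.pos e) - s, ?_⟩
    linarith

/-- a wall with a position in the range of the marks is outside of the corridor -/
theorem out {u : Half ZT} (hu : D.IsW u)
    (hp : (a ≤ W.pos u ∧ W.pos u < nL - a) ∨ (W.P + a ≤ W.pos u ∧ W.pos u < W.P + nU - a)) :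
    Out (fun i j => phC D.l D.r y (i, j)) (-a + 1) (a - 1) D.b D.t u.1 := by
  intro i j h1 h2 h3 h4 he
  have hy := h.go.by'
  have hy' := h.go.yt
  have hP := h.lab.P_eq
  have hbt := h.bt
  have hnU := h.nUpos
  have hnL := h.nLpos
  rcases pos_phC h.good hy hy' h.lab hu (by omega) (by omega) h3 h4 he with h5 | h5 | h5 | h5 <;> omega

/-- **the bound for every configuration** -/
theorem norm_amp_le (ω : Finset ZT) :
    ‖D.amp W c nL nU (Icc p1 (p1 + 2 * n1 - 1)) b4 x y ω‖ ≤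
      2 ^ h.strip1.N glu_gc h.w1 ω * ((((15 : ℕ) : ℝ) + 2 * (h.strip1.N glu_gc h.w1 ω : ℝ)) *
        (((13 : ℕ) : ℝ) + 2 * (h.strip2.N glu_gc h.w2 ω : ℝ))) := by
  classical
  have h1 := h.go.lx
  have h2 := h.go.xr
  have h3 := h.go.by'
  have h4 := h.go.yt
  have hap := h.apos
  have hm := h.one_le
  have hnL := h.nLpos
  have hnU := h.nUpos
  have hP := h.lab.P_eq
  have hbt := h.bt
  have hm4 := h.m4le
  have hb4 := h.b4lt
  have hn2 := h.n2eq
  have hn2p := h.n2p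
  have hs := h.side
  have hxl := h.good.xl
  have hxr := h.good.xr
  have hG : Glu (D.T y) (D.gc x y) := glu_gc
  have hGo : Glu (D.T y) (D.go x y) := glu_go
  have hgc1 : ∀ u, Bd (D.T y) (D.gc x y) u → u ≠ z x y → D.IsW u := fun u h5 h6 =>
    (h.gc' u).1 ⟨h5, h6⟩
  have ho := oz_inj (x := x) (y := y) hgc1 h.lab
  set φ : ℤ → ℤ → ZT := fun i j => phC D.l D.r y (i, j) with hφ
  set N := h.strip1.N hG h.w1 ω with hN
  set N' := h.strip2.N hG h.w2 ω with hN'
  set A := c.dc p1 W.P with hA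
  -- the walls of the pairs
  have hu : ∀ i : ℕ, ∃ u : Half ZT, i < n1 → D.IsW u ∧ W.pos u = p1 + 2 * i := by
    intro i
    by_cases hi : i < n1
    · obtain ⟨u, h5, h6⟩ := h.lab.surj (p1 + 2 * i) (by omega)
      exact ⟨u, fun _ => ⟨h5, h6⟩⟩
    · exact ⟨z x y, fun h5 => absurd h5 hi⟩
  have hv : ∀ i : ℕ, ∃ u : Half ZT, i < n2 → D.IsW u ∧ W.pos u = W.P - b4 + 2 * i := by
    intro i
    by_cases hi : i < n2
    · have e1 := h.lab.ceilR (-b4 + 2 * i) (by omega) (by omega)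
      exact ⟨_, fun _ => ⟨e1.1, by rw [e1.2.1]; ring⟩⟩
    · exact ⟨z x y, fun h5 => absurd h5 hi⟩
  choose u hu using hu
  choose v hv using hv
  have e0 := amp_pairs (D := D) (A := A) (p1 := p1) (b4 := b4) (n1 := n1) (n2 := n2) h.gc' h.lab h1
    (by omega) h3 h4 hnL.le (by omega) (by omega) hn2 (fun j h5 h6 => by
      rw [hA]
      unfold Chg.dc Full.stp
      rcases hs with hs | hs
      · rw [if_pos (show j ≤ W.P by omega), if_pos (show p1 ≤ W.P by omega)]
      · rw [if_neg (show ¬ j ≤ W.P by omega), if_neg (show ¬ p1 ≤ W.P by omega)]) u v hu hv ω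
  -- positions
  have hps : ∀ w, w ≠ z x y → ps W x y w = W.pos w := fun w hw => ps_ne hw
  set I := (range n1).image u with hI
  set J := (range n2).image v with hJ
  have hI1 : ∀ w ∈ I, D.IsW w ∧ Bd (D.T y) (D.gc x y) w ∧ w ≠ z x y ∧
      ((a ≤ W.pos w ∧ W.pos w < nL - a) ∨ (W.P + a ≤ W.pos w ∧ W.pos w < W.P + nU - a)) := by
    intro w hw
    rw [hI, Finset.mem_image] at hw
    obtain ⟨i, hi, rfl⟩ := hw
    rw [Finset.mem_range] at hi
    obtain ⟨h5, h6⟩ := hu i hi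
    have h7 := (h.gc' _).2 h5
    exact ⟨h5, h7.1, h7.2, by omega⟩
  have hJ1 : ∀ w ∈ J, D.IsW w ∧ Bd (D.T y) (D.gc x y) w ∧ w ≠ z x y ∧
      W.P - b4 ≤ W.pos w ∧ W.pos w ≤ W.P - c.m4 - 1 := by
    intro w hw
    rw [hJ, Finset.mem_image] at hw
    obtain ⟨i, hi, rfl⟩ := hw
    rw [Finset.mem_range] at hi
    obtain ⟨h5, h6⟩ := hv i hi
    have h7 := (h.gc' _).2 h5
    exact ⟨h5, h7.1, h7.2, by omega, by omega⟩
  -- a strand which ends in `z`
  have hoz : ∀ w, Bd (D.T y) (D.gc x y) w → other (mate ω) (D.gc x y) w = z x y →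
      w = other (mate ω) (D.gc x y) (z x y) := by
    intro w hw h5
    rw [← h5, hG.other_other hw]
  have hco : ∀ w : Half ZT, Conn (mate ω) (D.gc x y) w (other (mate ω) (D.gc x y) w) := fun w =>
    Conn.iter _ _
  -- tiles of the trio
  have htri : ∀ w, D.IsW w → W.P - b4 ≤ W.pos w → W.pos w ≤ W.P - c.m4 - 1 →
      ∃ i, c.m4 ≤ i ∧ i < b4 ∧ w.1 = φ i (D.t - 1) := by
    intro w hw h5 h6
    refine ⟨W.P - 1 - W.pos w, by omega, by omega, ?_⟩
    exact tile_ceil h4 h.lab hw (by omega) (by omega)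
  have main := sum_norm_le (T := D.T y) (g := D.gc x y) (z := z x y) (q := D.qb W c A x y)
    (ω := ω) (pos := ps W x y) (R := D.Rg x y ω) (b := D.bg W c x y ω) (Q := tokens W c)
    (ins := insT D W x y ω) (o := oz W x y) hG straight_gc h.natural
    (law_go h.gc' h.go' h.go (by omega) h.lab hnL.le) ho I J (j₁ := W.P - b4)
    (j₂ := W.P - c.m4 - 1) (k₁ := nL - a) (k₂ := W.P + a - 1) (by omega) (by omega) (by omega)
    (fun w hw => by
      obtain ⟨h5, h6, h7, h8⟩ := hI1 w hw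
      refine ⟨h6, ?_⟩
      rw [hps w h7]
      omega)
    (fun w hw => by
      obtain ⟨h5, h6, h7, h8⟩ := hJ1 w hw
      refine ⟨h6, ?_⟩
      rw [hps w h7]
      exact h8)
    (P := Danger φ (-a + 1) (a - 1) D.b D.t m (D.gc x y) ω)
    (P' := Danger φ (-a + 1) 0 D.b D.t m (D.gc x y) ω)
    (N := N) (N' := N')
    (h.strip1.few hG hm h.w1 (by have := h.height; omega) ω)
    (h.strip2.few hG hm h.w2 (by have := h.height; omega) ω) ?_ ?_ ?_
  · -- the amplitude
    unfold amp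
    rw [e0, norm_div, norm_pow, Complex.norm_real, Real.norm_of_nonneg (Real.sqrt_nonneg 3)]
    have hs3 : (0 : ℝ) < Real.sqrt 3 := by positivity
    rw [div_le_iff₀ (by positivity)]
    rw [card_arcs_na h.lab h.gc' h1 (by omega) h3 h4 hnL.le hnU.le] at main
    exact fin_arith (pow_nonneg hs3.le _) card_tokens main
  · -- irregular walls of the marks
    intro w hw hR
    obtain ⟨h5, h6, h7, h8⟩ := hI1 w hw
    by_cases hwz : other (mate ω) (D.gc x y) w = z x y
    · exact Or.inl (hoz w h6 hwz)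
    · right
      have hout := h.out h5 h8
      by_cases hAg : Agree (D.gc x y) (D.go x y) ω w
      · have hj : W.P - b4 ≤ ps W x y (other (mate ω) (D.gc x y) w) ∧
            ps W x y (other (mate ω) (D.gc x y) w) ≤ W.P - c.m4 - 1 := by
          by_contra hj
          exact hR ⟨⟨h6, hAg, h7, hwz⟩, hj⟩
        rw [hps _ hwz] at hj
        obtain ⟨i, i1, i2, i3⟩ := htri _ ((h.gc' _).1 ⟨hG.other_bd h6, hwz⟩) hj.1 hj.2
        have hMid : Mid φ (-a + 1) (a - 1) D.b D.t m (other (mate ω) (D.gc x y) w).1 :=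
          ⟨i, D.t - 1, ⟨by omega, by omega⟩, ⟨by omega, by omega⟩, i3⟩
        exact ⟨⟨_, hco w, hMid⟩, w, Conn.refl _, hout⟩
      · have hex : ∃ v, Conn (mate ω) (D.gc x y) w v ∧ ∃ j, D.b ≤ j ∧ j < D.t ∧
            v.1 = phC D.l D.r y (-1, j) := by
          by_contra hno
          push Not at hno
          exact hAg (agree_of h.seam fun v hv j j1 j2 j3 => hno v hv j j1 j2 j3)
        obtain ⟨v', hv', j, j1, j2, j3⟩ := hex
        have hMid : Mid φ (-a + 1) (a - 1) D.b D.t m v'.1 := ⟨-1, j, ⟨by omega, by omega⟩, ⟨j1, j2⟩, j3⟩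
        exact ⟨⟨v', hv', hMid⟩, w, Conn.refl _, hout⟩
  · -- irregular walls of the trio
    intro w hw hR
    obtain ⟨h5, h6, h7, h8⟩ := hJ1 w hw
    right
    by_contra hnd
    obtain ⟨i, i1, i2, i3⟩ := htri w h5 h8.1 h8.2
    have hMid : Mid φ (-a + 1) 0 D.b D.t m w.1 :=
      ⟨i, D.t - 1, ⟨by omega, by omega⟩, ⟨by omega, by omega⟩, i3⟩
    have hst := fun v (hv : Conn (mate ω) (D.gc x y) w v) => not_danger_mid (u := w) hnd
      (Conn.refl _) hMid hv
    have hAg : Agree (D.gc x y) (D.go x y) ω w := by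
      refine agree_of' h.seam fun v hv j j1 j2 j3 => ?_
      obtain ⟨i', j', ⟨k1, k2⟩, ⟨k3, k4⟩, k5⟩ := hst v hv
      have := h.strip1.inj i' j' 0 j (by omega) (by omega) k3 k4 (by omega) (by omega) j1 j2
        (k5.symm.trans j3)
      omega
    have hoz' : other (mate ω) (D.gc x y) w ≠ z x y := by
      intro h9
      obtain ⟨i', j', ⟨k1, k2⟩, ⟨k3, k4⟩, k5⟩ := hst _ (hco w)
      rw [h9] at k5
      change (Sum.inl (x, y - 1) : ZT) = phC D.l D.r y (i', j') at k5
      rw [phC_neg (by omega)] at k5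
      by_cases k6 : j' < y
      · rw [phR_low k6] at k5
        have := congrArg Prod.fst (Sum.inl.inj k5)
        simp only at this
        omega
      · rw [phR_up k6] at k5
        exact absurd k5 (by simp)
    obtain ⟨i', j', ⟨k1, k2⟩, ⟨k3, k4⟩, k5⟩ := hst _ (hco w)
    have hw2 : D.IsW (other (mate ω) (D.gc x y) w) := (h.gc' _).1 ⟨hG.other_bd h6, hoz'⟩
    apply hR
    refine ⟨⟨h6, hAg, h7, hoz'⟩, ?_⟩
    rw [hps _ hoz']
    rcases pos_phC h.good h3 h4 h.lab hw2 (by omega) (by omega) k3 k4 k5 with k | k | k | k <;> omega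
  · -- closed strands
    intro cc hcc hnP
    exact lpw_le h.good h.go h.lab h.gc' h.go' h.seam (m := m) (by omega) (j := p1) rfl h.far1
      h.far2 (by unfold Far; omega) (by omega) (by omega) hcc hnP

end BadOk

/-- **the second moment of the amplitude is bounded by a universal constant** -/
theorem amp_sq : ∃ B : ℝ, ∀ (D : Slab) (W : Lab) (c : Chg) (a nL nU p1 b4 x y : ℤ) (m n1 n2 : ℕ),
    BadOk D W c a nL nU p1 b4 x y m n1 n2 →
    Ex (D.T y) (fun ω => ‖D.amp W c nL nU (Icc p1 (p1 + 2 * n1 - 1)) b4 x y ω‖ ^ 2) ≤ B := by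
  obtain ⟨B, hB⟩ := sq_moment2 15 13
  refine ⟨B, fun D W c a nL nU p1 b4 x y m n1 n2 h => ?_⟩
  exact hB ZT (D.T y) (D.gc x y) _ _ _ _ _ _ _ _ _ _ h.strip1 h.strip2 glu_gc m m h.one_le h.one_le
    h.w1 h.w2 _ fun ω _ => h.norm_amp_le ω

/-- the bound for the marks `E` -/
theorem ampE_sq : ∃ B : ℝ, ∀ (D : Slab) (W : Lab) (a nL nU k : ℤ) (E : Fin 3 → Half ZT) (x y : ℤ),
    D.Rdy W a nL nU k E x y → GoOk D x y → 3 * (D.t - D.b) + 1 ≤ k →
    Ex (D.T y) (fun ω => ‖D.ampE W a nL nU k E x y ω‖ ^ 2) ≤ B := by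
  obtain ⟨B, hB⟩ := amp_sq
  refine ⟨B, fun D W a nL nU k E x y h H hk => ?_⟩
  have h1 := h.good.xl
  have h2 := h.good.xr
  have h3 := h.good.pos
  have h4 := h.good.bt
  have h5 := h.hak
  have hP := h.ok.P_eq
  obtain ⟨w, hw⟩ := h.wall
  obtain ⟨n, hn1, hn⟩ := odd_marks (by omega) (by omega) h.yb h.yt h.ok (by omega) h.marks hw
  obtain ⟨m, hm⟩ : ∃ m : ℕ, D.t - D.b = m := ⟨(D.t - D.b).toNat, by omega⟩
  obtain ⟨k', hk'⟩ : ∃ k' : ℕ, k = k' := ⟨k.toNat, by omega⟩
  have far : ∀ i, Far W a nL nU (W.pos (E i)) := by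
    intro i
    have := h.marks.far i
    unfold Far
    omega
  have f1 := h.marks.far 1
  have f2 := h.marks.far 2
  have hs := h.marks.side
  have hlt := h.marks.lt
  have hok : BadOk D W (chgOf W E a k) a nL nU (W.pos (E 1)) (-a + 2 + 3 * k) x y m n (k' + 1) :=
    { good := h.good
      go := H
      lab := h.ok
      height := hm.le
      m4le := by
        show _ ≤ -a + 1 + k
        omega
      b4lt := by omega
      n2eq := by
        show _ = -a + 1 + k + _
        push_cast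
        omega
      n2p := by omega
      far1 := far 0
      far2 := far 1
      side := by omega }
  have e : Icc (W.pos (E 1)) (W.pos (E 2)) = Icc (W.pos (E 1)) (W.pos (E 1) + 2 * (n : ℤ) - 1) := by
    congr 1
    omega
  have := hB _ _ _ _ _ _ _ _ _ _ _ _ _ hok
  unfold ampE
  rw [e]
  exact this

end Slab

end Full
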