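import Pool.Agent.Full.X3.Hol

/-!
# Strands on which two gluings agree

If `g'` and `g` agree on the strand of `x` for `g` then the strand, its end, its holonomy and its factor
are the same for both gluings.
-/

set_option autoImplicit false

namespace Full.X3.Bad
open Function Relation Finset

noncomputable section

variable {τ : Type*} [DecidableEq τ] {T : Finset τ} {g g' : Half τ → Half τ} {ω : Finset τ}
  {x : Half τ}

/-- `g'` and `g` agree on the strand of `x` -/
def Agree (g g' : Half τ → Half τ) (ω : Finset τ) (x : Half τ) : Prop :=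
  ∀ y, Conn (mate ω) g x y → g' y = g y

theorem Agree.iter (h : Agree g g' ω x) (k : ℕ) :
    (g' ∘ mate ω)^[k] x = (g ∘ mate ω)^[k] x := by
  induction k with
  | zero => rfl
  | succ k ih =>
    rw [iterate_succ_apply', iterate_succ_apply', ih]
    exact h _ ((Conn.iter k x).trans (Conn.m_step _))

theorem Agree.period (h : Agree g g' ω x) :
    minimalPeriod (g' ∘ mate ω) x = minimalPeriod (g ∘ mate ω) x := by
  refine minimalPeriod_eq_minimalPeriod_iff.2 fun n => ?_
  show (g' ∘ mate ω)^[n] x = x ↔ (g ∘ mate ω)^[n] x = x
  rw [h.iter]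

theorem Agree.conn (h : Agree g g' ω x) {y : Half τ} : Conn (mate ω) g' x y ↔ Conn (mate ω) g x y := by
  constructor
  · intro hc
    induction hc with
    | refl => exact Conn.refl _
    | @tail b c _ h2 ih =>
      rcases h2 with rfl | rfl
      · exact ih.trans (Conn.m_step _)
      · rw [h b ih]
        exact ih.trans (Conn.g_step _)
  · intro hc
    induction hc with
    | refl => exact Conn.refl _
    | @tail b c h1 h2 ih =>
      rcases h2 with rfl | rfl
      · exact ih.trans (Conn.m_step _)
      · rw [← h b h1]
        exact ih.trans (Conn.g_step _)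

theorem Agree.symm (h : Agree g g' ω x) : Agree g' g ω x := fun y hy => (h y (h.conn.1 hy)).symm

theorem Agree.of_conn (h : Agree g g' ω x) {y : Half τ} (hy : Conn (mate ω) g x y) :
    Agree g g' ω y := fun w hw => h w (hy.trans hw)

theorem Agree.other (h : Agree g g' ω x) : Full.other (mate ω) g' x = Full.other (mate ω) g x := by
  unfold Full.other
  rw [h.period, h.iter]

theorem Agree.holn (h : Agree g g' ω x) (K : ℝ) (φ : Half τ → ℝ) (n : ℕ) :
    X3.holn K φ g' ω n x = X3.holn K φ g ω n x := by
  unfold X3.holn
  exact Finset.sum_congr rfl fun k _ => by rw [h.iter]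

theorem Agree.hol (h : Agree g g' ω x) (K : ℝ) (φ : Half τ → ℝ) :
    X3.hol K φ g' ω x = X3.hol K φ g ω x := by
  unfold X3.hol hl
  rw [h.period, h.holn]

/-- the factor of a closed strand -/
theorem Agree.cyc (h : Agree g g' ω x) (K : ℝ) (φ : Half τ → ℝ) :
    X3.holn K φ g' ω (minimalPeriod (g' ∘ mate ω) x) x =
      X3.holn K φ g ω (minimalPeriod (g ∘ mate ω) x) x := by
  rw [h.period, h.holn]

end

end Full.X3.Bad
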