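import Pool.Agent.Full.Def.Surf
import Pool.Agent.Full.Walk.Fin

/-!
# Strands of a square tiled surface seen in a chart

`ψ : ℤ → ℤ → τ` is a chart of a part of the surface: where it is valid the gluing is the gluing of the
plane.  The walker of `Full.Walk` follows the strand of the surface.
-/

set_option autoImplicit false

namespace Full.Bad
open Function Full.Walk

variable {τ : Type*}

/-- the side through which the walker leaves a tile -/
def out : Walk.Dir → Full.Dir
  | .N => .N | .E => .E | .S => .S | .W => .W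

/-- the half edge through which the walker enters its tile -/
def hf (ψ : ℤ → ℤ → τ) (s : Walk.St) : Half τ := (ψ s.i s.j, (out s.d).opp)

lemma out_turn (v : Bool) (d : Walk.Dir) : Full.Dir.mt v (out d).opp = out (Walk.turn v d) := by
  cases v <;> cases d <;> rfl

lemma out_neg (d : Walk.Dir) : out d.neg = (out d).opp := by cases d <;> rfl

lemma step_d' {b : ℤ → ℤ → Bool} (s : Walk.St) :
    (Walk.step b s).d = Walk.turn (b s.i s.j) s.d := rfl

variable [DecidableEq τ] {g : Half τ → Half τ} {ψ : ℤ → ℤ → τ} {ω : Finset τ}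

/-- the mate of the entrance is the exit -/
lemma mate_hf (s : Walk.St) : mate ω (hf ψ s) =
    (ψ s.i s.j, out (Walk.turn (cbits ψ ω s.i s.j) s.d)) := by
  unfold mate hf cbits
  simp only [out_turn]

/-- the chart is valid on `R`: neighbouring tiles of `R` are glued -/
def Valid (g : Half τ → Half τ) (ψ : ℤ → ℤ → τ) (R : ℤ → ℤ → Prop) : Prop :=
  ∀ (i j : ℤ) (d : Walk.Dir), R i j → R (i + d.dx) (j + d.dy) →
    g (ψ i j, out d) = (ψ (i + d.dx) (j + d.dy), (out d).opp)

variable {R : ℤ → ℤ → Prop}

/-- one step -/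
lemma Valid.step (hv : Valid g ψ R) {s : Walk.St} (h : R s.i s.j)
    (h' : R (Walk.step (cbits ψ ω) s).i (Walk.step (cbits ψ ω) s).j) :
    g (mate ω (hf ψ s)) = hf ψ (Walk.step (cbits ψ ω) s) := by
  rw [mate_hf]
  exact hv s.i s.j _ h h'

/-- the walker follows the strand as long as it stays in `R` -/
lemma Valid.iter (hv : Valid g ψ R) {s : Walk.St} : ∀ {n : ℕ},
    (∀ m ≤ n, R (pos (cbits ψ ω) s m).i (pos (cbits ψ ω) s m).j) →
      (g ∘ mate ω)^[n] (hf ψ s) = hf ψ (pos (cbits ψ ω) s n)
  | 0, _ => rfl
  | n + 1, h => by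
    rw [iterate_succ_apply', hv.iter (fun m hm => h m (by omega)), pos_succ]
    refine hv.step (h n (by omega)) ?_
    rw [← pos_succ]
    exact h (n + 1) le_rfl

end Full.Bad
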