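import Mathlib

/-!
# How many positions of a screening pair are possible

`V` is a set of positions, `f` joins every position to the other end of its arc, `pos` is the place on
the line, the arcs do not cross.  A screening pair at `y` gives the charge `2` to the arcs strictly over
`y`, the charge `1` to the arc which ends at `y` and nothing to the other arcs, and the weight of an arc
vanishes iff its total charge is `1` modulo `3`; `b x` is the charge of the arc of `x` without the pair.
If all the pairs at the elements of `V` have a nonzero weight (only the arcs of `V` are looked at) and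
every arc of `V` is over one of `c` tokens, then `V` has at most `2 + 2 c` elements.
-/

set_option autoImplicit false

namespace Full.Bad

variable {α κ : Type*}

/-- `p` is strictly between `a` and `b` -/
def Over (a b p : ℤ) : Prop := (a < p ∧ p < b) ∨ (b < p ∧ p < a)

/-- two arcs are apart -/
def Apart (a b c d : ℤ) : Prop := (a < c ∧ a < d ∧ b < c ∧ b < d) ∨ (c < a ∧ c < b ∧ d < a ∧ d < b)

/-- non crossing arcs with ends at the elements of `V` -/
structure Arcs (V : Finset α) (f : α → α) (pos : α → ℤ) : Prop where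
  dist : ∀ x ∈ V, ∀ y ∈ V, y ≠ x → y ≠ f x →
    pos y ≠ pos x ∧ pos y ≠ pos (f x) ∧ pos (f y) ≠ pos x ∧ pos (f y) ≠ pos (f x)
  symm : ∀ x ∈ V, ∀ y ∈ V, y = f x → x = f y
  nc : ∀ x ∈ V, ∀ y ∈ V, y ≠ x → y ≠ f x →
    (Over (pos x) (pos (f x)) (pos y) ↔ Over (pos x) (pos (f x)) (pos (f y)))

/-- no weight of an arc of `V` vanishes for a screening pair at an element of `V` -/
structure Pairs (V : Finset α) (f : α → α) (pos : α → ℤ) (b : α → ZMod 3) : Prop where
  own : ∀ x ∈ V, b x ≠ 0
  one : ∀ x ∈ V, b x = 1 → ∀ y ∈ V, y = x ∨ y = f x ∨ Over (pos x) (pos (f x)) (pos y)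
  two : ∀ x ∈ V, b x = 2 → ∀ y ∈ V, ¬ Over (pos x) (pos (f x)) (pos y)

variable {V : Finset α} {f : α → α} {pos : α → ℤ} {b : α → ZMod 3}

open Classical in
/-- at most two positions whose own arc has charge one -/
theorem card_one (hA : Arcs V f pos) (hV : Pairs V f pos b) :
    (V.filter fun x => b x = 1).card ≤ 2 := by
  rcases (V.filter fun x => b x = 1).eq_empty_or_nonempty with h0 | ⟨x, hx⟩
  · rw [h0]; simp
  · obtain ⟨hxV, hx1⟩ := Finset.mem_filter.1 hx
    have hsub : (V.filter fun x => b x = 1) ⊆ {x, f x} := by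
      intro y hy
      obtain ⟨hyV, hy1⟩ := Finset.mem_filter.1 hy
      rw [Finset.mem_insert, Finset.mem_singleton]
      by_contra hne
      push Not at hne
      have hx2 : x ≠ f y := fun h => hne.2 (hA.symm y hyV x hxV h)
      have h1 := ((hV.one x hxV hx1 y hyV).resolve_left hne.1).resolve_left hne.2
      have h2 := (hA.nc x hxV y hyV hne.1 hne.2).1 h1
      have h3 := ((hV.one y hyV hy1 x hxV).resolve_left hne.1.symm).resolve_left hx2
      unfold Over at h1 h2 h3
      omega
    exact (Finset.card_le_card hsub).trans Finset.card_le_two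

/-- the arcs of two positions with charge two are apart -/
theorem apart_two (hA : Arcs V f pos) (hV : Pairs V f pos b) {x y : α} (hx : x ∈ V) (hy : y ∈ V)
    (bx : b x = 2) (by' : b y = 2) (h1 : y ≠ x) (h2 : y ≠ f x) :
    Apart (pos x) (pos (f x)) (pos y) (pos (f y)) := by
  have h3 : x ≠ f y := fun h => h2 (hA.symm y hy x hx h)
  obtain ⟨e1, e2, e3, e4⟩ := hA.dist x hx y hy h1 h2
  have a1 := hV.two x hx bx y hy
  have a2 := hV.two y hy by' x hx
  have a3 := (hA.nc x hx y hy h1 h2).not.1 a1
  have a4 := (hA.nc y hy x hx h1.symm h3).not.1 a2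
  unfold Over at a1 a2 a3 a4
  unfold Apart
  omega

open Classical in
/-- **the number of possible positions of a screening pair** -/
theorem card_le (hA : Arcs V f pos) (hV : Pairs V f pos b) (Q : Finset κ) (ins : α → κ → Prop)
    (h1 : ∀ x ∈ V, b x ≠ 0 → ∃ q ∈ Q, ins x q)
    (h2 : ∀ x ∈ V, ∀ y ∈ V, ∀ q ∈ Q, ins x q → ins y q →
      ¬ Apart (pos x) (pos (f x)) (pos y) (pos (f y))) :
    V.card ≤ 2 + 2 * Q.card := by
  have hsplit : V = (V.filter fun x => b x = 1) ∪ (V.filter fun x => b x = 2) := by
    ext x
    simp only [Finset.mem_union, Finset.mem_filter]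
    constructor
    · intro hx
      have h0 := hV.own x hx
      have h3 : b x = 1 ∨ b x = 2 := by
        revert h0
        generalize b x = c
        revert c
        decide
      tauto
    · rintro (h | h) <;> exact h.1
  have h3 : (V.filter fun x => b x = 2).card ≤ 2 * Q.card := by
    have hch : ∀ x : α, ∃ q : Option κ, x ∈ V → b x = 2 → ∃ q' ∈ Q, ins x q' ∧ q = some q' := by
      intro x
      by_cases h : x ∈ V ∧ b x = 2
      · obtain ⟨q, hq, hq'⟩ := h1 x h.1 (by rw [h.2]; decide)
        exact ⟨some q, fun _ _ => ⟨q, hq, hq', rfl⟩⟩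
      · exact ⟨none, fun ha hb => absurd ⟨ha, hb⟩ h⟩
    choose t ht using hch
    have hmap : ∀ x ∈ V.filter (fun x => b x = 2), t x ∈ Q.image some := by
      intro x hx
      obtain ⟨hxV, hx2⟩ := Finset.mem_filter.1 hx
      obtain ⟨q, hq, -, he⟩ := ht x hxV hx2
      rw [he]
      exact Finset.mem_image_of_mem _ hq
    have hcard := Finset.card_le_mul_card_image_of_maps_to hmap 2 (by
      intro q _
      rcases (((V.filter fun x => b x = 2).filter fun x => t x = q)).eq_empty_or_nonempty with
        h0 | ⟨x, hx⟩
      · rw [h0]; simp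
      · obtain ⟨hx1, hxq⟩ := Finset.mem_filter.1 hx
        obtain ⟨hxV, hx2⟩ := Finset.mem_filter.1 hx1
        refine (Finset.card_le_card (t := {x, f x}) ?_).trans Finset.card_le_two
        intro y hy
        obtain ⟨hy1, hyq⟩ := Finset.mem_filter.1 hy
        obtain ⟨hyV, hy2⟩ := Finset.mem_filter.1 hy1
        rw [Finset.mem_insert, Finset.mem_singleton]
        by_contra hne
        push Not at hne
        obtain ⟨q1, hq1, hi1, he1⟩ := ht x hxV hx2
        obtain ⟨q2, hq2, hi2, he2⟩ := ht y hyV hy2
        have h4 : some q1 = some q2 := by rw [← he1, ← he2, hxq, hyq]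
        rw [Option.some.injEq] at h4
        subst h4
        exact h2 x hxV y hyV q1 hq1 hi1 hi2 (apart_two hA hV hxV hyV hx2 hy2 hne.1 hne.2))
    refine hcard.trans ?_
    exact Nat.mul_le_mul_left 2 Finset.card_image_le
  calc V.card ≤ (V.filter fun x => b x = 1).card + (V.filter fun x => b x = 2).card := by
        conv_lhs => rw [hsplit]
        exact Finset.card_union_le _ _
    _ ≤ 2 + 2 * Q.card := Nat.add_le_add (card_one hA hV) h3

end Full.Bad
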