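import Pool.Agent.Full.Bad.Gap

/-!
# Every open strand has an integer charge

The turning of a strand is determined modulo a full turn by the directions of its ends.  If the phase of
an end is `π / 3 * (th / 4 + a)`, `th` = direction, `a` an integer, and the phases of two glued sides
differ by a multiple of `π / 3`, then the holonomy of every open strand is `π / 3 * (1 / 2 + m)` with an
integer `m`; its weight is at most `√3`.
-/

set_option autoImplicit false

namespace Full.X3.Bad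
open Function Relation Finset

noncomputable section

variable {τ : Type*} [DecidableEq τ] {T : Finset τ} {g : Half τ → Half τ}

/-- directions as integers -/
def dn : Dir → ℤ
  | .E => 0 | .N => 1 | .W => 2 | .S => 3

lemma dn_tt (b : Bool) (d : Dir) :
    ((Dir.tt b (Dir.mt b d) : ℤ) : ZMod 4) = (dn (Dir.mt b d) : ZMod 4) - (dn d : ZMod 4) + 2 := by
  cases b <;> cases d <;> decide

lemma dn_opp (d : Dir) : (dn d.opp : ZMod 4) = (dn d : ZMod 4) + 2 := by
  cases d <;> decide

/-- the phases are integral: `th` the directions, `a` the charges -/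
structure IntPh (T : Finset τ) (g : Half τ → Half τ) (φ : Half τ → ℝ) (th a : Half τ → ℤ) : Prop where
  dir : ∀ x, Bd T g x → (th x : ZMod 4) = (dn x.2 : ZMod 4)
  ph : ∀ x, Bd T g x → φ x = Real.pi / 3 * (th x / 4 + a x)
  lk : ∀ x : Half τ, x.1 ∈ T → g x ≠ x → ∃ c : ℤ, φ x - φ (g x) = Real.pi / 3 * c

/-- the turning of the first `n` steps modulo four -/
theorem turn_mod (hs : Straight g) (ω : Finset τ) (e : Half τ) (n : ℕ)
    (h : ∀ k, k + 1 < n → g (mate ω ((g ∘ mate ω)^[k] e)) ≠ mate ω ((g ∘ mate ω)^[k] e)) (hn : 0 < n) :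
    ((∑ k ∈ range n, tr ω (mate ω ((g ∘ mate ω)^[k] e)) : ℤ) : ZMod 4) =
      (dn (mate ω ((g ∘ mate ω)^[n - 1] e)).2 : ZMod 4) - (dn e.2 : ZMod 4) + 2 := by
  have one : ∀ x : Half τ, ((tr ω (mate ω x) : ℤ) : ZMod 4) =
      (dn (mate ω x).2 : ZMod 4) - (dn x.2 : ZMod 4) + 2 := fun x => dn_tt _ _
  induction n with
  | zero => omega
  | succ n ih =>
    rcases Nat.eq_zero_or_pos n with rfl | hn0
    · simp only [zero_add, Finset.range_one, Finset.sum_singleton, iterate_zero, id]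
      exact one e
    · rw [Finset.sum_range_succ, Int.cast_add, ih (fun k hk => h k (by omega)) hn0, one,
        Nat.add_sub_cancel]
      have h1 := h (n - 1) (by omega)
      have h2 : (g ∘ mate ω)^[n] e = g (mate ω ((g ∘ mate ω)^[n - 1] e)) := by
        obtain ⟨m, rfl⟩ : ∃ m, n = m + 1 := ⟨n - 1, by omega⟩
        rw [iterate_succ_apply']
        rfl
      have h3 : (dn ((g ∘ mate ω)^[n] e).2 : ZMod 4) =
          (dn (mate ω ((g ∘ mate ω)^[n - 1] e)).2 : ZMod 4) + 2 := by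
        rw [h2, hs _ h1, dn_opp]
      rw [h3]
      ring

/-- the phases collected on the glued sides -/
theorem link_sum {φ : Half τ → ℝ} {th a : Half τ → ℤ} (hP : IntPh T g φ th a) (hG : Glu T g)
    (ω : Finset τ) {e : Half τ} (he : e.1 ∈ T) (n : ℕ)
    (h : ∀ k, k + 1 < n → g (mate ω ((g ∘ mate ω)^[k] e)) ≠ mate ω ((g ∘ mate ω)^[k] e)) (hn : 0 < n) :
    ∃ c : ℤ, ∑ k ∈ range n, (φ (mate ω ((g ∘ mate ω)^[k] e)) - φ ((g ∘ mate ω)^[k] e)) =
      φ (mate ω ((g ∘ mate ω)^[n - 1] e)) - φ e + Real.pi / 3 * c := by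
  induction n with
  | zero => omega
  | succ n ih =>
    rcases Nat.eq_zero_or_pos n with rfl | hn0
    · refine ⟨0, ?_⟩
      simp
    · obtain ⟨c, hc⟩ := ih (fun k hk => h k (by omega)) hn0
      have h1 := h (n - 1) (by omega)
      have h2 : (g ∘ mate ω)^[n] e = g (mate ω ((g ∘ mate ω)^[n - 1] e)) := by
        obtain ⟨m, rfl⟩ : ∃ m, n = m + 1 := ⟨n - 1, by omega⟩
        rw [iterate_succ_apply']
        rfl
      have h3 : ((g ∘ mate ω)^[n - 1] e).1 ∈ T := hG.conn_mem (Conn.iter _ e) he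
      obtain ⟨c', hc'⟩ := hP.lk (mate ω ((g ∘ mate ω)^[n - 1] e)) h3 h1
      refine ⟨c + c', ?_⟩
      rw [Finset.sum_range_succ, hc, Nat.add_sub_cancel, h2]
      push_cast
      linear_combination hc'

/-- **integer charges** -/
theorem hol_int (hG : Glu T g) (hs : Straight g) {φ : Half τ → ℝ} {th a : Half τ → ℤ}
    (hP : IntPh T g φ th a) (ω : Finset τ) {e : Half τ} (he : Bd T g e) :
    ∃ m : ℤ, hol (-(Real.pi / 24)) φ g ω e = Real.pi / 3 * (1 / 2 + m) := by
  have h := hG.two ω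
  have hp := hG.periodic ω e
  obtain ⟨hpos, hlast⟩ := h.open_last he.2 hp
  have hne : ∀ k, k + 1 < hl (mate ω) g e →
      g (mate ω ((g ∘ mate ω)^[k] e)) ≠ mate ω ((g ∘ mate ω)^[k] e) := fun k hk =>
    h.open_ne he.2 hp hk
  obtain ⟨c, hc⟩ := link_sum hP hG ω he.1 _ hne hpos
  have ht := turn_mod hs ω e _ hne hpos
  rw [hlast] at ht hc
  set t : ℤ := ∑ k ∈ range (hl (mate ω) g e), tr ω (mate ω ((g ∘ mate ω)^[k] e)) with ht'
  have hob := hG.other_bd (ω := ω) he
  have hdv : ((th (other (mate ω) g e) - th e - t - 2 : ℤ) : ZMod 4) = 0 := by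
    push_cast
    rw [hP.dir _ hob, hP.dir _ he, ht]
    have : (2 : ZMod 4) + 2 = 0 := by decide
    linear_combination -this
  obtain ⟨j, hj⟩ := (ZMod.intCast_zmod_eq_zero_iff_dvd _ 4).1 hdv
  refine ⟨j + c + a (other (mate ω) g e) - a e, ?_⟩
  have e1 : hol (-(Real.pi / 24)) φ g ω e = 2 * (-(Real.pi / 24)) * (t : ℝ) +
      ∑ k ∈ range (hl (mate ω) g e),
        (φ (mate ω ((g ∘ mate ω)^[k] e)) - φ ((g ∘ mate ω)^[k] e)) := by
    unfold hol holn hstep
    rw [ht', Int.cast_sum, Finset.mul_sum, ← Finset.sum_add_distrib]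
    refine Finset.sum_congr rfl fun k _ => ?_
    ring
  rw [e1, hc, hP.ph _ hob, hP.ph _ he]
  have hj' : (th (other (mate ω) g e) : ℝ) - th e - t - 2 = 4 * j := by exact_mod_cast hj
  push_cast
  linear_combination Real.pi / 12 * hj'

lemma cos_le (m : ℤ) : ‖(2 : ℂ) * Complex.cos ((Real.pi / 3 * (1 / 2 + m) : ℝ) : ℂ)‖ ≤ Real.sqrt 3 := by
  rw [← Complex.ofReal_cos, ← Complex.ofReal_ofNat, ← Complex.ofReal_mul, Complex.norm_real,
    Real.norm_eq_abs]
  set c := Real.cos (Real.pi / 3 * (1 / 2 + m)) with hc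
  have h3 : Real.cos (3 * (Real.pi / 3 * (1 / 2 + m))) = 0 := by
    have : 3 * (Real.pi / 3 * (1 / 2 + (m : ℝ))) = Real.pi / 2 + (m : ℝ) * Real.pi := by ring
    rw [this, Real.cos_add, Real.cos_pi_div_two, Real.sin_int_mul_pi]
    ring
  rw [Real.cos_three_mul, ← hc] at h3
  have h4 : c = 0 ∨ c ^ 2 = 3 / 4 := by
    have : c * (4 * c ^ 2 - 3) = 0 := by linear_combination h3
    rcases mul_eq_zero.1 this with h | h
    · exact Or.inl h
    · right
      linarith
  refine Real.le_sqrt_of_sq_le ?_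
  rw [sq_abs]
  rcases h4 with h | h
  · rw [h]
    norm_num
  · calc (2 * c) ^ 2 = 4 * c ^ 2 := by ring
      _ ≤ 3 := by rw [h]; norm_num

variable {ι : Type*} [LinearOrder ι]

omit [DecidableEq τ] in
/-- the phases with charges added -/
theorem IntPh.add {φ : Half τ → ℝ} {th a : Half τ → ℤ} (hP : IntPh T g φ th a) {ψ : Half τ → ℝ}
    {c : Half τ → ℤ} (h0 : ∀ x, g x ≠ x → ψ x = 0) (h1 : ∀ x, Bd T g x → ψ x = Real.pi / 3 * c x)
    (hinv : ∀ x, g (g x) = x) : IntPh T g (φ + ψ) th (a + c) := by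
  refine ⟨hP.dir, fun x hx => ?_, fun x hx hn => ?_⟩
  · simp only [Pi.add_apply]
    rw [hP.ph x hx, h1 x hx]
    push_cast
    ring
  · obtain ⟨c', hc'⟩ := hP.lk x hx hn
    refine ⟨c', ?_⟩
    have h3 : g (g x) ≠ g x := by
      rw [hinv]
      exact hn.symm
    simp only [Pi.add_apply]
    rw [h0 x hn, h0 (g x) h3, add_zero, add_zero, hc']

/-- **bound of the weight of a configuration** -/
theorem norm_cw_le (hG : Glu T g) (hs : Straight g) {φ : Half τ → ℝ} {th a : Half τ → ℤ}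
    (hP : IntPh T g φ th a) (z : Option (Half τ)) (o : Half τ → ι) (ω : Finset τ)
    (B : Finset (St (mate ω) g))
    (hB : ∀ c ∈ loops T g ω, c ∉ B → ‖lpw (-(Real.pi / 24)) φ g ω c‖ ≤ 1) :
    ‖cw (-(Real.pi / 24)) φ T g z o ω‖ ≤ Real.sqrt 3 ^ (arcs T g ω z o).card * 2 ^ B.card := by
  classical
  have hz1 : ‖zw (-(Real.pi / 24)) φ g ω z‖ = 1 := by
    cases z with
    | none => simp [zw]
    | some w => exact norm_ue _
  unfold cw
  rw [norm_mul, norm_mul, hz1, mul_one, norm_prod, norm_prod]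
  refine mul_le_mul ?_ ?_ (Finset.prod_nonneg fun _ _ => norm_nonneg _) (by positivity)
  · calc ∏ e ∈ arcs T g ω z o, ‖2 * Complex.cos (hol (-(Real.pi / 24)) φ g ω e)‖ ≤
        ∏ e ∈ arcs T g ω z o, Real.sqrt 3 := by
          refine Finset.prod_le_prod (fun _ _ => norm_nonneg _) fun e he => ?_
          obtain ⟨m, hm⟩ := hol_int hG hs hP ω (mem_arcs.1 he).1
          rw [hm]
          exact cos_le m
      _ = _ := by rw [Finset.prod_const]
  · have h2 : ∀ c ∈ loops T g ω, ‖lpw (-(Real.pi / 24)) φ g ω c‖ ≤ if c ∈ B then 2 else 1 := by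
      intro c hc
      split_ifs with h
      · unfold lpw
        rw [norm_mul, Complex.norm_ofNat, ← Complex.ofReal_cos, Complex.norm_real, Real.norm_eq_abs]
        have := Real.abs_cos_le_one (holn (-(Real.pi / 24)) φ g ω
          (minimalPeriod (g ∘ mate ω) (Quot.out c)) (Quot.out c))
        linarith
      · exact hB c hc h
    refine (Finset.prod_le_prod (fun _ _ => norm_nonneg _) h2).trans ?_
    rw [Finset.prod_ite, Finset.prod_const, Finset.prod_const_one, mul_one]
    refine pow_le_pow_right₀ (by norm_num) (Finset.card_le_card fun c hc => ?_)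
    exact (Finset.mem_filter.1 hc).2

end

end Full.X3.Bad
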