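import Pool.Agent.Full.Bad.Moment
import Pool.Agent.Full.Bad.Int

/-!
# The amplitude with two screening pairs has a bounded second moment

The positions of the screening pairs whose strand is not regular are ends of dangerous strands, and the
closed strands which are not dangerous have a weight of modulus at most one.  Then the sum of the weights
over the positions has a bounded second moment, uniformly in everything.
-/

set_option autoImplicit false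

namespace Full.X3.Bad
open Finset Function Full.Bad
open Full.Perc (Ex Ex_mono Ex_mul)

variable {τ : Type} [DecidableEq τ] {T : Finset τ} {g : Half τ → Half τ}

/-- the phases with two screening pairs are integral -/
theorem intPh_sc {φ : Half τ → ℝ} {th a : Half τ → ℤ} (hG : Glu T g) (hP : IntPh T g φ th a)
    (pos : Half τ → ℤ) (y y' : Half τ) :
    IntPh T g (φ + sc g pos y + sc g pos y') th
      (a + (fun x => ap (pos y) (pos x)) + fun x => ap (pos y') (pos x)) := by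
  refine (hP.add (fun x hx => sc_end hx) (fun x hx => sc_of hx.2) hG.inv).add
    (fun x hx => sc_end hx) (fun x hx => sc_of hx.2) hG.inv

/-- what is known for one configuration -/
structure Reg {ι : Type} [LinearOrder ι] (T : Finset τ) (g : Half τ → Half τ) (φ : Half τ → ℝ)
    (z : Option (Half τ)) (pos : Half τ → ℤ) (I J : Finset (Half τ)) (j₁ j₂ k₁ k₂ : ℤ) (q : ℕ)
    (D : Half τ → Prop) (ω : Finset τ) : Prop where
  reg : ∃ (R : Half τ → Prop) (b : Half τ → ℤ) (Q : Finset ι) (ins : Half τ → ι → Prop),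
    Law T g (-(Real.pi / 24)) φ z ω pos R b Q ins ∧ Q.card ≤ q ∧
    (∀ y ∈ I, ¬ (R y ∧ ¬ (j₁ ≤ pos (other (mate ω) g y) ∧ pos (other (mate ω) g y) ≤ j₂)) → D y) ∧
    ∀ y ∈ J, ¬ (R y ∧ k₁ ≤ pos (other (mate ω) g y) ∧ pos (other (mate ω) g y) ≤ k₂) → D y
  cl : ∀ c ∈ loops T g ω, (∀ y, Full.st (mate ω) g y = c → ¬ D y) →
    ‖lpw (-(Real.pi / 24)) φ g ω c‖ ≤ 1

/-- **the second moment of the amplitude** -/
theorem amp_sq (q : ℕ) : ∃ B : ℝ, ∀ (τ : Type) [DecidableEq τ] (T : Finset τ) (g : Half τ → Half τ)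
    (χ : ℤ → ℤ → τ) (c d b t : ℤ) (_ : Strip T g χ c d b t) (_ : Glu T g) (_ : Straight g)
    (m : ℕ) (_ : 1 ≤ m) (_ : c + (4 * m + 2) ≤ d) (_ : t - b ≤ m)
    (φ : Half τ → ℝ) (th a : Half τ → ℤ) (_ : IntPh T g φ th a) (z : Option (Half τ))
    (ι ι' : Type) [LinearOrder ι] [LinearOrder ι'] (o : Half τ → ι)
    (_ : ∀ x, Bd T g x → ∀ y, Bd T g y → o x = o y → x = y) (pos : Half τ → ℤ)
    (I J : Finset (Half τ)) (j₁ j₂ k₁ k₂ : ℤ), k₁ ≤ j₁ → j₂ ≤ k₂ → j₁ ≤ j₂ →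
    (∀ y ∈ I, Bd T g y ∧ (pos y < k₁ ∨ k₂ < pos y)) →
    (∀ y ∈ J, Bd T g y ∧ (j₁ ≤ pos y ∧ pos y ≤ j₂)) →
    (∀ ω ⊆ T, Reg (ι := ι') T g φ z pos I J j₁ j₂ k₁ k₂ q (Danger χ c d b t m g ω) ω) →
    ∀ n : ℕ, (∀ ω ⊆ T, (arcs T g ω z o).card = n) →
    Ex T (fun ω => ‖(∑ y ∈ I, ∑ y' ∈ J, W2 (-(Real.pi / 24)) φ T g z o ω pos y y') /
      ((Real.sqrt 3 : ℝ) : ℂ) ^ n‖ ^ 2) ≤ B := by
  classical
  obtain ⟨B, hB⟩ := sq_moment (C₀ := (4 + 2 * (q : ℝ)) ^ 2) (Q := 18) (by norm_num)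
  refine ⟨B, ?_⟩
  intro τ _ T g χ c d b t hS hG hst m hm hcd hw φ th a hP z ι ι' _ _ o ho pos I J j₁ j₂ k₁ k₂ h1 h2
    h12 hI hJ hR n hn
  refine hB τ T g χ c d b t hS hG m hm hcd _ fun ω hω => ?_
  obtain ⟨⟨R, b', Q, ins, hL, hQ, hRI, hRJ⟩, hcl⟩ := hR ω hω
  set N := hS.N hG hcd ω with hN
  set D := Danger χ c d b t m g ω with hD
  have hs3 : (0 : ℝ) < Real.sqrt 3 := by positivity
  -- the dangerous closed strands
  set Bc := (loops T g ω).filter fun c => ∃ y, Full.st (mate ω) g y = c ∧ D y with hBc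
  have hBN : Bc.card ≤ N := hS.count_st hG hm hcd hw ω Bc fun c hc => (Finset.mem_filter.1 hc).2
  have hM : ∀ y ∈ I, ∀ y' ∈ J, ‖W2 (-(Real.pi / 24)) φ T g z o ω pos y y'‖ ≤
      Real.sqrt 3 ^ n * 2 ^ N := by
    intro y _ y' _
    have h3 := norm_cw_le hG hst (intPh_sc hG hP pos y y') z o ω Bc fun c hc hcB => by
      have h4 : lpw (-(Real.pi / 24)) (φ + sc g pos y + sc g pos y') g ω c =
          lpw (-(Real.pi / 24)) φ g ω c := by
        rw [lpw_add hG _ _ _ (fun x hx => sc_end hx) ω hc, lpw_add hG _ _ _ (fun x hx => sc_end hx) ω hc]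
      rw [h4]
      refine hcl c hc fun y hy hDy => hcB ?_
      rw [hBc, Finset.mem_filter]
      exact ⟨hc, y, hy, hDy⟩
    rw [hn ω hω] at h3
    refine h3.trans (mul_le_mul_of_nonneg_left ?_ (by positivity))
    exact pow_le_pow_right₀ (by norm_num) hBN
  have h5 := hL.sum_le hG ho I J h1 h2 h12 (fun y hy => (hI y hy).2) (fun y hy => (hJ y hy).2) hM
    (by positivity)
  -- the numbers of the positions which are not regular
  have hcI : (I.filter fun y => ¬ (R y ∧ ¬ (j₁ ≤ pos (other (mate ω) g y) ∧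
      pos (other (mate ω) g y) ≤ j₂))).card ≤ 2 * N := by
    refine hS.count_ends hG hm hcd hw ω _ fun y hy => ?_
    obtain ⟨hy1, hy2⟩ := Finset.mem_filter.1 hy
    exact ⟨(hI y hy1).1, hRI y hy1 hy2⟩
  have hcJ : (J.filter fun y => ¬ (R y ∧ k₁ ≤ pos (other (mate ω) g y) ∧
      pos (other (mate ω) g y) ≤ k₂)).card ≤ 2 * N := by
    refine hS.count_ends hG hm hcd hw ω _ fun y hy => ?_
    obtain ⟨hy1, hy2⟩ := Finset.mem_filter.1 hy
    exact ⟨(hJ y hy1).1, hRJ y hy1 hy2⟩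
  set nI := (I.filter fun y => ¬ (R y ∧ ¬ (j₁ ≤ pos (other (mate ω) g y) ∧
      pos (other (mate ω) g y) ≤ j₂))).card with hnI
  set nJ := (J.filter fun y => ¬ (R y ∧ k₁ ≤ pos (other (mate ω) g y) ∧
      pos (other (mate ω) g y) ≤ k₂)).card with hnJ
  have hx : (1 : ℝ) ≤ 4 + 2 * (q : ℝ) := by
    have : (0 : ℝ) ≤ q := Nat.cast_nonneg q
    linarith
  have e1 : (((4 + 2 * Q.card + nI : ℕ)) : ℝ) ≤ (4 + 2 * (q : ℝ)) * 3 ^ N := by
    refine le_trans ?_ (lin_le hx N)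
    have : 4 + 2 * Q.card + nI ≤ 4 + 2 * q + 2 * N := by omega
    exact_mod_cast this
  have e2 : (((2 + 2 * Q.card + nJ : ℕ)) : ℝ) ≤ (4 + 2 * (q : ℝ)) * 3 ^ N := by
    refine le_trans ?_ (lin_le hx N)
    have : 2 + 2 * Q.card + nJ ≤ 4 + 2 * q + 2 * N := by omega
    exact_mod_cast this
  have e3 : ‖∑ y ∈ I, ∑ y' ∈ J, W2 (-(Real.pi / 24)) φ T g z o ω pos y y'‖ ≤
      Real.sqrt 3 ^ n * 2 ^ N * ((((4 + 2 * Q.card + nI : ℕ)) : ℝ) * ((2 + 2 * Q.card + nJ : ℕ) : ℝ)) := by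
    refine le_trans ?_ h5
    refine (norm_sum_le _ _).trans (Finset.sum_le_sum fun y _ => norm_sum_le _ _)
  rw [norm_div, norm_pow, Complex.norm_real, Real.norm_of_nonneg hs3.le, div_le_iff₀ (by positivity)]
  refine e3.trans ?_
  have e4 : (((4 + 2 * Q.card + nI : ℕ)) : ℝ) * ((2 + 2 * Q.card + nJ : ℕ) : ℝ) ≤
      ((4 + 2 * (q : ℝ)) * 3 ^ N) * ((4 + 2 * (q : ℝ)) * 3 ^ N) :=
    mul_le_mul e1 e2 (Nat.cast_nonneg _) (by positivity)
  calc Real.sqrt 3 ^ n * 2 ^ N * ((((4 + 2 * Q.card + nI : ℕ)) : ℝ) * ((2 + 2 * Q.card + nJ : ℕ) : ℝ))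
      ≤ Real.sqrt 3 ^ n * 2 ^ N * (((4 + 2 * (q : ℝ)) * 3 ^ N) * ((4 + 2 * (q : ℝ)) * 3 ^ N)) :=
        mul_le_mul_of_nonneg_left e4 (by positivity)
    _ = (4 + 2 * (q : ℝ)) ^ 2 * 18 ^ N * Real.sqrt 3 ^ n := by
        have : (18 : ℝ) ^ N = 2 ^ N * 3 ^ N * 3 ^ N := by
          rw [← mul_pow, ← mul_pow]
          norm_num
        rw [this]
        ring

end Full.X3.Bad
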