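import Pool.Agent.Full.Bad.Valid

/-!
# The sum over the gaps is the sum over the pairs

`stp g pos j` are the phases of a charge two in the gap just below the position `j`.  If the number of
gaps is even the sum over the gaps is the sum over every second end.
-/

set_option autoImplicit false

namespace Full.X3.Bad
open Function Relation Finset

noncomputable section

variable {τ : Type*} [DecidableEq τ] {T : Finset τ} {g : Half τ → Half τ}

/-- the phases of a charge two in the gap just below the position `j` -/
def stp (g : Half τ → Half τ) (pos : Half τ → ℤ) (j : ℤ) (x : Half τ) : ℝ :=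
  open Classical in if g x = x ∧ j ≤ pos x then 2 * (Real.pi / 3) else 0

lemma stp_end {pos : Half τ → ℤ} {j : ℤ} {x : Half τ} (hx : g x ≠ x) : stp g pos j x = 0 :=
  if_neg fun h => hx h.1

variable {ι : Type*} [LinearOrder ι]

/-- the weight of a configuration depends only on the phases of the points of `T` -/
theorem hol_congr (K : ℝ) {φ ψ : Half τ → ℝ} (hG : Glu T g) (h : ∀ x : Half τ, x.1 ∈ T → φ x = ψ x)
    (ω : Finset τ) (n : ℕ) {x : Half τ} (hx : x.1 ∈ T) :
    holn K φ g ω n x = holn K ψ g ω n x := by
  unfold holn hstep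
  refine Finset.sum_congr rfl fun k _ => ?_
  have h1 : ((g ∘ mate ω)^[k] x).1 ∈ T := hG.conn_mem (Conn.iter k x) hx
  rw [h _ h1, h (mate ω ((g ∘ mate ω)^[k] x)) h1]

theorem cw_congr (hG : Glu T g) (K : ℝ) {φ ψ : Half τ → ℝ} (h : ∀ x : Half τ, x.1 ∈ T → φ x = ψ x)
    (z : Option (Half τ)) (hz : ∀ x, z = some x → Bd T g x) (o : Half τ → ι) (ω : Finset τ) :
    cw K φ T g z o ω = cw K ψ T g z o ω := by
  classical
  unfold cw
  congr 1
  · congr 1
    · refine Finset.prod_congr rfl fun e he => ?_
      unfold hol
      rw [hol_congr K hG h ω _ (mem_arcs.1 he).1.1]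
    · refine Finset.prod_congr rfl fun c hc => ?_
      unfold loops at hc
      rw [Finset.mem_filter] at hc
      obtain ⟨hc1, hc2⟩ := hc
      have hout : Full.st (mate ω) g (Quot.out c) = c := Quot.out_eq c
      have h2 := hG.two ω
      have hT : (Quot.out c : Half τ).1 ∈ T := by
        unfold strands at hc1
        rw [Finset.mem_image] at hc1
        obtain ⟨x, hx, hxc⟩ := hc1
        have : Conn (mate ω) g x (Quot.out c) := h2.st_eq.1 (hxc.trans hout.symm)
        exact hG.conn_mem this (mem_hs.1 hx)
      unfold lpw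
      rw [hol_congr K hG h ω _ hT]
  · cases hzz : z with
    | none => rfl
    | some w =>
      unfold zw hol
      simp only
      rw [hol_congr K hG h ω _ (hz w hzz).1]

/-- two neighbouring gaps make a screening pair -/
theorem cw_gap (hG : Glu T g) (K : ℝ) (φ : Half τ → ℝ) (z : Option (Half τ))
    (hz : ∀ x, z = some x → Bd T g x) {o : Half τ → ι}
    (ho : ∀ x, Bd T g x → ∀ y, Bd T g y → o x = o y → x = y) {pos : Half τ → ℤ}
    (hinj : ∀ x, Bd T g x → ∀ y, Bd T g y → pos x = pos y → x = y) {y : Half τ} (hy : Bd T g y)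
    (hyz : z ≠ some y) (ω : Finset τ) :
    cw K (φ + stp g pos (pos y)) T g z o ω + cw K (φ + stp g pos (pos y + 1)) T g z o ω =
      cw K (φ + sc g pos y) T g z o ω := by
  have h3 : 2 * Real.cos (Real.pi / 3) = 1 := by
    rw [Real.cos_pi_div_three]
    norm_num
  rw [← cw_pair hG K (φ + sc g pos y) z hz ho hy hyz h3 ω]
  have key : ∀ x : Half τ, x.1 ∈ T → g x = x → pos x = pos y → x = y := fun x hx hgx h =>
    hinj x ⟨hx, hgx⟩ y hy h
  congr 1
  · refine cw_congr hG K (fun x hx => ?_) z hz o ω
    simp only [Pi.add_apply]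
    by_cases hgx : g x = x
    · rw [sc_of hgx]
      unfold stp bump ap
      by_cases h1 : pos x < pos y
      · rw [if_neg (by omega), if_pos h1, if_neg (fun h => by rw [h] at h1; omega)]
        simp
      · by_cases h2 : pos x = pos y
        · rw [if_pos ⟨hgx, by omega⟩, if_neg h1, if_pos h2, if_pos (key x hx hgx h2)]
          push_cast
          ring
        · rw [if_pos ⟨hgx, by omega⟩, if_neg h1, if_neg h2, if_neg (fun h => h2 (by rw [h]))]
          push_cast
          ring
    · rw [stp_end hgx, sc_end hgx, bump_end hy.2 _ x hgx]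
      ring
  · refine cw_congr hG K (fun x hx => ?_) z hz o ω
    simp only [Pi.add_apply]
    by_cases hgx : g x = x
    · rw [sc_of hgx]
      unfold stp bump ap
      by_cases h1 : pos x < pos y
      · rw [if_neg (by omega), if_pos h1, if_neg (fun h => by rw [h] at h1; omega)]
        simp
      · by_cases h2 : pos x = pos y
        · rw [if_neg (by omega), if_neg h1, if_pos h2, if_pos (key x hx hgx h2)]
          push_cast
          ring
        · rw [if_pos ⟨hgx, by omega⟩, if_neg h1, if_neg h2, if_neg (fun h => h2 (by rw [h]))]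
          push_cast
          ring
    · rw [stp_end hgx, sc_end hgx, bump_end hy.2 _ x hgx]
      ring

/-- **the sum over an even number of gaps is the sum over the screening pairs around every second
end** -/
theorem sum_gap (hG : Glu T g) (K : ℝ) (φ : Half τ → ℝ) (z : Option (Half τ))
    (hz : ∀ x, z = some x → Bd T g x) {o : Half τ → ι}
    (ho : ∀ x, Bd T g x → ∀ y, Bd T g y → o x = o y → x = y) {pos : Half τ → ℤ}
    (hinj : ∀ x, Bd T g x → ∀ y, Bd T g y → pos x = pos y → x = y) (m : ℤ) (n : ℕ)
    (y : ℕ → Half τ) (hy : ∀ i < n, Bd T g (y i) ∧ z ≠ some (y i) ∧ pos (y i) = m + 2 * i)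
    (ω : Finset τ) :
    ∑ j ∈ Finset.Ico m (m + 2 * n), cw K (φ + stp g pos j) T g z o ω =
      ∑ i ∈ Finset.range n, cw K (φ + sc g pos (y i)) T g z o ω := by
  induction n with
  | zero => simp
  | succ n ih =>
    rw [Finset.sum_range_succ, ← ih fun i hi => hy i (by omega)]
    have e1 : Finset.Ico m (m + 2 * ((n + 1 : ℕ) : ℤ)) =
        insert (m + 2 * n) (insert (m + 2 * n + 1) (Finset.Ico m (m + 2 * n))) := by
      ext j
      simp only [Finset.mem_Ico, Finset.mem_insert]
      push_cast
      omega
    have n1 : m + 2 * (n : ℤ) + 1 ∉ Finset.Ico m (m + 2 * (n : ℤ)) := by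
      rw [Finset.mem_Ico]
      omega
    have n2 : m + 2 * (n : ℤ) ∉ insert (m + 2 * (n : ℤ) + 1) (Finset.Ico m (m + 2 * (n : ℤ))) := by
      rw [Finset.mem_insert, Finset.mem_Ico]
      omega
    rw [e1, Finset.sum_insert n2, Finset.sum_insert n1]
    obtain ⟨h1, h2, h3⟩ := hy n (by omega)
    rw [← cw_gap hG K φ z hz ho hinj h1 h2 ω, h3]
    ring

end

end Full.X3.Bad
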