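import Pool.Agent.Full.Bad.Int
import Pool.Agent.Full.X3.Mod

/-!
# The weight summed over the screening charges is bounded for every configuration

`sum_norm_le`: the sum over the screening pairs around the ends `y ∈ I` and `y' ∈ J` is at most
`√3 ^ (number of arcs) * 2 ^ N * (5 + 2 c + 2 N) * (3 + 2 c + 2 N')`, where `N` and `N'` bound the number
of the dangerous strands.
-/

set_option autoImplicit false

namespace Full.X3.Bad
open Full.Bad Function Relation Finset

noncomputable section

variable {τ : Type*} [DecidableEq τ] {T : Finset τ} {g : Half τ → Half τ}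

/-- `N` bounds the number of different strands with the property `P` -/
def Few (g : Half τ → Half τ) (ω : Finset τ) (P : Half τ → Prop) (N : ℕ) : Prop :=
  ∀ S : Finset (Half τ), (∀ x ∈ S, ∀ y ∈ S, Conn (mate ω) g x y → x = y) → (∀ x ∈ S, P x) →
    S.card ≤ N

open Classical in
/-- a set of ends of dangerous strands has at most `2 N` elements -/
theorem Few.ends (hG : Glu T g) {ω : Finset τ} {P : Half τ → Prop} {N : ℕ} (h : Few g ω P N)
    {pos : Half τ → ℤ} (hinj : ∀ x, Bd T g x → ∀ y, Bd T g y → pos x = pos y → x = y)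
    (D : Finset (Half τ)) (hD : ∀ x ∈ D, Bd T g x ∧ P x) : D.card ≤ 2 * N := by
  set f := other (mate ω) g with hf
  -- one end per strand
  set S1 := D.filter fun x => pos x < pos (f x) with hS1
  set S2 := D.filter fun x => ¬ pos x < pos (f x) with hS2
  have key : ∀ S : Finset (Half τ), S ⊆ D → (∀ x ∈ S, ∀ y ∈ S, y = f x → False) → S.card ≤ N := by
    intro S hS hSf
    refine h S (fun x hx y hy hxy => ?_) fun x hx => (hD x (hS hx)).2
    rcases (hG.conn_iff (hD x (hS hx)).1 (hD y (hS hy)).1).1 hxy with h1 | h1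
    · exact h1.symm
    · exact (hSf x hx y hy h1).elim
  have c1 : S1.card ≤ N := by
    refine key S1 (Finset.filter_subset _ _) fun x hx y hy hxy => ?_
    obtain ⟨hx1, hx2⟩ := Finset.mem_filter.1 hx
    obtain ⟨-, hy2⟩ := Finset.mem_filter.1 hy
    have h3 : f (f x) = x := hG.other_other (hD x hx1).1
    rw [hxy, h3] at hy2
    omega
  have c2 : S2.card ≤ N := by
    refine key S2 (Finset.filter_subset _ _) fun x hx y hy hxy => ?_
    obtain ⟨hx1, hx2⟩ := Finset.mem_filter.1 hx
    obtain ⟨-, hy2⟩ := Finset.mem_filter.1 hy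
    have hb := (hD x hx1).1
    have h4 : f (f x) = x := hG.other_other hb
    rw [hxy, h4] at hy2
    have h3 : pos x = pos (f x) := le_antisymm (not_lt.1 hy2) (not_lt.1 hx2)
    exact hG.other_ne hb (hinj _ hb _ (hG.other_bd hb) h3).symm
  have : D.card = S1.card + S2.card := by
    rw [hS1, hS2, Finset.card_filter_add_card_filter_not]
  omega

/-- the integer phases of a screening pair around the end `y` -/
def scq (g : Half τ → Half τ) (pos : Half τ → ℤ) (y x : Half τ) : ℤ :=
  open Classical in if g x = x then -(4 * ap (pos y) (pos x)) else 0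

lemma qph_scq (q : Half τ → ℤ) (pos : Half τ → ℤ) (y : Half τ) :
    qph (q + scq g pos y) = qph q + sc g pos y := by
  funext x
  simp only [Pi.add_apply]
  unfold qph scq sc kap
  by_cases h : g x = x
  · rw [Pi.add_apply, if_pos h, if_pos h]
    push_cast
    ring
  · rw [Pi.add_apply, if_neg h, if_neg h]
    push_cast
    ring

lemma Natural.add {z : Half τ} {q : Half τ → ℤ} (hG : Glu T g) (h : Natural T g z q)
    (pos : Half τ → ℤ) (y : Half τ) : Natural T g z (q + scq g pos y) := by
  refine ⟨fun x hx => ?_, fun e he hez => ?_⟩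
  · have h1 : g (g x) ≠ g x := by
      rw [hG.inv]
      exact hx.symm
    simp only [Pi.add_apply]
    unfold scq
    rw [if_neg hx, if_neg h1, add_zero, add_zero]
    exact h.link x hx
  · simp only [Pi.add_apply]
    unfold scq
    rw [if_pos he.2]
    obtain ⟨c, hc⟩ := h.wall e he hez
    exact ⟨c - ap (pos y) (pos e), by linarith⟩

variable {ι : Type*} [LinearOrder ι]

/-- a loop with a point on a dangerous strand -/
theorem loops_few (hG : Glu T g) {ω : Finset τ} {P : Half τ → Prop} {N : ℕ} (h : Few g ω P N) :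
    open Classical in ((loops T g ω).filter fun c => P (Quot.out c)).card ≤ N := by
  classical
  set B := (loops T g ω).filter fun c => P (Quot.out c) with hB
  have h2 := hG.two ω
  have hinj : ∀ c ∈ B, ∀ c' ∈ B, (Quot.out c : Half τ) = Quot.out c' → c = c' := by
    intro c _ c' _ hcc
    have e1 : st (mate ω) g (Quot.out c) = c := Quot.out_eq c
    have e2 : st (mate ω) g (Quot.out c') = c' := Quot.out_eq c'
    rw [← e1, ← e2]
    exact congrArg _ hcc
  have hcard : (B.image fun c => (Quot.out c : Half τ)).card = B.card :=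
    Finset.card_image_of_injOn fun c hc c' hc' h => hinj c hc c' hc' h
  rw [← hcard]
  refine h _ (fun x hx y hy hxy => ?_) fun x hx => ?_
  · rw [Finset.mem_image] at hx hy
    obtain ⟨c, -, rfl⟩ := hx
    obtain ⟨c', -, rfl⟩ := hy
    have e1 : st (mate ω) g (Quot.out c) = c := Quot.out_eq c
    have e2 : st (mate ω) g (Quot.out c') = c' := Quot.out_eq c'
    have e3 : st (mate ω) g (Quot.out c) = st (mate ω) g (Quot.out c') := h2.st_eq.2 hxy
    rw [e1, e2] at e3
    rw [e3]
  · rw [Finset.mem_image] at hx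
    obtain ⟨c, hc, rfl⟩ := hx
    exact (Finset.mem_filter.1 hc).2

/-- bound of the weight of one configuration -/
theorem norm_cw_le' (hG : Glu T g) (hst : Straight g) {z : Half τ} {q : Half τ → ℤ}
    (hq : Natural T g z q) (o : Half τ → ι) (ω : Finset τ) (P : Half τ → Prop) {N : ℕ}
    (hP : Few g ω P N)
    (hB : ∀ c ∈ loops T g ω, ¬ P (Quot.out c) → ‖lpw (-(Real.pi / 24)) (qph q) g ω c‖ ≤ 1) :
    ‖cw (-(Real.pi / 24)) (qph q) T g (some z) o ω‖ ≤
      Real.sqrt 3 ^ (arcs T g ω (some z) o).card * 2 ^ N := by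
  classical
  have hz1 : ‖zw (-(Real.pi / 24)) (qph q) g ω (some z)‖ = 1 := norm_ue _
  have hBc := loops_few hG hP
  set B := (loops T g ω).filter fun c => P (Quot.out c) with hBdef
  unfold cw
  rw [norm_mul, norm_mul, hz1, mul_one, norm_prod, norm_prod]
  refine mul_le_mul ?_ ?_ (Finset.prod_nonneg fun _ _ => norm_nonneg _) (by positivity)
  · calc ∏ e ∈ arcs T g ω (some z) o, ‖2 * Complex.cos (hol (-(Real.pi / 24)) (qph q) g ω e)‖ ≤
        ∏ e ∈ arcs T g ω (some z) o, Real.sqrt 3 := by
          refine Finset.prod_le_prod (fun _ _ => norm_nonneg _) fun e he => ?_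
          obtain ⟨h1, h2, h3, -⟩ := mem_arcs.1 he
          have := norm_cwt_open (ω := ω) hG hst hq h1 (fun h => h2 (by rw [h]))
            (fun h => h3 (by rw [h]))
          unfold cwt at this
          rw [hol_zh]
          exact this
      _ = _ := by rw [Finset.prod_const]
  · have h2 : ∀ c ∈ loops T g ω, ‖lpw (-(Real.pi / 24)) (qph q) g ω c‖ ≤ if c ∈ B then 2 else 1 := by
      intro c hc
      split_ifs with h
      · unfold lpw
        rw [norm_mul, Complex.norm_ofNat, ← Complex.ofReal_cos, Complex.norm_real, Real.norm_eq_abs]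
        have := Real.abs_cos_le_one (holn (-(Real.pi / 24)) (qph q) g ω
          (minimalPeriod (g ∘ mate ω) (Quot.out c)) (Quot.out c))
        linarith
      · exact hB c hc fun hp => h (Finset.mem_filter.2 ⟨hc, hp⟩)
    refine (Finset.prod_le_prod (fun _ _ => norm_nonneg _) h2).trans ?_
    rw [Finset.prod_ite, Finset.prod_const, Finset.prod_const_one, mul_one]
    refine pow_le_pow_right₀ (by norm_num) ((Finset.card_le_card fun c hc => ?_).trans hBc)
    exact (Finset.mem_filter.1 hc).2

/-- the closed strands do not see the phases of the pairs -/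
lemma lpw_pair (hG : Glu T g) (q : Half τ → ℤ) (pos : Half τ → ℤ) (y y' : Half τ)
    (ω : Finset τ) {c : St (mate ω) g} (hc : c ∈ loops T g ω) :
    lpw (-(Real.pi / 24)) (qph (q + scq g pos y + scq g pos y')) g ω c =
      lpw (-(Real.pi / 24)) (qph q) g ω c := by
  rw [qph_scq, qph_scq, lpw_add hG _ _ _ (fun x hx => sc_end hx) ω hc,
    lpw_add hG _ _ _ (fun x hx => sc_end hx) ω hc]

/-- **the sum over the screening pairs is bounded for every configuration** -/
theorem sum_norm_le (hG : Glu T g) (hst : Straight g) {z : Half τ} {q : Half τ → ℤ}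
    (hq : Natural T g z q) {ω : Finset τ} {pos : Half τ → ℤ} {R : Half τ → Prop} {b : Half τ → ℤ}
    {κ : Type*} {Q : Finset κ} {ins : Half τ → κ → Prop}
    (hL : Law T g (-(Real.pi / 24)) (qph q) (some z) ω pos R b Q ins) {o : Half τ → ι}
    (ho : ∀ x, Bd T g x → ∀ y, Bd T g y → o x = o y → x = y) (I J : Finset (Half τ))
    {j₁ j₂ k₁ k₂ : ℤ} (h1 : k₁ ≤ j₁) (h2 : j₂ ≤ k₂) (h12 : j₁ ≤ j₂)
    (hI : ∀ y ∈ I, Bd T g y ∧ (pos y < k₁ ∨ k₂ < pos y))
    (hJ : ∀ y ∈ J, Bd T g y ∧ j₁ ≤ pos y ∧ pos y ≤ j₂)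
    {P P' : Half τ → Prop} {N N' : ℕ} (hP : Few g ω P N) (hP' : Few g ω P' N')
    (hIR : ∀ y ∈ I, ¬ (R y ∧ ¬ (j₁ ≤ pos (other (mate ω) g y) ∧ pos (other (mate ω) g y) ≤ j₂)) →
      y = other (mate ω) g z ∨ P y)
    (hJR : ∀ y ∈ J, ¬ (R y ∧ k₁ ≤ pos (other (mate ω) g y) ∧ pos (other (mate ω) g y) ≤ k₂) →
      y = other (mate ω) g z ∨ P' y)
    (hB : ∀ c ∈ loops T g ω, ¬ P (Quot.out c) → ‖lpw (-(Real.pi / 24)) (qph q) g ω c‖ ≤ 1) :
    ‖∑ y ∈ I, ∑ y' ∈ J, cw (-(Real.pi / 24)) (qph (q + scq g pos y + scq g pos y')) T g (some z) o ω‖ ≤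
      Real.sqrt 3 ^ (arcs T g ω (some z) o).card * 2 ^ N *
        ((((5 + 2 * Q.card + 2 * N : ℕ)) : ℝ) * (((3 + 2 * Q.card + 2 * N' : ℕ)) : ℝ)) := by
  classical
  have e0 : ∀ y y', cw (-(Real.pi / 24)) (qph (q + scq g pos y + scq g pos y')) T g (some z) o ω =
      W2 (-(Real.pi / 24)) (qph q) T g (some z) o ω pos y y' := by
    intro y y'
    unfold W2
    rw [qph_scq, qph_scq]
  have hM : ∀ y ∈ I, ∀ y' ∈ J, ‖W2 (-(Real.pi / 24)) (qph q) T g (some z) o ω pos y y'‖ ≤
      Real.sqrt 3 ^ (arcs T g ω (some z) o).card * 2 ^ N := by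
    intro y _ y' _
    rw [← e0]
    refine norm_cw_le' hG hst (Natural.add hG (Natural.add hG hq pos y) pos y') o ω P hP
      fun c hc hn => ?_
    rw [lpw_pair hG q pos y y' ω hc]
    exact hB c hc hn
  have main := hL.sum_le hG ho I J h1 h2 h12 (fun y hy => (hI y hy).2) (fun y hy => (hJ y hy).2) hM
    (by positivity)
  have n1 : (I.filter fun y => ¬ (R y ∧ ¬ (j₁ ≤ pos (other (mate ω) g y) ∧
      pos (other (mate ω) g y) ≤ j₂))).card ≤ 1 + 2 * N := by
    set D := I.filter fun y => ¬ (R y ∧ ¬ (j₁ ≤ pos (other (mate ω) g y) ∧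
      pos (other (mate ω) g y) ≤ j₂)) with hD
    have hsub : D ⊆ insert (other (mate ω) g z) (D.filter fun y => P y) := by
      intro y hy
      obtain ⟨hy1, hy2⟩ := Finset.mem_filter.1 hy
      rw [Finset.mem_insert]
      rcases hIR y hy1 hy2 with h | h
      · exact Or.inl h
      · exact Or.inr (Finset.mem_filter.2 ⟨hy, h⟩)
    have h3 : (D.filter fun y => P y).card ≤ 2 * N := hP.ends hG hL.inj _ fun x hx =>
      ⟨(hI x (Finset.mem_filter.1 (Finset.mem_filter.1 hx).1).1).1, (Finset.mem_filter.1 hx).2⟩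
    have h4 := (Finset.card_le_card hsub).trans (Finset.card_insert_le _ _)
    omega
  have n2 : (J.filter fun y => ¬ (R y ∧ k₁ ≤ pos (other (mate ω) g y) ∧
      pos (other (mate ω) g y) ≤ k₂)).card ≤ 1 + 2 * N' := by
    set D := J.filter fun y => ¬ (R y ∧ k₁ ≤ pos (other (mate ω) g y) ∧
      pos (other (mate ω) g y) ≤ k₂) with hD
    have hsub : D ⊆ insert (other (mate ω) g z) (D.filter fun y => P' y) := by
      intro y hy
      obtain ⟨hy1, hy2⟩ := Finset.mem_filter.1 hy
      rw [Finset.mem_insert]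
      rcases hJR y hy1 hy2 with h | h
      · exact Or.inl h
      · exact Or.inr (Finset.mem_filter.2 ⟨hy, h⟩)
    have h3 : (D.filter fun y => P' y).card ≤ 2 * N' := hP'.ends hG hL.inj _ fun x hx =>
      ⟨(hJ x (Finset.mem_filter.1 (Finset.mem_filter.1 hx).1).1).1, (Finset.mem_filter.1 hx).2⟩
    have h4 := (Finset.card_le_card hsub).trans (Finset.card_insert_le _ _)
    omega
  calc ‖∑ y ∈ I, ∑ y' ∈ J, cw (-(Real.pi / 24)) (qph (q + scq g pos y + scq g pos y')) T g (some z) o ω‖
      ≤ ∑ y ∈ I, ∑ y' ∈ J, ‖W2 (-(Real.pi / 24)) (qph q) T g (some z) o ω pos y y'‖ := by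
        refine (norm_sum_le _ _).trans (Finset.sum_le_sum fun y _ => ?_)
        refine (norm_sum_le _ _).trans (Finset.sum_le_sum fun y' _ => ?_)
        rw [e0]
    _ ≤ _ := main
    _ ≤ _ := by
        refine mul_le_mul_of_nonneg_left ?_ (by positivity)
        refine mul_le_mul ?_ ?_ (Nat.cast_nonneg _) (Nat.cast_nonneg _)
        · refine Nat.cast_le.2 ?_
          have := n1
          omega
        · refine Nat.cast_le.2 ?_
          have := n2
          omega

end

end Full.X3.Bad
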