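import Pool.Agent.Full.Bad.Seam
import Pool.Agent.Full.Bad.Gap
import Pool.Agent.Full.Loc1.Err

/-!
# The second moment of the amplitude of the corridor

`Strip.N` bounds the number of the dangerous strands; its exponential moments are bounded by a universal
constant.  An amplitude which is bounded by `C * Q ^ N` has a bounded second moment.
-/

set_option autoImplicit false

namespace Full.Bad
open Finset Function
open Full.Perc (Ex Ex_mono Ex_mul)

variable {τ : Type*} [DecidableEq τ] {T : Finset τ} {g : Half τ → Half τ} {φ : ℤ → ℤ → τ}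
  {c d b t : ℤ}

/-- **the number of the dangerous strands** as classes -/
theorem Strip.count_st (h : Strip T g φ c d b t) (hG : Glu T g) {m : ℕ} (hm : 1 ≤ m)
    (hcd : c + (4 * m + 2) ≤ d) (hw : t - b ≤ m) (ω : Finset τ) (B : Finset (St (mate ω) g))
    (hB : ∀ c' ∈ B, ∃ y, st (mate ω) g y = c' ∧ Danger φ c d b t m g ω y) :
    B.card ≤ h.N hG hcd ω := by
  classical
  rcases B.eq_empty_or_nonempty with h0 | ⟨c0, hc0⟩
  · rw [h0, card_empty]
    exact Nat.zero_le _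
  have : Nonempty (Half τ) := ⟨(hB c0 hc0).choose⟩
  choose! r hr using hB
  have hinj : Set.InjOn r B := by
    intro x hx y hy he
    rw [← (hr x hx).1, ← (hr y hy).1, he]
  rw [← card_image_of_injOn hinj]
  refine h.count hG hm hcd hw ω _ ?_ ?_
  · intro x hx y hy hc
    rw [mem_image] at hx hy
    obtain ⟨x', hx', rfl⟩ := hx
    obtain ⟨y', hy', rfl⟩ := hy
    have := (hG.two ω).st_eq.2 hc
    rw [(hr x' hx').1, (hr y' hy').1] at this
    rw [this]
  · intro y hy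
    rw [mem_image] at hy
    obtain ⟨y', hy', rfl⟩ := hy
    exact (hr y' hy').2

/-- **the number of the ends of the dangerous strands** -/
theorem Strip.count_ends (h : Strip T g φ c d b t) (hG : Glu T g) {m : ℕ} (hm : 1 ≤ m)
    (hcd : c + (4 * m + 2) ≤ d) (hw : t - b ≤ m) (ω : Finset τ) (V : Finset (Half τ))
    (hV : ∀ y ∈ V, Bd T g y ∧ Danger φ c d b t m g ω y) : V.card ≤ 2 * h.N hG hcd ω := by
  classical
  have h1 : V.card ≤ 2 * (V.image (st (mate ω) g)).card := by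
    refine card_le_mul_card_image_of_maps_to (fun x hx => mem_image_of_mem _ hx) 2 fun q hq => ?_
    obtain ⟨x, hx, rfl⟩ := mem_image.1 hq
    refine (card_le_card (t := {x, other (mate ω) g x}) fun y hy => ?_).trans card_le_two
    obtain ⟨hy1, hy2⟩ := mem_filter.1 hy
    rw [mem_insert, mem_singleton]
    exact (hG.conn_iff (hV x hx).1 (hV y hy1).1).1 ((hG.two ω).st_eq.1 hy2.symm)
  refine h1.trans (Nat.mul_le_mul_left 2 (h.count_st hG hm hcd hw ω _ fun q hq => ?_))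
  obtain ⟨x, hx, rfl⟩ := mem_image.1 hq
  exact ⟨x, rfl, (hV x hx).2⟩

/-- **all exponential moments of the number of the dangerous strands** -/
theorem moment_N {Q : ℝ} (hQ : 1 ≤ Q) : ∃ C : ℝ, 1 ≤ C ∧ ∀ (τ : Type) [DecidableEq τ] (T : Finset τ)
    (g : Half τ → Half τ) (φ : ℤ → ℤ → τ) (c d b t : ℤ) (h : Strip T g φ c d b t) (hG : Glu T g)
    (m : ℕ) (_ : 1 ≤ m) (hcd : c + (4 * m + 2) ≤ d), Ex T (fun ω => Q ^ h.N hG hcd ω) ≤ C := by
  obtain ⟨C, hC1, hC⟩ := Full.Macro.moment.{0, 0} hQ 2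
  refine ⟨C, hC1, fun τ _ T g φ c d b t h hG m hm hcd => ?_⟩
  exact hC τ T g m (Fin 2) (h.bxs hG hcd) (by simp) hm

/-- **the second moment** of an amplitude which is bounded by `C₀ * Q ^ N` -/
theorem sq_moment {C₀ Q : ℝ} (hQ : 1 ≤ Q) : ∃ B : ℝ, ∀ (τ : Type) [DecidableEq τ] (T : Finset τ)
    (g : Half τ → Half τ) (φ : ℤ → ℤ → τ) (c d b t : ℤ) (h : Strip T g φ c d b t) (hG : Glu T g)
    (m : ℕ) (_ : 1 ≤ m) (hcd : c + (4 * m + 2) ≤ d) (A : Finset τ → ℂ)
    (_ : ∀ ω ⊆ T, ‖A ω‖ ≤ C₀ * Q ^ h.N hG hcd ω), Ex T (fun ω => ‖A ω‖ ^ 2) ≤ B := by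
  obtain ⟨C, hC1, hC⟩ := moment_N (Q := Q ^ 2) (one_le_pow₀ hQ)
  refine ⟨C₀ ^ 2 * C, fun τ _ T g φ c d b t h hG m hm hcd A hA => ?_⟩
  have h1 := hC τ T g φ c d b t h hG m hm hcd
  refine (Ex_mono (g := fun ω => C₀ ^ 2 * (Q ^ 2) ^ h.N hG hcd ω) fun ω hω => ?_).trans ?_
  · have h2 := pow_le_pow_left₀ (norm_nonneg _) (hA ω hω) 2
    rw [mul_pow, ← pow_mul, mul_comm _ 2, pow_mul] at h2
    exact h2
  · rw [Ex_mul]
    exact mul_le_mul_of_nonneg_left h1 (sq_nonneg _)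

/-- an affine factor is bounded by a power -/
lemma lin_le {x : ℝ} (hx : 1 ≤ x) (N : ℕ) : x + 2 * N ≤ x * 3 ^ N := by
  have h1 : (1 : ℝ) + 2 * N ≤ 3 ^ N := by
    have := one_add_mul_le_pow (a := (2 : ℝ)) (by norm_num) N
    have e : (1 : ℝ) + 2 = 3 := by norm_num
    rw [e] at this
    linarith
  have h2 : (0 : ℝ) ≤ N := Nat.cast_nonneg N
  nlinarith

end Full.Bad
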