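import Pool.Agent.Full.X3.Hol

/-!
# A charge two on the left or on the right of an end is a screening pair around it

Only the phase of the end changes, and `2 cos (h + r) + 2 cos (h - r) = 2 cos h` if `2 cos r = 1`.
-/

set_option autoImplicit false

namespace Full.X3.Bad
open Function Relation Finset

noncomputable section

variable {τ : Type*} [DecidableEq τ] {T : Finset τ} {g : Half τ → Half τ}

/-- the holonomy of an open strand when phases are added at the ends -/
theorem hol_add (hG : Glu T g) (K : ℝ) (φ ψ : Half τ → ℝ) (hψ : ∀ x, g x ≠ x → ψ x = 0)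
    (ω : Finset τ) {e : Half τ} (he : Bd T g e) :
    hol K (φ + ψ) g ω e = hol K φ g ω e + ψ (other (mate ω) g e) - ψ e := by
  have h := hG.two ω
  have hp := hG.periodic ω e
  obtain ⟨hpos, hlast⟩ := h.open_last he.2 hp
  unfold hol holn hstep
  set n := hl (mate ω) g e with hn
  have e1 : ∑ k ∈ range n, (2 * K * tr ω (mate ω ((g ∘ mate ω)^[k] e)) +
      (φ + ψ) (mate ω ((g ∘ mate ω)^[k] e)) - (φ + ψ) ((g ∘ mate ω)^[k] e)) =
      ∑ k ∈ range n, (2 * K * tr ω (mate ω ((g ∘ mate ω)^[k] e)) +
      φ (mate ω ((g ∘ mate ω)^[k] e)) - φ ((g ∘ mate ω)^[k] e)) +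
      ∑ k ∈ range n, ψ (mate ω ((g ∘ mate ω)^[k] e)) - ∑ k ∈ range n, ψ ((g ∘ mate ω)^[k] e) := by
    rw [← Finset.sum_add_distrib, ← Finset.sum_sub_distrib]
    refine Finset.sum_congr rfl fun k _ => ?_
    simp only [Pi.add_apply]
    ring
  rw [e1]
  have e2 : ∑ k ∈ range n, ψ (mate ω ((g ∘ mate ω)^[k] e)) = ψ (other (mate ω) g e) := by
    rw [Finset.sum_eq_single (n - 1)]
    · rw [hlast]
    · intro k hk hk1
      have hk := Finset.mem_range.1 hk
      rcases (open_int hG ω he hk).2 with h1 | h1
      · exact absurd h1.2 (by omega)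
      · exact hψ _ h1
    · intro h1
      exact absurd (Finset.mem_range.2 (by omega)) h1
  have e3 : ∑ k ∈ range n, ψ ((g ∘ mate ω)^[k] e) = ψ e := by
    rw [Finset.sum_eq_single 0]
    · rfl
    · intro k hk hk1
      have hk := Finset.mem_range.1 hk
      rcases (open_int hG ω he hk).1 with h1 | h1
      · exact absurd h1.2 hk1
      · exact hψ _ h1
    · intro h1
      exact absurd (Finset.mem_range.2 hpos) h1
  rw [e2, e3]

/-- the holonomy of a closed strand does not depend on the phases of the ends -/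
theorem holn_add (K : ℝ) (φ ψ : Half τ → ℝ) (hψ : ∀ x, g x ≠ x → ψ x = 0) (ω : Finset τ) (n : ℕ)
    {x : Half τ} (hc : ∀ y, Conn (mate ω) g x y → g y ≠ y) :
    holn K (φ + ψ) g ω n x = holn K φ g ω n x := by
  unfold holn hstep
  refine Finset.sum_congr rfl fun k _ => ?_
  have h1 : Conn (mate ω) g x ((g ∘ mate ω)^[k] x) := Conn.iter k x
  have h2 := h1.trans (Conn.m_step _)
  simp only [Pi.add_apply, hψ _ (hc _ h1), hψ _ (hc _ h2)]
  ring

/-- the factor of a closed strand does not depend on the phases of the ends -/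
theorem lpw_add (hG : Glu T g) (K : ℝ) (φ ψ : Half τ → ℝ) (hψ : ∀ x, g x ≠ x → ψ x = 0)
    (ω : Finset τ) {c : St (mate ω) g} (hc : c ∈ loops T g ω) :
    lpw K (φ + ψ) g ω c = lpw K φ g ω c := by
  classical
  unfold loops at hc
  rw [Finset.mem_filter] at hc
  obtain ⟨hc1, hc2⟩ := hc
  have hout : st (mate ω) g (Quot.out c) = c := Quot.out_eq c
  have h2 := hG.two ω
  have hT : (Quot.out c : Half τ).1 ∈ T := by
    unfold strands at hc1
    rw [Finset.mem_image] at hc1
    obtain ⟨x, hx, hxc⟩ := hc1
    have : Conn (mate ω) g x (Quot.out c) := h2.st_eq.1 (hxc.trans hout.symm)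
    exact hG.conn_mem this (mem_hs.1 hx)
  unfold lpw
  rw [holn_add K φ ψ hψ ω _ fun y hy h3 =>
    hc2 y (mem_ends.2 ⟨hG.conn_mem hy hT, h3⟩) ((Quot.sound hy).symm.trans hout)]

/-- the phase `r` at the end `y` -/
def bump (y : Half τ) (r : ℝ) (x : Half τ) : ℝ := if x = y then r else 0

lemma bump_end {y : Half τ} (hy : g y = y) (r : ℝ) (x : Half τ) (hx : g x ≠ x) :
    bump y r x = 0 := if_neg fun h => hx (by rw [h, hy])

lemma cos_pair {r : ℝ} (hr : 2 * Real.cos r = 1) (h : ℝ) :
    2 * Complex.cos ((h + r : ℝ) : ℂ) + 2 * Complex.cos ((h - r : ℝ) : ℂ) = 2 * Complex.cos h := by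
  have h1 : (2 : ℂ) * Complex.cos r = 1 := by exact_mod_cast congrArg (fun t : ℝ => (t : ℂ)) hr
  push_cast
  rw [Complex.cos_add, Complex.cos_sub]
  linear_combination 2 * Complex.cos h * h1

lemma ue_pair {r : ℝ} (hr : 2 * Real.cos r = 1) (h : ℝ) : ue (h + r) + ue (h - r) = ue h := by
  have h1 : ue r + ue (-r) = 1 := by
    rw [ue_cos]
    exact_mod_cast congrArg (fun t : ℝ => (t : ℂ)) hr
  rw [sub_eq_add_neg, ue_add, ue_add, ← mul_add, h1, mul_one]

variable {ι : Type*} [LinearOrder ι]

/-- **a charge two on the two sides of an end is a screening pair around it** -/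
theorem cw_pair (hG : Glu T g) (K : ℝ) (φ : Half τ → ℝ) (z : Option (Half τ))
    (hz : ∀ x, z = some x → Bd T g x) {o : Half τ → ι}
    (ho : ∀ x, Bd T g x → ∀ y, Bd T g y → o x = o y → x = y) {y : Half τ} (hy : Bd T g y)
    (hyz : z ≠ some y) {r : ℝ} (hr : 2 * Real.cos r = 1) (ω : Finset τ) :
    cw K (φ + bump y r) T g z o ω + cw K (φ + bump y (-r)) T g z o ω = cw K φ T g z o ω := by
  classical
  have hl : ∀ r, ∏ c ∈ loops T g ω, lpw K (φ + bump y r) g ω c = ∏ c ∈ loops T g ω, lpw K φ g ω c :=
    fun r => Finset.prod_congr rfl fun c hc => lpw_add hG K φ _ (bump_end hy.2 r) ω hc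
  have ha : ∀ (r : ℝ) (e : Half τ), Bd T g e → hol K (φ + bump y r) g ω e =
      hol K φ g ω e + bump y r (other (mate ω) g e) - bump y r e := fun r e he =>
    hol_add hG K φ _ (bump_end hy.2 r) ω he
  have hy2 := hG.other_other (ω := ω) hy
  have hyb := hG.other_bd (ω := ω) hy
  have hyn := hG.other_ne (ω := ω) hy
  unfold cw
  rw [hl r, hl (-r)]
  by_cases hc : z = some (other (mate ω) g y)
  · -- `y` is the other end of the strand of `z`
    subst hc
    have e1 : ∀ r, ∏ e ∈ arcs T g ω (some (other (mate ω) g y)) o,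
        2 * Complex.cos (hol K (φ + bump y r) g ω e) =
        ∏ e ∈ arcs T g ω (some (other (mate ω) g y)) o, 2 * Complex.cos (hol K φ g ω e) := by
      intro r
      refine Finset.prod_congr rfl fun e he => ?_
      rw [mem_arcs] at he
      obtain ⟨h1, h2, h3, -⟩ := he
      have h4 : other (mate ω) g e ≠ y := by
        rintro rfl
        rw [hG.other_other h1] at h2
        exact h2 rfl
      have h5 : e ≠ y := by
        rintro rfl
        exact h3 rfl
      rw [ha r e h1]
      unfold bump
      rw [if_neg h4, if_neg h5, add_zero, sub_zero]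
    rw [e1 r, e1 (-r)]
    unfold zw
    simp only
    rw [ha r _ hyb, ha (-r) _ hyb, hy2]
    unfold bump
    rw [if_pos rfl, if_pos rfl, if_neg hyn, if_neg hyn, sub_zero, sub_zero, ← mul_add,
      ← sub_eq_add_neg, ue_pair hr]
  · -- the strand of `y` is an arc
    have hzw : ∀ r, zw K (φ + bump y r) g ω z = zw K φ g ω z := by
      intro r
      cases hzz : z with
      | none => rfl
      | some w =>
        have hw := hz w hzz
        have h4 : other (mate ω) g w ≠ y := by
          rintro rfl
          rw [hG.other_other hw] at hc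
          exact hc hzz
        have h5 : w ≠ y := by
          rintro rfl
          exact hyz hzz
        unfold zw
        simp only
        rw [ha r w hw]
        unfold bump
        rw [if_neg h4, if_neg h5, add_zero, sub_zero]
    rw [hzw r, hzw (-r)]
    -- the arc
    obtain ⟨e0, he0, he0'⟩ : ∃ e0 ∈ arcs T g ω z o, e0 = y ∨ e0 = other (mate ω) g y := by
      rcases lt_trichotomy (o y) (o (other (mate ω) g y)) with h1 | h1 | h1
      · exact ⟨y, mem_arcs.2 ⟨hy, hyz, hc, h1⟩, Or.inl rfl⟩
      · exact absurd (ho _ hy _ hyb h1) hyn.symm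
      · refine ⟨other (mate ω) g y, mem_arcs.2 ⟨hyb, hc, ?_, ?_⟩, Or.inr rfl⟩
        · rw [hy2]; exact hyz
        · rw [hy2]; exact h1
    have hoth : ∀ e ∈ (arcs T g ω z o).erase e0, e ≠ y ∧ other (mate ω) g e ≠ y := by
      intro e he
      rw [Finset.mem_erase, mem_arcs] at he
      rw [mem_arcs] at he0
      obtain ⟨h1, h2, h3, h4, h5⟩ := he
      constructor
      · rintro rfl
        rcases he0' with h6 | h6
        · exact h1 h6.symm
        · obtain ⟨-, -, -, h7⟩ := he0
          rw [h6, hG.other_other hy] at h7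
          exact lt_asymm h5 h7
      · intro h6
        have h6' : e = other (mate ω) g y := by rw [← h6, hG.other_other h2]
        rcases he0' with h7 | h7
        · obtain ⟨-, -, -, h8⟩ := he0
          rw [h7] at h8
          rw [h6] at h5
          rw [h6'] at h5
          exact lt_asymm h5 h8
        · exact h1 (h6'.trans h7.symm)
    have hsplit : ∀ r, ∏ e ∈ arcs T g ω z o, 2 * Complex.cos (hol K (φ + bump y r) g ω e) =
        (2 * Complex.cos (hol K (φ + bump y r) g ω e0)) *
          ∏ e ∈ (arcs T g ω z o).erase e0, 2 * Complex.cos (hol K φ g ω e) := by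
      intro r
      rw [← Finset.mul_prod_erase _ _ he0]
      congr 1
      refine Finset.prod_congr rfl fun e he => ?_
      have h1 := hoth e he
      have h2 : Bd T g e := (mem_arcs.1 (Finset.mem_of_mem_erase he)).1
      rw [ha r e h2]
      unfold bump
      rw [if_neg h1.1, if_neg h1.2, add_zero, sub_zero]
    have hsplit0 : ∏ e ∈ arcs T g ω z o, 2 * Complex.cos (hol K φ g ω e) =
        (2 * Complex.cos (hol K φ g ω e0)) *
          ∏ e ∈ (arcs T g ω z o).erase e0, 2 * Complex.cos (hol K φ g ω e) :=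
      (Finset.mul_prod_erase _ _ he0).symm
    have hb0 : Bd T g e0 := (mem_arcs.1 he0).1
    have key : 2 * Complex.cos (hol K (φ + bump y r) g ω e0) +
        2 * Complex.cos (hol K (φ + bump y (-r)) g ω e0) = 2 * Complex.cos (hol K φ g ω e0) := by
      rw [ha r e0 hb0, ha (-r) e0 hb0]
      unfold bump
      rcases he0' with h1 | h1
      · rw [h1, if_pos rfl, if_pos rfl, if_neg hyn, if_neg hyn, add_zero, sub_neg_eq_add, add_comm,
          ← cos_pair hr (hol K φ g ω y)]
      · rw [h1, hy2, if_pos rfl, if_pos rfl, if_neg hyn, if_neg hyn, sub_zero, sub_zero,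
          ← sub_eq_add_neg, ← cos_pair hr (hol K φ g ω (other (mate ω) g y))]
    rw [hsplit r, hsplit (-r), hsplit0, ← key]
    ring

end

end Full.X3.Bad
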