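import Pool.Agent.Full.Macro.Main

/-!
# Strands which cross one of two boxes of a strip

A strip of a tile surface is a rectangle with walls at its floor and its ceiling.  The strands which meet
both the middle part of a long strip and the outside of the strip cross one of two boxes at the ends of
the strip; hence all exponential moments of their number are bounded by a universal constant.
-/

set_option autoImplicit false
set_option linter.unusedSectionVars false

namespace Full.Bad
open Finset Function
open Full.Perc (Ex Ex_mono Ex_mul)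
open Full.Walk (bx)
open Full.Macro (Box sd)

variable {τ : Type*} {T : Finset τ} {g : Half τ → Half τ} {φ : ℤ → ℤ → τ} {c d b t : ℤ}

/-- a strip `[c, d) × [b, t)` with walls at the floor and at the ceiling -/
structure Strip (T : Finset τ) (g : Half τ → Half τ) (φ : ℤ → ℤ → τ) (c d b t : ℤ) : Prop where
  mem : ∀ i j, c ≤ i → i < d → b ≤ j → j < t → φ i j ∈ T
  inj : ∀ i j i' j', c ≤ i → i < d → b ≤ j → j < t → c ≤ i' → i' < d → b ≤ j' → j' < t →
    φ i j = φ i' j' → i = i' ∧ j = j'
  east : ∀ i j, c ≤ i → i + 1 < d → b ≤ j → j < t → g (φ i j, .E) = (φ (i + 1) j, .W)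
  north : ∀ i j, c ≤ i → i < d → b ≤ j → j + 1 < t → g (φ i j, .N) = (φ i (j + 1), .S)
  floor : ∀ i, c ≤ i → i < d → g (φ i b, .S) = (φ i b, .S)
  ceil : ∀ i, c ≤ i → i < d → g (φ i (t - 1), .N) = (φ i (t - 1), .N)

namespace Strip
variable (h : Strip T g φ c d b t) (hG : Glu T g)
include h hG

lemma west {i j : ℤ} (h1 : c < i) (h2 : i < d) (h3 : b ≤ j) (h4 : j < t) :
    g (φ i j, .W) = (φ (i - 1) j, .E) := by
  have h5 := h.east (i - 1) j (by omega) (by omega) h3 h4
  rw [sub_add_cancel] at h5
  rw [← h5, hG.inv]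

lemma south {i j : ℤ} (h1 : c ≤ i) (h2 : i < d) (h3 : b < j) (h4 : j < t) :
    g (φ i j, .S) = (φ i (j - 1), .N) := by
  have h5 := h.north i (j - 1) h1 h2 (by omega) (by omega)
  rw [sub_add_cancel] at h5
  rw [← h5, hG.inv]

end Strip

/-- the box chart of radius `m` around the column `i0` -/
def Strip.toBox (h : Strip T g φ c d b t) (hG : Glu T g) (i0 : ℤ) (m : ℕ)
    (h1 : c ≤ i0 - (2 * m + 1)) (h2 : i0 + (2 * m + 1) ≤ d) : Box T g m where
  φ i j := φ (i + i0) (j + b)
  Λ i j := bx (2 * m + 1) i j ∧ 0 ≤ j ∧ j < t - b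
  sub _ _ h := h.1
  mem i j hΛ := by
    obtain ⟨⟨a1, a2, a3, a4⟩, a5, a6⟩ := hΛ
    exact h.mem _ _ (by omega) (by omega) (by omega) (by omega)
  inj i j i' j' hΛ hΛ' he := by
    obtain ⟨⟨a1, a2, a3, a4⟩, a5, a6⟩ := hΛ
    obtain ⟨⟨a1', a2', a3', a4'⟩, a5', a6'⟩ := hΛ'
    have := h.inj _ _ _ _ (by omega) (by omega) (by omega) (by omega) (by omega) (by omega)
      (by omega) (by omega) he
    omega
  glue i j dd hΛ hb := by
    obtain ⟨⟨a1, a2, a3, a4⟩, a5, a6⟩ := hΛ
    obtain ⟨b1, b2, b3, b4⟩ := hb
    cases dd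
    · -- N
      simp only [Walk.Dir.dx, Walk.Dir.dy, Walk.Dir.neg, sd] at b1 b2 b3 b4 ⊢
      by_cases hj : j + 1 < t - b
      · right
        refine ⟨⟨⟨by omega, by omega, by omega, by omega⟩, by omega, by omega⟩, ?_⟩
        have := h.north (i + i0) (j + b) (by omega) (by omega) (by omega) (by omega)
        rw [this]
        congr 2 <;> ring
      · left
        have e : j + b = t - 1 := by omega
        rw [e]
        exact h.ceil _ (by omega) (by omega)
    · -- E
      simp only [Walk.Dir.dx, Walk.Dir.dy, Walk.Dir.neg, sd] at b1 b2 b3 b4 ⊢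
      right
      refine ⟨⟨⟨by omega, by omega, by omega, by omega⟩, by omega, by omega⟩, ?_⟩
      have := h.east (i + i0) (j + b) (by omega) (by omega) (by omega) (by omega)
      rw [this]
      congr 2 <;> ring
    · -- S
      simp only [Walk.Dir.dx, Walk.Dir.dy, Walk.Dir.neg, sd] at b1 b2 b3 b4 ⊢
      by_cases hj : 0 < j
      · right
        refine ⟨⟨⟨by omega, by omega, by omega, by omega⟩, by omega, by omega⟩, ?_⟩
        have := h.south hG (i := i + i0) (j := j + b) (by omega) (by omega) (by omega) (by omega)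
        rw [this]
        congr 2 <;> ring
      · left
        have e : j + b = b := by omega
        rw [e]
        exact h.floor _ (by omega) (by omega)
    · -- W
      simp only [Walk.Dir.dx, Walk.Dir.dy, Walk.Dir.neg, sd] at b1 b2 b3 b4 ⊢
      right
      refine ⟨⟨⟨by omega, by omega, by omega, by omega⟩, by omega, by omega⟩, ?_⟩
      have := h.west hG (i := i + i0) (j := j + b) (by omega) (by omega) (by omega) (by omega)
      rw [this]
      congr 2 <;> ring

/-! ### the two boxes -/

variable [DecidableEq τ]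

/-- a tile of the middle part -/
def Mid (φ : ℤ → ℤ → τ) (c d b t : ℤ) (m : ℕ) (x : τ) : Prop :=
  ∃ i j, (c + 3 * m + 1 ≤ i ∧ i < d - 3 * m - 1) ∧ (b ≤ j ∧ j < t) ∧ x = φ i j

/-- a tile outside the strip -/
def Out (φ : ℤ → ℤ → τ) (c d b t : ℤ) (x : τ) : Prop :=
  ∀ i j, c ≤ i → i < d → b ≤ j → j < t → x ≠ φ i j

/-- the strand of `y` meets the middle part and the outside of the strip -/
def Danger (φ : ℤ → ℤ → τ) (c d b t : ℤ) (m : ℕ) (g : Half τ → Half τ) (ω : Finset τ) (y : Half τ) :
    Prop :=
  (∃ u, Conn (mate ω) g y u ∧ Mid φ c d b t m u.1) ∧ ∃ v, Conn (mate ω) g y v ∧ Out φ c d b t v.1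

/-- the two boxes at the ends of the strip -/
def Strip.bxs (h : Strip T g φ c d b t) (hG : Glu T g) {m : ℕ} (hcd : c + (4 * m + 2) ≤ d)
    (a : Fin 2) : Box T g m :=
  h.toBox hG (if a = 0 then c + (2 * m + 1) else d - (2 * m + 1)) m (by split_ifs <;> omega)
    (by split_ifs <;> omega)

/-- the number of the crossings of the two boxes -/
noncomputable def Strip.N (h : Strip T g φ c d b t) (hG : Glu T g) {m : ℕ}
    (hcd : c + (4 * m + 2) ≤ d) (ω : Finset τ) : ℕ := ∑ a, (h.bxs hG hcd a).X ω

/-- a dangerous strand meets one of the inner boxes and is not contained in its chart -/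
theorem Strip.exists_inner (h : Strip T g φ c d b t) (hG : Glu T g) {m : ℕ} (hm : 1 ≤ m)
    (hcd : c + (4 * m + 2) ≤ d) (hw : t - b ≤ m) {ω : Finset τ} {y : Half τ}
    (hy : Danger φ c d b t m g ω y) :
    ∃ w a, Conn (mate ω) g y w ∧ (h.bxs hG hcd a).Inner w ∧ ¬ (h.bxs hG hcd a).Holds ω w := by
  obtain ⟨⟨u, hu, hu'⟩, v, hv, hv'⟩ := hy
  have h2 := hG.two ω
  -- a point of an inner box
  have key : ∀ w, Conn (mate ω) g u w → Mid φ c d b t m w.1 ∨
      ∃ w' a, Conn (mate ω) g u w' ∧ (h.bxs hG hcd a).Inner w' := by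
    intro w hw'
    induction hw' with
    | refl => exact Or.inl hu'
    | @tail x z hx hs ih =>
      rcases ih with ih | ih
      · rcases hs with rfl | rfl
        · exact Or.inl ih
        · obtain ⟨i, j, ⟨a1, a2⟩, ⟨a3, a4⟩, a5⟩ := ih
          have hgx : ∀ i' : ℤ, ∀ e : Full.Dir, (i' = i ∨ i' = i - 1 ∨ i' = i + 1) → ∀ j' : ℤ,
              b ≤ j' → j' < t → g x = (φ i' j', e) → Mid φ c d b t m (g x).1 ∨
              ∃ w' a, Conn (mate ω) g u w' ∧ (h.bxs hG hcd a).Inner w' := by
            intro i' e hi' j' b1 b2 hgx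
            have hc : Conn (mate ω) g u (g x) := hx.trans (Conn.g_step x)
            rcases lt_or_ge i' (c + 3 * m + 1) with b3 | b3
            · right
              refine ⟨g x, 0, hc, i' - (c + (2 * m + 1)), j' - b, ?_, ?_, ?_⟩
              · refine ⟨?_, by omega, by omega⟩
                unfold bx
                omega
              · unfold bx
                omega
              · change (g x).1 = φ (i' - (c + (2 * m + 1)) + (if (0 : Fin 2) = 0 then _ else _))
                  (j' - b + b)
                rw [if_pos rfl, sub_add_cancel, sub_add_cancel, hgx]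
            rcases lt_or_ge i' (d - 3 * m - 1) with b4 | b4
            · left
              exact ⟨i', j', ⟨b3, b4⟩, ⟨b1, b2⟩, by rw [hgx]⟩
            · right
              refine ⟨g x, 1, hc, i' - (d - (2 * m + 1)), j' - b, ?_, ?_, ?_⟩
              · refine ⟨?_, by omega, by omega⟩
                unfold bx
                omega
              · unfold bx
                omega
              · change (g x).1 = φ (i' - (d - (2 * m + 1)) + (if (1 : Fin 2) = 0 then _ else _))
                  (j' - b + b)
                rw [if_neg (by decide), sub_add_cancel, sub_add_cancel, hgx]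
          obtain ⟨x1, e⟩ := x
          simp only at a5
          subst a5
          cases e
          · exact hgx (i + 1) _ (by omega) j a3 a4 (h.east i j (by omega) (by omega) a3 a4)
          · rcases lt_or_ge (j + 1) t with a6 | a6
            · exact hgx i _ (by omega) (j + 1) (by omega) a6
                (h.north i j (by omega) (by omega) a3 a6)
            · have e1 : j = t - 1 := by omega
              subst e1
              exact hgx i _ (by omega) (t - 1) a3 a4 (h.ceil i (by omega) (by omega))
          · exact hgx (i - 1) _ (by omega) j a3 a4 (h.west hG (by omega) (by omega) a3 a4)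
          · rcases lt_or_ge b j with a6 | a6
            · exact hgx i _ (by omega) (j - 1) (by omega) (by omega)
                (h.south hG (by omega) (by omega) a6 a4)
            · have e1 : j = b := by omega
              subst e1
              exact hgx i _ (by omega) j a3 a4 (h.floor i (by omega) (by omega))
      · exact Or.inr ih
  rcases key v ((h2.symm hu).trans hv) with h3 | ⟨w, a, hw1, hw2⟩
  · obtain ⟨i, j, ⟨a1, a2⟩, ⟨a3, a4⟩, a5⟩ := h3
    exact absurd a5 (hv' i j (by omega) (by omega) a3 a4)
  · refine ⟨w, a, hu.trans hw1, hw2, fun hh => ?_⟩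
    obtain ⟨i, j, hΛ, he⟩ := hh v ((h2.symm (hu.trans hw1)).trans hv)
    obtain ⟨⟨b1, b2, b3, b4⟩, b5, b6⟩ := hΛ
    by_cases ha : a = 0
    · subst ha
      refine hv' (i + (c + (2 * m + 1))) (j + b) (by omega) (by omega) (by omega) (by omega) ?_
      rw [he]
      change φ (i + (if (0 : Fin 2) = 0 then _ else _)) (j + b) = _
      rw [if_pos rfl]
    · refine hv' (i + (d - (2 * m + 1))) (j + b) (by omega) (by omega) (by omega) (by omega) ?_
      rw [he]
      change φ (i + (if a = 0 then _ else _)) (j + b) = _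
      rw [if_neg ha]

/-- **the number of the dangerous strands** -/
theorem Strip.count (h : Strip T g φ c d b t) (hG : Glu T g) {m : ℕ} (hm : 1 ≤ m)
    (hcd : c + (4 * m + 2) ≤ d) (hw : t - b ≤ m) (ω : Finset τ) (S : Finset (Half τ))
    (hS : ∀ x ∈ S, ∀ y ∈ S, Conn (mate ω) g x y → x = y)
    (hD : ∀ y ∈ S, Danger φ c d b t m g ω y) : S.card ≤ h.N hG hcd ω := by
  have h1 : ∀ y : Half τ, ∃ w : Half τ, y ∈ S → Conn (mate ω) g y w ∧
      ∃ a, (h.bxs hG hcd a).Inner w ∧ ¬ (h.bxs hG hcd a).Holds ω w := by
    intro y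
    by_cases hy : y ∈ S
    · obtain ⟨w, a, h2, h3, h4⟩ := h.exists_inner hG hm hcd hw (hD y hy)
      exact ⟨w, fun _ => ⟨h2, a, h3, h4⟩⟩
    · exact ⟨y, fun h => absurd h hy⟩
  choose f hf using h1
  have hinj : Set.InjOn f S := by
    intro x hx y hy he
    refine hS x hx y hy ((hf x hx).1.trans ?_)
    rw [he]
    exact (hG.two ω).symm (hf y hy).1
  rw [← card_image_of_injOn hinj]
  refine Full.Macro.macro_count hG hm (h.bxs hG hcd) ω _ ?_ ?_
  · intro x hx y hy hc
    rw [mem_image] at hx hy
    obtain ⟨x', hx', rfl⟩ := hx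
    obtain ⟨y', hy', rfl⟩ := hy
    rw [hS x' hx' y' hy' (((hf x' hx').1.trans hc).trans ((hG.two ω).symm (hf y' hy').1))]
  · intro y hy
    rw [mem_image] at hy
    obtain ⟨y', hy', rfl⟩ := hy
    exact (hf y' hy').2

end Full.Bad
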