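import Pool.Agent.Full.Bad.Chart

/-!
# The strands which join the two sides of a band

A cylinder of `K` rows separates the tiles `A` (above) from the tiles `B` (below).  The number of the
strands which join a boundary half edge above (on a tile of `A` or on the top of the band) to a boundary
half edge below is at most the number of the strands which cross the band.
-/

set_option autoImplicit false

namespace Full.Bad
open Function Finset Full.Walk

variable {τ : Type*} [DecidableEq τ]

/-- the rows `0, ..., K - 1` of the chart `ψ` are a cylinder which separates `A` from `B` -/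
structure Band (T : Finset τ) (g : Half τ → Half τ) (ψ : ℤ → ℤ → τ) (L K : ℕ) (A B : τ → Prop) :
    Prop where
  cyl : CylF L K T ψ
  valid : Valid g ψ (strip 0 K)
  top : ∀ i : ℤ, A (g (ψ i (K - 1), .N)).1 ∨ g (ψ i (K - 1), .N) = (ψ i (K - 1), .N)
  inA : ∀ x : Half τ, A x.1 → A (g x).1 ∨ ∃ i : ℤ, g x = (ψ i (K - 1), .N)
  notB : ∀ t, A t → ¬ B t
  band : ∀ i j : ℤ, 0 ≤ j → j < K → ¬ A (ψ i j) ∧ ¬ B (ψ i j)

/-- the half edges above the band: on a tile of `A`, or the upper side of a tile of the last row -/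
def Above (ψ : ℤ → ℤ → τ) (K : ℕ) (A : τ → Prop) (x : Half τ) : Prop :=
  A x.1 ∨ ∃ i : ℤ, x = (ψ i (K - 1), .N)

/-- the half edges below the band: on a tile of `B`, or the lower side of a tile of the first row -/
def Below (ψ : ℤ → ℤ → τ) (B : τ → Prop) (x : Half τ) : Prop :=
  B x.1 ∨ ∃ i : ℤ, x = (ψ i 0, .S)

variable {T : Finset τ} {g : Half τ → Half τ} {ψ : ℤ → ℤ → τ} {L K : ℕ} {A B : τ → Prop}
  {ω : Finset τ}

lemma Band.not_both (h : Band T g ψ L K A B) (hK : 1 ≤ K) {x : Half τ} (h1 : Above ψ K A x)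
    (h2 : Below ψ B x) : False := by
  rcases h1 with h1 | ⟨i, rfl⟩ <;> rcases h2 with h2 | ⟨j, h2⟩
  · exact h.notB _ h1 h2
  · rw [h2] at h1
    exact (h.band j 0 le_rfl (by omega)).1 h1
  · exact (h.band i ((K : ℤ) - 1) (by omega) (by omega)).2 h2
  · have h3 : Full.Dir.N = Full.Dir.S := congrArg Prod.snd h2
    exact absurd h3 (by decide)

/-- the walker of a strand from above to below crosses the band -/
theorem Band.cross (h : Band T g ψ L K A B) (hK : 1 ≤ K) (hG : Glu T g) {x : Half τ}
    (hx : Bd T g x) (hA : Above ψ K A x) (hB : Below ψ B (other (mate ω) g x)) :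
    ∃ i : ℤ, Thr (cbits ψ ω) 0 K i ∧ Conn (mate ω) g x (ψ i 0, .S) := by
  classical
  set b := cbits ψ ω with hb
  set H : ℕ := minimalPeriod (g ∘ mate ω) x / 2 with hH
  set X : ℕ → Half τ := fun k => (g ∘ mate ω)^[k] x with hX
  have hXs : ∀ k, X (k + 1) = g (mate ω (X k)) := fun k => iterate_succ_apply' _ _ _
  have hXH : X H = other (mate ω) g x := rfl
  -- the last visit above
  obtain ⟨k1, hk1, hk1A, hmax⟩ : ∃ k, k ≤ H ∧ Above ψ K A (X k) ∧
      ∀ l, k < l → l ≤ H → ¬ Above ψ K A (X l) := by
    refine ⟨Nat.findGreatest (fun k => Above ψ K A (X k)) H, Nat.findGreatest_le _, ?_, ?_⟩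
    · exact Nat.findGreatest_spec (P := fun k => Above ψ K A (X k)) (Nat.zero_le _) hA
    · intro l hl hlH
      exact Nat.findGreatest_is_greatest hl hlH
  have hk1H : k1 < H := by
    rcases hk1.lt_or_eq with h1 | h1
    · exact h1
    · rw [h1, hXH] at hk1A
      exact (h.not_both hK hk1A hB).elim
  obtain ⟨i0, hi0⟩ : ∃ i : ℤ, X k1 = (ψ i (K - 1), .N) := by
    rcases hk1A with h1 | h1
    · exfalso
      have h2 := h.inA (mate ω (X k1)) h1
      rw [← hXs] at h2
      exact hmax (k1 + 1) (by omega) (by omega) h2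
    · exact h1
  set s0 : Walk.St := ⟨i0, K - 1, .S⟩ with hs0
  have hi0' : X k1 = hf ψ s0 := hi0
  have hit : ∀ n, (∀ m ≤ n, strip 0 K (pos b s0 m).i (pos b s0 m).j) →
      X (k1 + n) = hf ψ (pos b s0 n) := by
    intro n hn
    have h1 := h.valid.iter (ω := ω) (s := s0) hn
    rw [← hi0'] at h1
    rw [← h1, hX]
    simp only
    rw [← iterate_add_apply, add_comm]
  -- the walker leaves the band
  have hleave : ∃ n, ¬ strip 0 K (pos b s0 n).i (pos b s0 n).j ∧ k1 + n ≤ H := by
    by_contra hcon
    push Not at hcon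
    have h1 : ∀ m ≤ H - k1, strip 0 K (pos b s0 m).i (pos b s0 m).j := by
      intro m hm
      by_contra h2
      have := hcon m h2
      omega
    obtain ⟨m, hm⟩ := Nat.exists_eq_succ_of_ne_zero (show H - k1 ≠ 0 by omega)
    have hm' : H - k1 = m + 1 := hm
    have h2 := hit _ h1
    have h3 := hit m (fun l hl => h1 l (by omega))
    have h4 : mate ω (X (k1 + m)) = g (X (k1 + (H - k1))) := by
      rw [hm', ← add_assoc, hXs, hG.inv]
    have h5 : g (X (k1 + (H - k1))) = X (k1 + (H - k1)) := by
      rw [show k1 + (H - k1) = H by omega, hXH]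
      exact (hG.other_bd hx).2
    rw [h5, h2, h3, mate_hf, ← step_d', hm', pos_succ] at h4
    have h6 := congrArg Prod.snd h4
    exact Full.Dir.opp_ne _ h6.symm
  have hleave' : ∃ n, ¬ strip 0 K (pos b s0 n).i (pos b s0 n).j := hleave.imp fun _ => And.left
  set n := Nat.find hleave' with hn
  have hn1 : ¬ strip 0 K (pos b s0 n).i (pos b s0 n).j := Nat.find_spec hleave'
  have hn2 : ∀ m < n, strip 0 K (pos b s0 m).i (pos b s0 m).j := fun m hm =>
    not_not.1 (Nat.find_min hleave' hm)
  have hn3 : k1 + n ≤ H := by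
    obtain ⟨n', h1, h2⟩ := hleave
    have := Nat.find_min' hleave' h1
    omega
  have hn0 : n ≠ 0 := by
    intro h0
    rw [h0] at hn1
    apply hn1
    show strip 0 K i0 ((K : ℤ) - 1)
    unfold strip
    omega
  obtain ⟨m, hm⟩ := Nat.exists_eq_succ_of_ne_zero hn0
  have hm' : n = m + 1 := hm
  have e1 : X (k1 + m) = hf ψ (pos b s0 m) := hit m (fun l hl => hn2 l (by omega))
  have e2 : X (k1 + n) = g (mate ω (hf ψ (pos b s0 m))) := by
    rw [hm', ← add_assoc, hXs, e1]
  have e3 : pos b s0 n = step b (pos b s0 m) := by rw [hm', pos_succ]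
  have e4 := hn2 m (by omega)
  have e5 : (pos b s0 n).j = (pos b s0 m).j + (pos b s0 n).d.dy := by rw [e3]; exact step_j _
  have e6 : mate ω (hf ψ (pos b s0 m)) = (ψ (pos b s0 m).i (pos b s0 m).j, Full.Bad.out (pos b s0 n).d) := by
    rw [mate_hf, e3]
    rfl
  unfold strip at hn1 e4
  rcases dy_cases (pos b s0 n).d with h1 | ⟨h1, h2⟩ | ⟨h1, h2⟩
  · exfalso
    omega
  · -- it leaves through the top: impossible
    exfalso
    have e7 : (pos b s0 m).j = K - 1 := by omega
    rw [e6, h1, e7] at e2
    refine hmax _ (by omega) hn3 ?_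
    rw [e2]
    rcases h.top (pos b s0 m).i with h3 | h3
    · exact Or.inl h3
    · exact Or.inr ⟨_, h3⟩
  · -- it leaves through the floor
    have e7 : (pos b s0 m).j = 0 := by omega
    have e8 : (pos b s0 n).j = -1 := by omega
    refine ⟨(pos b s0 n).i, ?_, ?_⟩
    · have h3 : rev (pos b s0 n) = ⟨(pos b s0 n).i, 0, .N⟩ := by
        unfold rev
        rw [h1, e8]
        simp [Walk.Dir.dx, Walk.Dir.dy, Walk.Dir.neg]
      have hrev : ∀ l ≤ n, pos b ⟨(pos b s0 n).i, 0, .N⟩ l = rev (pos b s0 (n - l)) := by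
        intro l hl
        rw [← h3]
        exact pos_rev b s0 hl
      refine ⟨rev s0, ⟨n, ?_, ?_, ?_⟩, ?_⟩
      · intro l hl
        rw [hrev l hl.le]
        obtain ⟨p, hp⟩ := Nat.exists_eq_succ_of_ne_zero (show n - l ≠ 0 by omega)
        have hp' : n - l = p + 1 := hp
        rw [hp', pos_succ]
        have h4 := rev_step_tile (b := b) (pos b s0 p)
        rw [h4.1, h4.2]
        exact hn2 p (by omega)
      · rw [hrev n le_rfl, Nat.sub_self]
        show ¬ strip 0 K (rev s0).i (rev s0).j
        unfold strip rev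
        simp [hs0, Walk.Dir.dy]
      · rw [hrev n le_rfl, Nat.sub_self]
        rfl
      · unfold rev
        simp [hs0, Walk.Dir.dy]
    · have h3 : Conn (mate ω) g x (X (k1 + m)) := Conn.iter _ _
      have h4 : mate ω (X (k1 + m)) = (ψ (pos b s0 n).i 0, .S) := by
        rw [e1, e6, h1, e7]
        have h5 : (pos b s0 n).i = (pos b s0 m).i := by
          have h6 : (pos b s0 n).i = (pos b s0 m).i + (pos b s0 n).d.dx := by
            rw [e3]; exact step_i _
          rw [h6, h1]
          show (pos b s0 m).i + 0 = _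
          rw [add_zero]
        rw [h5]
        rfl
      rw [← h4]
      exact h3.trans (Conn.m_step _)

/-- **the number of the strands from above to below is at most the number of the strands which cross
the band** -/
theorem Band.card_le (h : Band T g ψ L K A B) (hK : 1 ≤ K) (hL : 1 ≤ L) (hG : Glu T g)
    (E : Finset (Half τ))
    (hE : ∀ x ∈ E, Bd T g x ∧ Above ψ K A x ∧ Below ψ B (other (mate ω) g x)) :
    E.card ≤ tcount (cbits ψ ω) L 0 K := by
  classical
  have h1 : ∀ x ∈ E, ∃ i : ℤ, Thr (cbits ψ ω) 0 K i ∧ Conn (mate ω) g x (ψ i 0, .S) :=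
    fun x hx => h.cross hK hG (hE x hx).1 (hE x hx).2.1 (hE x hx).2.2
  choose! i h2 h3 using h1
  have hL' : (0 : ℤ) < L := by exact_mod_cast hL
  have hb : ∀ p q, cbits ψ ω (p + L) q = cbits ψ ω p q := fun p q => by
    unfold cbits
    rw [h.cyl.per]
  have hper : ∀ (k p q : ℤ), ψ (p + k * L) q = ψ p q := fun k p q =>
    (show Function.Periodic (fun p => ψ p q) (L : ℤ) from fun p => h.cyl.per p q).int_mul k p
  unfold tcount
  apply card_le_card_of_injOn (fun x => (i x % L).toNat)
  · intro x hx
    have e1 := Int.emod_nonneg (i x) hL'.ne'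
    have e2 := Int.emod_lt_of_pos (i x) hL'
    rw [mem_coe, mem_filter, mem_range]
    refine ⟨by show (i x % L).toNat < L; omega, ?_⟩
    have e3 : (((i x % L).toNat : ℕ) : ℤ) = i x + (-(i x / L)) * L := by
      rw [Int.toNat_of_nonneg e1, Int.emod_def]
      ring
    rw [e3]
    exact (h2 x hx).shift (per_mul hb _)
  · intro x hx y hy hxy
    rw [mem_coe] at hx hy
    have e1 := Int.emod_nonneg (i x) hL'.ne'
    have e2 := Int.emod_nonneg (i y) hL'.ne'
    have e3 : i x % L = i y % L := by
      have h : (i x % L).toNat = (i y % L).toNat := hxy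
      omega
    have e4 : i x = i y + (i x / L - i y / L) * L := by
      rw [Int.emod_def, Int.emod_def] at e3
      linarith
    have e5 : ψ (i x) 0 = ψ (i y) 0 := by rw [e4, hper]
    have h4 : Conn (mate ω) g x y := by
      have h5 := h3 x hx
      rw [e5] at h5
      exact h5.trans ((hG.two ω).symm (h3 y hy))
    rcases (hG.conn_iff (hE x hx).1 (hE y hy).1).1 h4 with h5 | h5
    · exact h5.symm
    · exfalso
      have h6 := (hE x hx).2.2
      rw [← h5] at h6
      exact h.not_both hK (hE y hy).2.1 h6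

end Full.Bad
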