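import Pool.Agent.Full.Def.Geo
import Pool.Agent.Full.Bad.Through

/-!
# The two bands of the annulus of a row

The rows of the upper sheet above `z` and the rows of the lower sheet below `z` are bands which separate
the upper part `U` from the lower part `L`.
-/

set_option autoImplicit false

namespace Full.Bad
open Function Finset Full.Walk

variable {D : Slab} {x y : ℤ}

/-- the chart of the rows of the upper sheet -/
def psiU (D : Slab) (y : ℤ) (i j : ℤ) : ZT := Sum.inr (D.l + i % (D.r - D.l), y + j)

/-- the chart of the rows of the lower sheet -/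
def psiL (D : Slab) (i j : ℤ) : ZT := Sum.inl (D.l + i % (D.r + 1 - D.l), D.b + j)

/-- the tiles of the upper part -/
def AU (D : Slab) (t : ZT) : Prop := ∃ p, t = Sum.inr p ∧ p ∈ D.U

/-- the tiles of the lower sheet -/
def BL (t : ZT) : Prop := ∃ p : ℤ × ℤ, t = Sum.inl p

/-- the tiles of the upper sheet -/
def AR (t : ZT) : Prop := ∃ p : ℤ × ℤ, t = Sum.inr p

/-- the tiles of the lower part -/
def BB (D : Slab) (t : ZT) : Prop := ∃ p, t = Sum.inl p ∧ p ∈ D.L

lemma emod_step {N i : ℤ} (hN : 0 < N) : (i + 1) % N = i % N + 1 ∨ ((i + 1) % N = 0 ∧ i % N = N - 1) := by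
  have h1 := Int.emod_nonneg i hN.ne'
  have h2 := Int.emod_lt_of_pos i hN
  have h3 := Int.emod_add_mul_ediv i N
  rcases (show i % N + 1 < N ∨ i % N = N - 1 by omega) with h4 | h4
  · left
    have h5 : i + 1 = (i % N + 1) + N * (i / N) := by linarith
    rw [h5, Int.add_mul_emod_self_left, Int.emod_eq_of_lt (by omega) h4]
  · right
    refine ⟨?_, h4⟩
    have h5 : i + 1 = 0 + N * (i / N + 1) := by
      have : N * (i / N + 1) = N * (i / N) + N := by ring
      rw [this]
      linarith
    rw [h5, Int.add_mul_emod_self_left, Int.zero_emod]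

/-- the gluing of the annulus in the direction `d` -/
lemma gc_eq {t t' : ZT} {d : Full.Dir} (h : t' ∈ (zsurf D.l D.r x y D.b D.t).nb d t)
    (ht : t ∈ D.T y) (ht' : t' ∈ D.T y) : D.gc x y (t, d) = (t', d.opp) :=
  Surf.glue_of_mem h ht ht'

lemma gc_cases (p : Half ZT) : D.gc x y p = p ∨
    ∃ t', t' ∈ (zsurf D.l D.r x y D.b D.t).nb p.2 p.1 ∧ p.1 ∈ D.T y ∧ t' ∈ D.T y ∧
      D.gc x y p = (t', p.2.opp) := Surf.glue_cases p

lemma eq_of_mul {a N i i' : ℤ} (h : a + i % N = a + i' % N) :
    ∃ k : ℤ, i' = i + k * N := by
  refine ⟨i' / N - i / N, ?_⟩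
  have h1 := Int.emod_add_mul_ediv i N
  have h2 := Int.emod_add_mul_ediv i' N
  have h3 : i % N = i' % N := by linarith
  have h4 : (i' / N - i / N) * N = N * (i' / N) - N * (i / N) := by ring
  rw [h4]
  linarith

theorem bandU (hb : D.b ≤ y) (ht : y < D.t) (hx : D.l ≤ x) (hx' : x ≤ D.r) :
    Band (D.T y) (D.gc x y) (psiU D y) (D.r - D.l).toNat (D.t - y).toNat (AU D) BL := by
  have hN : 0 < D.r - D.l := by have := D.hlr; omega
  have hNt : (((D.r - D.l).toNat : ℕ) : ℤ) = D.r - D.l := Int.toNat_of_nonneg hN.le
  have hKt : (((D.t - y).toNat : ℕ) : ℤ) = D.t - y := Int.toNat_of_nonneg (by omega)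
  have hm : ∀ i : ℤ, 0 ≤ i % (D.r - D.l) ∧ i % (D.r - D.l) < D.r - D.l := fun i =>
    ⟨Int.emod_nonneg _ hN.ne', Int.emod_lt_of_pos _ hN⟩
  have hmem : ∀ i j : ℤ, 0 ≤ j → j < D.t - y → psiU D y i j ∈ D.T y := by
    intro i j h1 h2
    unfold psiU
    rw [Slab.mem_up]
    right
    have := hm i
    omega
  refine ⟨⟨?_, ?_, ?_⟩, ?_, ?_, ?_, ?_, ?_⟩
  · intro i j h1 h2
    rw [hKt] at h2
    exact hmem i j h1 h2
  · intro i j
    unfold psiU
    rw [hNt, Int.add_emod_right]
  · intro i j i' j' h1 h2 h3 h4 h
    unfold psiU at h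
    have h5 := Prod.mk.inj (Sum.inr.inj h)
    rw [hNt]
    exact ⟨by omega, eq_of_mul h5.1⟩
  · intro i j d h1 h2
    unfold strip at h1 h2
    rw [hKt] at h1 h2
    have hi := hm i
    have hi1 := hm (i - 1)
    cases d
    · -- N
      simp only [Walk.Dir.dx, Walk.Dir.dy, add_zero, out] at h2 ⊢
      refine gc_eq ?_ (hmem i j (by omega) (by omega)) (hmem i (j + 1) (by omega) (by omega))
      unfold psiU
      rw [zs_N_up (by omega), Option.mem_def, add_assoc]
    · -- E
      simp only [Walk.Dir.dx, Walk.Dir.dy, add_zero, out] at h2 ⊢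
      refine gc_eq ?_ (hmem i j (by omega) (by omega)) (hmem (i + 1) j (by omega) (by omega))
      unfold psiU
      rcases emod_step (i := i) hN with h3 | ⟨h3, h4⟩
      · rw [zs_E_up (by have := hm (i + 1); omega) (by omega), Option.mem_def, h3, add_assoc]
      · rw [h4, h3, show D.l + (D.r - D.l - 1) = D.r - 1 by ring, zs_E_up_end (by omega),
          Option.mem_def, add_zero]
    · -- S
      simp only [Walk.Dir.dx, Walk.Dir.dy, add_zero, out] at h2 ⊢
      refine gc_eq ?_ (hmem i j (by omega) (by omega)) (hmem i (j + -1) (by omega) (by omega))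
      unfold psiU
      rw [zs_S_up (by omega), Option.mem_def]
      congr 3
      ring
    · -- W
      simp only [Walk.Dir.dx, Walk.Dir.dy, add_zero, out] at h2 ⊢
      refine gc_eq ?_ (hmem i j (by omega) (by omega)) (hmem (i + -1) j (by omega) (by omega))
      rw [Surf.mem_nb]
      show psiU D y i j ∈ (zsurf D.l D.r x y D.b D.t).nb .E (psiU D y (i + -1) j)
      unfold psiU
      rcases emod_step (i := i + -1) hN with h3 | ⟨h3, h4⟩
      · rw [neg_add_cancel_right] at h3
        rw [zs_E_up (by omega) (by have := hm (i + -1); omega), Option.mem_def, h3, add_assoc]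
      · rw [neg_add_cancel_right] at h3
        rw [h4, h3, show D.l + (D.r - D.l - 1) = D.r - 1 by ring, zs_E_up_end (by omega),
          Option.mem_def, add_zero]
  · intro i
    rw [hKt]
    rcases gc_cases (x := x) (y := y) (D := D) (psiU D y i (D.t - y - 1), .N) with h | ⟨t', h1, h2, h3, h4⟩
    · exact Or.inr h
    · left
      rw [h4]
      unfold psiU at h1
      rw [zs_N_up (by omega), Option.mem_def, Option.some.injEq] at h1
      have h5 := hm i
      rw [← h1, Slab.mem_up] at h3
      rcases h3 with h3 | h3
      · exact ⟨_, h1.symm, h3⟩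
      · omega
  · rintro ⟨t, d⟩ ⟨⟨i, j⟩, h1, h2⟩
    simp only at h1
    subst h1
    rw [hKt]
    rcases gc_cases (x := x) (y := y) (D := D) (Sum.inr (i, j), d) with h | ⟨t', h3, h4, h5, h6⟩
    · left
      rw [h]
      exact ⟨_, rfl, h2⟩
    · rw [h6]
      have hU := D.hU i j
      have key : ∀ i' j', t' = Sum.inr (i', j') → (∀ q : ZT × Full.Dir, q.1 = t' → (i', j') ∉ D.U → ¬ ((D.l ≤ i' ∧ i' < D.r) ∧ y ≤ j' ∧ j' < D.t) → False) := by
        intro i' j' e q hq h7 h8
        rw [e, Slab.mem_up] at h5
        rcases h5 with h5 | h5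
        · exact h7 h5
        · exact h8 h5
      cases d
      · -- E
        left
        by_cases c1 : y ≤ j ∧ j < D.t
        · rcases (show i = D.r - 1 ∨ i = D.l - 1 ∨ (i ≠ D.r - 1 ∧ i ≠ D.l - 1) by omega) with c2 | c2 | c2
          · exact absurd h2 (hU (by have := D.hlr; omega) (by omega) (by omega) (by omega))
          · exact absurd h2 (hU (by omega) (by have := D.hlr; omega) (by omega) (by omega))
          · rw [zs_E_up c2.1 c2.2, Option.mem_def, Option.some.injEq] at h3
            by_cases c3 : (i + 1, j) ∈ D.U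
            · exact ⟨_, h3.symm, c3⟩
            · exfalso
              refine key _ _ h3.symm (t', .E) rfl c3 ?_
              intro c4
              exact hU (by omega) (by omega) (by omega) (by omega) h2
        · rw [zs_E_up_open c1, Option.mem_def, Option.some.injEq] at h3
          by_cases c3 : (i + 1, j) ∈ D.U
          · exact ⟨_, h3.symm, c3⟩
          · exact (key _ _ h3.symm (t', .E) rfl c3 (by omega)).elim
      · -- N
        left
        by_cases c1 : j = y - 1 ∧ D.l ≤ i ∧ i < D.r
        · exact absurd h2 (hU (by omega) (by omega) (by omega) (by omega))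
        · rw [zs_N_up c1, Option.mem_def, Option.some.injEq] at h3
          by_cases c3 : (i, j + 1) ∈ D.U
          · exact ⟨_, h3.symm, c3⟩
          · exfalso
            refine key _ _ h3.symm (t', .E) rfl c3 ?_
            intro c4
            exact hU (by omega) (by omega) (by omega) (by omega) h2
      · -- W
        left
        rw [Surf.mem_nb] at h3
        rcases t' with ⟨i', j'⟩ | ⟨i', j'⟩
        · exfalso
          change Sum.inr (i, j) ∈ (zsurf D.l D.r x y D.b D.t).nb .E (Sum.inl (i', j')) at h3
          by_cases c1 : D.b ≤ j' ∧ j' < y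
          · rcases (show i' = D.r ∨ i' = D.l - 1 ∨ (i' ≠ D.r ∧ i' ≠ D.l - 1) by omega) with c2 | c2 | c2
            · rw [c2, zs_E_low_end c1] at h3; simp at h3
            · change (if D.b ≤ j' ∧ j' < y then (if i' = D.r then some (Sum.inl (D.l, j')) else
                if i' = D.l - 1 then none else some (Sum.inl (i' + 1, j'))) else
                  some (Sum.inl (i' + 1, j'))) = some (Sum.inr (i, j)) at h3
              rw [if_pos c1, if_neg (by have := D.hlr; omega), if_pos c2] at h3
              simp at h3
            · rw [zs_E_low c2.1 c2.2] at h3; simp at h3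
          · rw [zs_E_low_open c1] at h3; simp at h3
        · change Sum.inr (i, j) ∈ (zsurf D.l D.r x y D.b D.t).nb .E (Sum.inr (i', j')) at h3
          by_cases c1 : y ≤ j' ∧ j' < D.t
          · rcases (show i' = D.r - 1 ∨ i' = D.l - 1 ∨ (i' ≠ D.r - 1 ∧ i' ≠ D.l - 1) by omega) with c2 | c2 | c2
            · rw [c2, zs_E_up_end c1, Option.mem_def, Option.some.injEq] at h3
              have h7 := Prod.mk.inj (Sum.inr.inj h3)
              exact absurd h2 (hU (by omega) (by have := D.hlr; omega) (by omega) (by omega))
            · change (if y ≤ j' ∧ j' < D.t then (if i' = D.r - 1 then some (Sum.inr (D.l, j')) else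
                if i' = D.l - 1 then none else some (Sum.inr (i' + 1, j'))) else
                  some (Sum.inr (i' + 1, j'))) = some (Sum.inr (i, j)) at h3
              rw [if_pos c1, if_neg (by have := D.hlr; omega), if_pos c2] at h3
              simp at h3
            · rw [zs_E_up c2.1 c2.2, Option.mem_def, Option.some.injEq] at h3
              have h7 := Prod.mk.inj (Sum.inr.inj h3)
              by_cases c3 : (i', j') ∈ D.U
              · exact ⟨_, rfl, c3⟩
              · exfalso
                refine key _ _ rfl (Sum.inr (i', j'), .E) rfl c3 ?_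
                intro c4
                exact hU (by omega) (by omega) (by omega) (by omega) h2
          · rw [zs_E_up_open c1, Option.mem_def, Option.some.injEq] at h3
            by_cases c3 : (i', j') ∈ D.U
            · exact ⟨_, rfl, c3⟩
            · exact (key _ _ rfl (Sum.inr (i', j'), .E) rfl c3 (by omega)).elim
      · -- S
        by_cases c1 : j = y ∧ D.l ≤ i ∧ i < D.r
        · exact absurd h2 (hU (by omega) (by omega) (by omega) (by omega))
        · rw [zs_S_up c1, Option.mem_def, Option.some.injEq] at h3
          by_cases c3 : (i, j - 1) ∈ D.U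
          · left
            exact ⟨_, h3.symm, c3⟩
          · right
            rw [← h3, Slab.mem_up] at h5
            rcases h5 with h5 | h5
            · exact absurd h5 c3
            · have c4 : j = D.t := by
                by_contra c5
                exact hU (by omega) (by omega) (by omega) (by omega) h2
              refine ⟨i - D.l, ?_⟩
              unfold psiU
              rw [Int.emod_eq_of_lt (by omega) (by omega), ← h3]
              refine Prod.ext (congrArg Sum.inr (Prod.ext ?_ ?_)) rfl
              · show i = D.l + (i - D.l)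
                ring
              · show j - 1 = y + (D.t - y - 1)
                omega
  · rintro t ⟨p, rfl, -⟩ ⟨q, hq⟩
    exact absurd hq (by simp)
  · intro i j h1 h2
    rw [hKt] at h2
    have := hm i
    constructor
    · rintro ⟨⟨i', j'⟩, h3, h4⟩
      unfold psiU at h3
      have h5 := Prod.mk.inj (Sum.inr.inj h3)
      rw [← h5.1, ← h5.2] at h4
      exact D.hU _ _ (by omega) (by omega) (by omega) (by omega) h4
    · rintro ⟨q, hq⟩
      unfold psiU at hq
      exact absurd hq (by simp)

theorem bandL (hb : D.b < y) (hx : D.l ≤ x) (hx' : x ≤ D.r) (ht : y ≤ D.t) :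
    Band (D.T y) (D.gc x y) (psiL D) (D.r + 1 - D.l).toNat (y - D.b).toNat AR (BB D) := by
  have hN : 0 < D.r + 1 - D.l := by have := D.hlr; omega
  have hNt : (((D.r + 1 - D.l).toNat : ℕ) : ℤ) = D.r + 1 - D.l := Int.toNat_of_nonneg hN.le
  have hKt : (((y - D.b).toNat : ℕ) : ℤ) = y - D.b := Int.toNat_of_nonneg (by omega)
  have hm : ∀ i : ℤ, 0 ≤ i % (D.r + 1 - D.l) ∧ i % (D.r + 1 - D.l) < D.r + 1 - D.l := fun i =>
    ⟨Int.emod_nonneg _ hN.ne', Int.emod_lt_of_pos _ hN⟩
  have hmem : ∀ i j : ℤ, 0 ≤ j → j < y - D.b → psiL D i j ∈ D.T y := by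
    intro i j h1 h2
    unfold psiL
    rw [Slab.mem_low]
    right
    have := hm i
    omega
  refine ⟨⟨?_, ?_, ?_⟩, ?_, ?_, ?_, ?_, ?_⟩
  · intro i j h1 h2
    rw [hKt] at h2
    exact hmem i j h1 h2
  · intro i j
    unfold psiL
    rw [hNt, Int.add_emod_right]
  · intro i j i' j' h1 h2 h3 h4 h
    unfold psiL at h
    have h5 := Prod.mk.inj (Sum.inl.inj h)
    rw [hNt]
    exact ⟨by omega, eq_of_mul h5.1⟩
  · intro i j d h1 h2
    unfold strip at h1 h2
    rw [hKt] at h1 h2
    have hi := hm i
    cases d
    · -- N
      simp only [Walk.Dir.dx, Walk.Dir.dy, add_zero, out] at h2 ⊢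
      refine gc_eq ?_ (hmem i j (by omega) (by omega)) (hmem i (j + 1) (by omega) (by omega))
      unfold psiL
      rw [zs_N_low (by omega), Option.mem_def, add_assoc]
    · -- E
      simp only [Walk.Dir.dx, Walk.Dir.dy, add_zero, out] at h2 ⊢
      refine gc_eq ?_ (hmem i j (by omega) (by omega)) (hmem (i + 1) j (by omega) (by omega))
      unfold psiL
      rcases emod_step (i := i) hN with h3 | ⟨h3, h4⟩
      · rw [zs_E_low (by have := hm (i + 1); omega) (by omega), Option.mem_def, h3, add_assoc]
      · rw [h4, h3, show D.l + (D.r + 1 - D.l - 1) = D.r by ring, zs_E_low_end (by omega),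
          Option.mem_def, add_zero]
    · -- S
      simp only [Walk.Dir.dx, Walk.Dir.dy, add_zero, out] at h2 ⊢
      refine gc_eq ?_ (hmem i j (by omega) (by omega)) (hmem i (j + -1) (by omega) (by omega))
      unfold psiL
      rw [zs_S_low (by omega), Option.mem_def]
      congr 3
      ring
    · -- W
      simp only [Walk.Dir.dx, Walk.Dir.dy, add_zero, out] at h2 ⊢
      refine gc_eq ?_ (hmem i j (by omega) (by omega)) (hmem (i + -1) j (by omega) (by omega))
      rw [Surf.mem_nb]
      show psiL D i j ∈ (zsurf D.l D.r x y D.b D.t).nb .E (psiL D (i + -1) j)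
      unfold psiL
      rcases emod_step (i := i + -1) hN with h3 | ⟨h3, h4⟩
      · rw [neg_add_cancel_right] at h3
        rw [zs_E_low (by omega) (by have := hm (i + -1); omega), Option.mem_def, h3, add_assoc]
      · rw [neg_add_cancel_right] at h3
        rw [h4, h3, show D.l + (D.r + 1 - D.l - 1) = D.r by ring, zs_E_low_end (by omega),
          Option.mem_def, add_zero]
  · intro i
    rw [hKt]
    rcases gc_cases (x := x) (y := y) (D := D) (psiL D i (y - D.b - 1), .N) with h | ⟨t', h1, h2, h3, h4⟩
    · exact Or.inr h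
    · left
      rw [h4]
      unfold psiL at h1
      have h5 := hm i
      rw [show D.b + (y - D.b - 1) = y - 1 by ring] at h1
      rcases lt_trichotomy (D.l + i % (D.r + 1 - D.l)) x with c | c | c
      · rw [zs_N_left (by omega) c (by omega), Option.mem_def, Option.some.injEq] at h1
        exact ⟨_, h1.symm⟩
      · rw [c, zs_N_z hx hx'] at h1
        simp at h1
      · rw [zs_N_right (by omega) c (by omega), Option.mem_def, Option.some.injEq] at h1
        exact ⟨_, h1.symm⟩
  · rintro ⟨t, d⟩ ⟨⟨i, j⟩, h1⟩
    simp only at h1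
    subst h1
    rw [hKt]
    rcases gc_cases (x := x) (y := y) (D := D) (Sum.inr (i, j), d) with h | ⟨t', h3, h4, h5, h6⟩
    · left
      rw [h]
      exact ⟨_, rfl⟩
    · rw [h6]
      cases d
      · -- E
        left
        change (if y ≤ j ∧ j < D.t then (if i = D.r - 1 then some (Sum.inr (D.l, j)) else
          if i = D.l - 1 then none else some (Sum.inr (i + 1, j))) else
            some (Sum.inr (i + 1, j))) = some t' at h3
        split_ifs at h3 <;> exact ⟨_, (Option.some.inj h3).symm⟩
      · -- N
        left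
        by_cases c1 : j = y - 1 ∧ D.l ≤ i ∧ i < D.r
        · rw [zs_N_up_none c1] at h3
          simp at h3
        · rw [zs_N_up c1, Option.mem_def, Option.some.injEq] at h3
          exact ⟨_, h3.symm⟩
      · -- W
        left
        rw [Surf.mem_nb] at h3
        rcases t' with ⟨i', j'⟩ | ⟨i', j'⟩
        · exfalso
          change (if D.b ≤ j' ∧ j' < y then (if i' = D.r then some (Sum.inl (D.l, j')) else
            if i' = D.l - 1 then none else some (Sum.inl (i' + 1, j'))) else
              some (Sum.inl (i' + 1, j'))) = some (Sum.inr (i, j)) at h3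
          split_ifs at h3 <;> simp at h3
        · exact ⟨_, rfl⟩
      · -- S
        by_cases c1 : j = y ∧ D.l ≤ i ∧ i < D.r
        · right
          obtain ⟨c1, c2, c3⟩ := c1
          subst c1
          by_cases c4 : i < x
          · rw [zs_S_left c2 c3 c4, Option.mem_def, Option.some.injEq] at h3
            refine ⟨i - D.l, ?_⟩
            unfold psiL
            rw [Int.emod_eq_of_lt (by omega) (by omega), ← h3]
            refine Prod.ext (congrArg Sum.inl (Prod.ext ?_ ?_)) rfl
            · show i = D.l + (i - D.l)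
              ring
            · show j - 1 = D.b + (j - D.b - 1)
              ring
          · rw [zs_S_right c2 c3 (by omega), Option.mem_def, Option.some.injEq] at h3
            refine ⟨i + 1 - D.l, ?_⟩
            unfold psiL
            rw [Int.emod_eq_of_lt (by omega) (by omega), ← h3]
            refine Prod.ext (congrArg Sum.inl (Prod.ext ?_ ?_)) rfl
            · show i + 1 = D.l + (i + 1 - D.l)
              ring
            · show j - 1 = D.b + (j - D.b - 1)
              ring
        · left
          rw [zs_S_up c1, Option.mem_def, Option.some.injEq] at h3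
          exact ⟨_, h3.symm⟩
  · rintro t ⟨p, rfl⟩ ⟨q, hq, -⟩
    exact absurd hq (by simp)
  · intro i j h1 h2
    rw [hKt] at h2
    have := hm i
    constructor
    · rintro ⟨q, hq⟩
      unfold psiL at hq
      exact absurd hq (by simp)
    · rintro ⟨⟨i', j'⟩, h3, h4⟩
      unfold psiL at h3
      have h5 := Prod.mk.inj (Sum.inl.inj h3)
      rw [← h5.1, ← h5.2] at h4
      exact D.hL _ _ (by omega) (by omega) (by omega) (by omega) h4

end Full.Bad
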