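import Pool.Agent.Full.Bad.SlabWall
import Pool.Agent.Full.X3.CorQ

/-!
# The bound of the amplitude for every configuration
-/

set_option autoImplicit false

namespace Full
open Full.X3 Full.X3.Bad Full.Bad Function Finset

namespace X3.Bad
variable {τ : Type*} [DecidableEq τ] {T : Finset τ} {g : Half τ → Half τ} {ω : Finset τ}

/-- a closed strand has no end -/
theorem loop_closed (hG : Glu T g) {cc : St (mate ω) g} (hc : cc ∈ loops T g ω) :
    (Quot.out cc : Half τ).1 ∈ T ∧ ∀ v, Conn (mate ω) g (Quot.out cc) v → g v ≠ v := by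
  classical
  unfold loops at hc
  rw [Finset.mem_filter] at hc
  obtain ⟨hc1, hc2⟩ := hc
  have hout : Full.st (mate ω) g (Quot.out cc) = cc := Quot.out_eq cc
  have h2 := hG.two ω
  have hT : (Quot.out cc : Half τ).1 ∈ T := by
    unfold strands at hc1
    rw [Finset.mem_image] at hc1
    obtain ⟨x, hx, hxc⟩ := hc1
    have : Conn (mate ω) g x (Quot.out cc) := h2.st_eq.1 (hxc.trans hout.symm)
    exact hG.conn_mem this (mem_hs.1 hx)
  refine ⟨hT, fun v hv hgv => ?_⟩
  refine hc2 v (mem_ends.2 ⟨hG.conn_mem hv hT, hgv⟩) ?_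
  rw [← hout]
  exact (h2.st_eq.2 hv).symm

end X3.Bad

namespace Slab
variable {D : Slab} {W : Lab} {c : Chg} {nL nU a x y A : ℤ} {ω : Finset ZT}

/-- the gluings differ only at the seam -/
def SeamAt (D : Slab) (x y : ℤ) : Prop := ∀ v : Half ZT, D.gc x y v ≠ D.go x y v →
  ∃ j, (D.b ≤ j ∧ j < D.t) ∧
    ((v.1 = phC D.l D.r y (0, j) ∧ (D.gc x y v).1 = phC D.l D.r y (-1, j)) ∨
      (v.1 = phC D.l D.r y (-1, j) ∧ (D.gc x y v).1 = phC D.l D.r y (0, j)))

/-- closed strands do not see the phases of the walls -/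
lemma zl_qb (hgc : ∀ u, (Bd (D.T y) (D.gc x y) u ∧ u ≠ z x y) ↔ D.IsW u) {j k : ℤ}
    (hA : c.dc j W.P = A) {u : Half ZT}
    (hc : ∀ v, Conn (mate ω) (D.gc x y) u v → D.gc x y v ≠ v) :
    zl (D.qz W c j k x y) (D.gc x y) ω u = zl (D.qb W c A x y) (D.gc x y) ω u := by
  have key : ∀ v, Conn (mate ω) (D.gc x y) u v → D.qz W c j k x y v = D.qb W c A x y v := by
    intro v hv
    have h : ¬ D.IsW v := fun h => hc v hv ((hgc v).2 h).1.2
    unfold qz q0 qb
    rw [if_neg h, if_neg h, hA]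
    obtain ⟨⟨i, v⟩ | ⟨i, v⟩, d⟩ := v <;> cases d <;> rfl
  unfold zl zn
  refine Finset.sum_congr rfl fun n _ => ?_
  rw [key _ (Conn.iter n u), key _ ((Conn.iter n u).trans (Conn.m_step _))]

/-- closed strands of the domain in two sheets -/
lemma zl_go (H : GoOk D x y) (hgo : ∀ u : Half ZT, D.IsW u → D.go x y u = u) {u : Half ZT}
    (hu : u.1 ∈ D.T y) (hc : ∀ v, Conn (mate ω) (D.go x y) u v → D.go x y v ≠ v) :
    zl (D.qb W c A x y) (D.go x y) ω u = 4 ∨ zl (D.qb W c A x y) (D.go x y) ω u = -4 := by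
  obtain ⟨h1, h2⟩ := H.loops (ω := ω) (p := u) hc
  have e1 : tn (D.go x y) ω (minimalPeriod (D.go x y ∘ mate ω) u) u =
      lhol (mate ω) (D.go x y) (fun h => tr ω (mate ω h)) (fun _ => 0) u := by
    unfold tn lhol hsum
    simp
  have e2 : ln (fun v => D.qb W c A x y v - D.qb W c A x y (D.go x y v)) (D.go x y) ω
      (minimalPeriod (D.go x y ∘ mate ω) u) u = 0 := by
    have e3 : ln (fun v => D.qb W c A x y v - D.qb W c A x y (D.go x y v)) (D.go x y) ω
      (minimalPeriod (D.go x y ∘ mate ω) u) u =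
      4 * lhol (mate ω) (D.go x y) (fun _ => 0) (D.ccb x y) u := by
      unfold ln lhol hsum
      rw [Finset.mul_sum]
      refine Finset.sum_congr rfl fun k _ => ?_
      show D.qb W c A x y _ - D.qb W c A x y (D.go x y _) = 4 * (0 + _)
      rw [zero_add]
      exact qb_link H hgo _ ((glu_go (D := D)).conn_mem ((Conn.iter k u).trans (Conn.m_step _)) hu)
    rw [e3, h2, mul_zero]
  rw [zl_eq, e1, e2, add_zero]
  exact h1

variable (hD : D.Good x y a) (H : GoOk D x y) (hW : W.Ok D a nL nU)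
  (hgc : ∀ u, (Bd (D.T y) (D.gc x y) u ∧ u ≠ z x y) ↔ D.IsW u)
  (hgo : ∀ u : Half ZT, D.IsW u → D.go x y u = u) (hseam : D.SeamAt x y)

include hseam in
/-- a strand which does not meet the two columns at the seam -/
lemma agree_of {u : Half ZT} (h : ∀ v, Conn (mate ω) (D.gc x y) u v → ∀ j, D.b ≤ j → j < D.t →
    v.1 ≠ phC D.l D.r y (-1, j)) : Agree (D.gc x y) (D.go x y) ω u := by
  intro v hv
  by_contra hne
  obtain ⟨j, ⟨h1, h2⟩, ⟨-, h3⟩ | ⟨h3, -⟩⟩ := hseam v (fun h => hne h.symm)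
  · exact h _ (hv.trans (Conn.g_step v)) j h1 h2 h3
  · exact h v hv j h1 h2 h3

include hseam in
/-- a strand with no tile in the column `0` -/
lemma agree_of' {u : Half ZT} (h : ∀ v, Conn (mate ω) (D.gc x y) u v → ∀ j, D.b ≤ j → j < D.t →
    v.1 ≠ phC D.l D.r y (0, j)) : Agree (D.gc x y) (D.go x y) ω u := by
  intro v hv
  by_contra hne
  obtain ⟨j, ⟨h1, h2⟩, ⟨h3, -⟩ | ⟨-, h3⟩⟩ := hseam v (fun h => hne h.symm)
  · exact h v hv j h1 h2 h3
  · exact h _ (hv.trans (Conn.g_step v)) j h1 h2 h3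

include hD H hW hgc hgo hseam in
/-- **the factors of the closed strands which are not dangerous** -/
theorem lpw_le {m : ℕ} (hm : 3 * (m : ℤ) + 3 < a) {j : ℤ} (hA : c.dc j W.P = A)
    (f1 : Far W a nL nU c.m1) (f2 : Far W a nL nU c.m2) (fj : Far W a nL nU j)
    (hm4 : -a ≤ c.m4) (hm4' : c.m4 < 0)
    {cc : St (mate ω) (D.gc x y)} (hc : cc ∈ loops (D.T y) (D.gc x y) ω)
    (hP : ¬ Danger (fun i j => phC D.l D.r y (i, j)) (-a + 1) (a - 1) D.b D.t m (D.gc x y) ω
      (Quot.out cc)) :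
    ‖lpw (-(Real.pi / 24)) (qph (D.qb W c A x y)) (D.gc x y) ω cc‖ ≤ 1 := by
  have hG : Glu (D.T y) (D.gc x y) := glu_gc
  obtain ⟨hT, hcl⟩ := loop_closed hG hc
  set u : Half ZT := Quot.out cc with hu
  have e0 : lpw (-(Real.pi / 24)) (qph (D.qb W c A x y)) (D.gc x y) ω cc =
      cwt (zl (D.qb W c A x y) (D.gc x y) ω u) := by
    unfold lpw
    rw [holn_zn]
    rfl
  have key : cwt (zl (D.qb W c A x y) (D.gc x y) ω u) = 1 := by
    by_cases hM : ∃ v, Conn (mate ω) (D.gc x y) u v ∧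
        Mid (fun i j => phC D.l D.r y (i, j)) (-a + 1) (a - 1) D.b D.t m v.1
    · obtain ⟨v, hv, hMv⟩ := hM
      rw [← zl_qb (k := c.m4) hgc hA hcl]
      refine closed_four hD H.by' H.yt hW f1 f2 fj hm4 le_rfl hm4' (fun w hw => ?_) hcl
      obtain ⟨i, j', h1, h2, h3⟩ := not_danger_mid hP hv hMv hw
      exact ⟨i, j', w.2, by omega, by omega, h2.1, h2.2, by rw [← h3]⟩
    · push Not at hM
      have hAg : Agree (D.gc x y) (D.go x y) ω u := by
        refine agree_of hseam fun v hv j' h1 h2 h3 => hM v hv ⟨-1, j', ⟨by omega, by omega⟩, ⟨h1, h2⟩, h3⟩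
      have h4 := zl_go (W := W) (c := c) (A := A) H hgo hT (fun v hv => by
        have h5 := hAg.conn.1 hv
        rw [hAg v h5]
        exact hcl v h5)
      have h5 : zl (D.qb W c A x y) (D.go x y) ω u = zl (D.qb W c A x y) (D.gc x y) ω u := by
        unfold zl zn
        rw [hAg.period]
        refine Finset.sum_congr rfl fun n _ => ?_
        rw [hAg.iter]
      rw [h5] at h4
      exact cwt_four' h4
  rw [e0, key]
  simp

include hW hgc in
/-- the number of the strands which do not end in `z` -/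
theorem card_arcs_na (h1 : D.l ≤ x) (h2 : x ≤ D.r) (h3 : D.b < y) (h4 : y < D.t) (hnL : 0 ≤ nL)
    (hnU : 0 ≤ nU) :
    (arcs (D.T y) (D.gc x y) ω (some (z x y)) (oz W x y)).card = na nL nU := by
  classical
  have hG : Glu (D.T y) (D.gc x y) := glu_gc
  have hz := bd_z (D := D) h1 h2 h3
  have hca := card_arcs (ω := ω) hG hz (oz_inj (fun u h5 h6 => (hgc u).1 ⟨h5, h6⟩) hW)
  have hP := hW.P_eq
  have e1 : ((ends (D.T y) (D.gc x y)).erase (z x y)).image W.pos =
      Finset.Ico 0 nL ∪ Finset.Ico W.P (W.P + nU) := by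
    ext p
    rw [Finset.mem_image, Finset.mem_union, Finset.mem_Ico, Finset.mem_Ico]
    constructor
    · rintro ⟨u, hu, rfl⟩
      rw [Finset.mem_erase, mem_ends] at hu
      have hw := (hgc u).1 ⟨hu.2, hu.1⟩
      obtain ⟨t | t, d⟩ := u
      · exact Or.inl (hW.low t d hw)
      · exact Or.inr (hW.up t d hw)
    · intro hp
      obtain ⟨u, hu, hup⟩ := hW.surj p hp
      refine ⟨u, ?_, hup⟩
      rw [Finset.mem_erase, mem_ends]
      have := (hgc u).2 hu
      exact ⟨this.2, this.1⟩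
  have e2 : (((ends (D.T y) (D.gc x y)).erase (z x y)).image W.pos).card =
      ((ends (D.T y) (D.gc x y)).erase (z x y)).card := by
    refine Finset.card_image_of_injOn fun u hu v hv h => ?_
    rw [Finset.mem_coe, Finset.mem_erase, mem_ends] at hu hv
    exact hW.inj u v ((hgc u).1 ⟨hu.2, hu.1⟩) ((hgc v).1 ⟨hv.2, hv.1⟩) h
  have e3 : Disjoint (Finset.Ico 0 nL) (Finset.Ico W.P (W.P + nU)) := by
    rw [Finset.disjoint_left]
    intro p h5 h6
    rw [Finset.mem_Ico] at h5 h6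
    omega
  rw [e1, Finset.card_union_of_disjoint e3, Int.card_Ico, Int.card_Ico] at e2
  have e4 := Finset.card_erase_of_mem (mem_ends.2 hz)
  rw [← e2] at e4
  have e5 : 1 ≤ (ends (D.T y) (D.gc x y)).card := Finset.card_pos.2 ⟨_, mem_ends.2 hz⟩
  unfold na
  omega

end Slab

end Full
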