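import Pool.Agent.Full.Bad.SlabPh
import Pool.Agent.Full.Bad.Avoid
import Pool.Agent.Full.Loop.GoLab
import Pool.Agent.Full.X3.ThNext

/-!
# The strands which do not meet the seam

A strand of the domain with a closed row which does not meet the seam is a strand of the domain in two
sheets.  `law_go`: these strands satisfy the hypotheses of the count of the screening pairs, with the
tokens `m1`, `m2`, `P`, `P - m4` and the end of the strand of `z`.
-/

set_option autoImplicit false

namespace Full
open Full.X3 Full.X3.Bad Full.Bad Function Finset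

namespace Slab
variable {D : Slab} {W : Lab} {c : Chg} {nL nU a x y A : ℤ} {ω : Finset ZT}

/-- the labels of helper36's law -/
theorem goLab (hl : D.l < x) (hr : x < D.r) (hb : D.b < y) (ht : y < D.t) (hW : W.Ok D a nL nU) :
    GoLab D x y W.pos W.th where
  first := (hW.lowW (y - 1) (by omega) (by omega)).2
  lt e he hz hs := by
    rw [(hW.step x y hl hr hb ht e he hz hs).1]
    omega
  th e he hz hs := (hW.step x y hl hr hb ht e he hz hs).2

/-- no phase at a link -/
lemma qb_link (H : GoOk D x y) (hgo : ∀ u : Half ZT, D.IsW u → D.go x y u = u)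
    (v : Half ZT) (hv : v.1 ∈ D.T y) :
    D.qb W c A x y v - D.qb W c A x y (D.go x y v) = 4 * D.ccb x y v := by
  have h1 := H.lx
  have h2 := H.xr
  have h3 := H.by'
  have h4 := H.yt
  have hG : Glu (D.T y) (D.go x y) := glu_go
  by_cases hgv : D.go x y v = v
  · rw [hgv, sub_self]
    unfold ccb
    rw [if_neg, if_neg, mul_zero]
    · rintro ⟨i, hi, hix, rfl⟩
      rw [go_sN h2 h3 h4 hi hix] at hgv
      exact sN_ne_nN hgv.symm
    · rintro ⟨i, hi, hix, rfl⟩
      rw [go_nN h2 h3 h4 hi hix] at hgv
      exact sN_ne_nN hgv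
  · -- the phases which do not belong to the line vanish
    have key : ∀ w : Half ZT, w.1 ∈ D.T y → D.go x y w ≠ w → D.qb W c A x y w =
        -(if lside D.l x y w = true then 4 else 0) := by
      intro w hw hgw
      unfold qb
      rw [if_neg fun h => hgw (hgo w h)]
      obtain ⟨⟨i, j⟩ | ⟨i, j⟩, d⟩ := w
      · cases d
        · simp
        · simp
        · -- lower sheet, left side
          simp only
          rw [if_neg, zero_sub]
          rintro ⟨rfl, h5, h6⟩
          apply hgw
          refine go_low_wall h3.le h4.le (fun h => Dir.noConfusion h.1) ?_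
          rw [mk_add]
          simp only [Dir.vec, add_zero]
          exact left_TL h5 h6.le
        · simp
      · cases d
        · simp
        · simp
        · simp only
          rw [if_neg, zero_sub]
          rintro ⟨rfl, h5, h6⟩
          apply hgw
          refine go_up_wall h3.le h4.le (fun h => Dir.noConfusion h.1) ?_
          rw [mk_add]
          simp only [Dir.vec, add_zero]
          exact left_TU (by omega) h6
        · simp
    have hgg : D.go x y (D.go x y v) ≠ D.go x y v := by
      rw [hG.inv]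
      exact fun h => hgv h.symm
    rw [key v hv hgv, key _ (hG.mem v hv) hgg]
    unfold ccb
    by_cases e1 : ∃ i, D.l ≤ i ∧ i < x ∧ v = nN y i
    · rw [if_pos e1]
      obtain ⟨i, hi, hix, rfl⟩ := e1
      rw [go_nN h2 h3 h4 hi hix]
      have f1 : lside D.l x y (nN y i) = false := rfl
      have f2 : lside D.l x y (sN y i) = true := by
        show decide (y = y ∧ D.l ≤ i ∧ i < x) = true
        rw [decide_eq_true_eq]
        exact ⟨rfl, hi, hix⟩
      rw [f1, f2]
      simp
    · rw [if_neg e1]
      by_cases e2 : ∃ i, D.l ≤ i ∧ i < x ∧ v = sN y i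
      · rw [if_pos e2]
        obtain ⟨i, hi, hix, rfl⟩ := e2
        rw [go_sN h2 h3 h4 hi hix]
        have f1 : lside D.l x y (nN y i) = false := rfl
        have f2 : lside D.l x y (sN y i) = true := by
          show decide (y = y ∧ D.l ≤ i ∧ i < x) = true
          rw [decide_eq_true_eq]
          exact ⟨rfl, hi, hix⟩
        rw [f1, f2]
        simp
      · rw [if_neg e2]
        have f : ∀ w : Half ZT, lside D.l x y w = true → ∃ i, D.l ≤ i ∧ i < x ∧ w = sN y i := by
          intro w hw
          obtain ⟨⟨i, j⟩ | ⟨i, j⟩, d⟩ := w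
          · exact absurd hw (by simp [lside])
          · cases d
            · exact absurd hw (by simp [lside])
            · exact absurd hw (by simp [lside])
            · exact absurd hw (by simp [lside])
            · have h5 : decide (j = y ∧ D.l ≤ i ∧ i < x) = true := hw
              rw [decide_eq_true_eq] at h5
              obtain ⟨rfl, h6, h7⟩ := h5
              exact ⟨i, h6, h7, rfl⟩
        rw [if_neg fun h => e2 (f v h), if_neg]
        · simp
        · intro h
          obtain ⟨i, hi, hix, h5⟩ := f _ h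
          apply e1
          refine ⟨i, hi, hix, ?_⟩
          rw [← hG.inv v, h5, go_sN h2 h3 h4 hi hix]

/-- the turning -/
lemma tn_gtnB (e : Half ZT) : tn (D.go x y) ω (hl (mate ω) (D.go x y) e) e = D.gtn x y ω e := by
  unfold tn gtn Full.hol hsum hl
  simp

/-- the link terms -/
lemma ln_gcr (H : GoOk D x y) (hgo : ∀ u : Half ZT, D.IsW u → D.go x y u = u) (e : Half ZT)
    (he : e.1 ∈ D.T y) :
    ln (fun v => D.qb W c A x y v - D.qb W c A x y (D.go x y v)) (D.go x y) ω
      (hl (mate ω) (D.go x y) e) e = 4 * D.gcr x y ω e := by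
  unfold ln gcr Full.hol hsum hl
  rw [Finset.mul_sum]
  refine Finset.sum_congr rfl fun k _ => ?_
  show D.qb W c A x y _ - D.qb W c A x y (D.go x y _) = 4 * (0 + _)
  rw [zero_add]
  exact qb_link H hgo _ ((glu_go (D := D)).conn_mem ((Conn.iter k e).trans (Conn.m_step _)) he)

/-- the charge of an arc of the domain in two sheets -/
noncomputable def bg (D : Slab) (W : Lab) (c : Chg) (x y : ℤ) (ω : Finset ZT) (e : Half ZT) : ℤ :=
  open Classical in
  cb W c (max (W.pos e) (W.pos (other (mate ω) (D.go x y) e))) -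
    cb W c (min (W.pos e) (W.pos (other (mate ω) (D.go x y) e))) -
    if Over (W.pos e) (W.pos (other (mate ω) (D.go x y) e))
      (W.pos (other (mate ω) (D.go x y) (z x y))) then 1 else 0

/-- **the holonomy of an arc of the domain in two sheets** -/
theorem zh_go (H : GoOk D x y) (hgo : ∀ u : Half ZT, D.IsW u → D.go x y u = u)
    (hl : D.l < x) (hW : W.Ok D a nL nU) {e : Half ZT} (he : Bd (D.T y) (D.go x y) e)
    (hz : e ≠ z x y) (ho : other (mate ω) (D.go x y) e ≠ z x y)
    (w1 : D.IsW e) (w2 : D.IsW (other (mate ω) (D.go x y) e))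
    (hlt : W.pos e < W.pos (other (mate ω) (D.go x y) e)) :
    zh (D.qb W c A x y) (D.go x y) ω e = -2 - 4 * D.bg W c x y ω e := by
  have L := goLab hl H.xr H.by' H.yt hW
  obtain ⟨t1, t2, t3⟩ := L.arc (ω := ω) H he hz ho hlt
  have f : ∀ w : Half ZT, D.IsW w → D.qb W c A x y w = -W.th w - 4 * cb W c (W.pos w) := by
    intro w hw
    unfold qb
    rw [if_pos hw]
    have : lside D.l x y w = false := by
      obtain ⟨⟨i, j⟩ | ⟨i, j⟩, d⟩ := w
      · rfl
      · cases d
        · rfl
        · rfl
        · rfl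
        · have hW' := hw
          by_contra h5
          rw [Bool.not_eq_false] at h5
          have h6 : decide (j = y ∧ D.l ≤ i ∧ i < x) = true := h5
          rw [decide_eq_true_eq] at h6
          have h7 := H.xr
          have h8 := H.by'
          have h9 := H.yt
          exact not_isW_up h6.2.1 (by omega) (by omega) (by omega) (by decide) hW'
    rw [this]
    simp
  rw [zh_eq, tn_gtnB, ln_gcr H hgo e he.1, t1, f _ w1, f _ w2]
  unfold bg
  rw [max_eq_right hlt.le, min_eq_left hlt.le]
  have hzz : (z x y : Half ZT) = nN y x := rfl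
  by_cases h5 : Over (W.pos e) (W.pos (other (mate ω) (D.go x y) e))
      (W.pos (other (mate ω) (D.go x y) (z x y)))
  · rw [if_pos h5]
    have h6 : W.pos e < W.pos (other (mate ω) (D.go x y) (nN y x)) ∧
        W.pos (other (mate ω) (D.go x y) (nN y x)) < W.pos (other (mate ω) (D.go x y) e) := by
      rcases h5 with h5 | h5
      · exact h5
      · rw [hzz] at h5
        omega
    rw [t2 h6]
    ring
  · rw [if_neg h5, t3 fun h6 => h5 (Or.inl h6)]
    ring

/-- a strand which does not meet the seam and does not end in `z` -/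
def Rg (D : Slab) (x y : ℤ) (ω : Finset ZT) (e : Half ZT) : Prop :=
  Bd (D.T y) (D.gc x y) e ∧ Agree (D.gc x y) (D.go x y) ω e ∧ e ≠ z x y ∧
    other (mate ω) (D.gc x y) e ≠ z x y

/-- `e` is an arc over the token `t` -/
def insT (D : Slab) (W : Lab) (x y : ℤ) (ω : Finset ZT) (e : Half ZT) : Option ℤ → Prop
  | some m => min (W.pos e) (W.pos (other (mate ω) (D.gc x y) e)) < m ∧
      m ≤ max (W.pos e) (W.pos (other (mate ω) (D.gc x y) e))
  | none => Over (W.pos e) (W.pos (other (mate ω) (D.gc x y) e))
      (W.pos (other (mate ω) (D.go x y) (z x y)))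

/-- the tokens -/
def tokens (W : Lab) (c : Chg) : Finset (Option ℤ) :=
  {some c.m1, some c.m2, some W.P, some (W.P - c.m4), none}

lemma card_tokens : (tokens W c).card ≤ 5 := by
  unfold tokens
  refine (Finset.card_insert_le _ _).trans (Nat.succ_le_succ ?_)
  refine (Finset.card_insert_le _ _).trans (Nat.succ_le_succ ?_)
  refine (Finset.card_insert_le _ _).trans (Nat.succ_le_succ ?_)
  refine (Finset.card_insert_le _ _).trans (Nat.succ_le_succ ?_)
  rw [Finset.card_singleton]

variable (hgc : ∀ u, (Bd (D.T y) (D.gc x y) u ∧ u ≠ z x y) ↔ D.IsW u)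
  (hgo : ∀ u : Half ZT, D.IsW u → D.go x y u = u)

include hgc hgo in
/-- **the strands which do not meet the seam satisfy the law** -/
theorem law_go (H : GoOk D x y) (hl : D.l < x) (hW : W.Ok D a nL nU) (hnL : 0 ≤ nL) :
    Law (D.T y) (D.gc x y) (-(Real.pi / 24)) (qph (D.qb W c A x y)) (some (z x y)) ω (ps W x y)
      (D.Rg x y ω) (D.bg W c x y ω) (tokens W c) (insT D W x y ω) := by
  have h1 := H.lx
  have h2 := H.xr
  have h3 := H.by'
  have h4 := H.yt
  have hGc : Glu (D.T y) (D.gc x y) := glu_gc
  have hGo : Glu (D.T y) (D.go x y) := glu_go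
  have L := goLab hl H.xr H.by' H.yt hW
  have hinj := ps_inj (x := x) (y := y) (fun u h5 h6 => (hgc u).1 ⟨h5, h6⟩) hW (by omega) hnL
  -- properties of a regular end
  have R1 : ∀ e, D.Rg x y ω e → other (mate ω) (D.go x y) e = other (mate ω) (D.gc x y) e ∧
      D.IsW e ∧ D.IsW (other (mate ω) (D.go x y) e) ∧ Bd (D.T y) (D.go x y) e ∧
      Bd (D.T y) (D.go x y) (other (mate ω) (D.go x y) e) ∧
      other (mate ω) (D.go x y) e ≠ z x y ∧ ps W x y e = W.pos e ∧
      ps W x y (other (mate ω) (D.gc x y) e) = W.pos (other (mate ω) (D.go x y) e) := by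
    rintro e ⟨he, hA, hz, ho⟩
    have e1 : other (mate ω) (D.go x y) e = other (mate ω) (D.gc x y) e := hA.other
    have w1 : D.IsW e := (hgc e).1 ⟨he, hz⟩
    have w2 : D.IsW (other (mate ω) (D.gc x y) e) := (hgc _).1 ⟨hGc.other_bd he, ho⟩
    have b1 : Bd (D.T y) (D.go x y) e := ⟨he.1, hgo e w1⟩
    refine ⟨e1, w1, by rw [e1]; exact w2, b1, hGo.other_bd b1, by rw [e1]; exact ho, ps_ne hz, ?_⟩
    rw [ps_ne ho, e1]
  have hne : ∀ e, D.Rg x y ω e → W.pos e ≠ W.pos (other (mate ω) (D.go x y) e) := by
    intro e he h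
    obtain ⟨e1, w1, w2, -⟩ := R1 e he
    have h5 := hW.inj _ _ w1 w2 h
    rw [e1] at h5
    exact hGc.other_ne (ω := ω) he.1 h5.symm
  have hRo : ∀ e, D.Rg x y ω e → D.Rg x y ω (other (mate ω) (D.gc x y) e) := by
    rintro e ⟨he, hA, hz, ho⟩
    refine ⟨hGc.other_bd he, hA.of_conn (Conn.iter _ _), ho, ?_⟩
    rw [hGc.other_other he]
    exact hz
  have hsym : ∀ e, D.Rg x y ω e → D.bg W c x y ω (other (mate ω) (D.go x y) e) =
      D.bg W c x y ω e := by
    intro e he
    obtain ⟨e1, w1, w2, b1, b2, z2, -, -⟩ := R1 e he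
    unfold bg
    rw [hGo.other_other b1, max_comm, min_comm]
    congr 1
    refine if_congr ?_ rfl rfl
    unfold Over
    tauto
  have hzh : ∀ e, D.Rg x y ω e → W.pos e < W.pos (other (mate ω) (D.go x y) e) →
      X3.hol (-(Real.pi / 24)) (qph (D.qb W c A x y)) (D.gc x y) ω e =
        Real.pi / 3 * (1 / 2 + D.bg W c x y ω e) := by
    intro e he hlt
    obtain ⟨e1, w1, w2, b1, b2, z2, -, -⟩ := R1 e he
    have h5 := zh_go (c := c) (A := A) (ω := ω) H hgo hl hW b1 he.2.2.1 z2 w1 w2 hlt
    rw [← he.2.1.hol, hol_zh, h5]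
    unfold kap
    push_cast
    ring
  refine ⟨hinj, fun e he => ⟨he.1, ?_, ?_⟩, fun e he e' he' hn1 hn2 => ?_, fun e he => ⟨0, ?_, ?_⟩,
    fun e he hb => ?_, fun e he e' he' t ht i1 i2 => ?_⟩
  · exact fun h => he.2.2.1 (Option.some.inj h).symm
  · exact fun h => he.2.2.2 (Option.some.inj h).symm
  · -- non crossing
    obtain ⟨e1, w1, w2, b1, b2, z2, p1, p2⟩ := R1 e he
    obtain ⟨e1', w1', w2', b1', b2', z2', p1', p2'⟩ := R1 e' he'
    rw [p1, p2, p1', p2']
    have hoo := hGo.other_other (ω := ω) b1
    have hoo' := hGo.other_other (ω := ω) b1'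
    have key : ∀ u v : Half ZT, (u = e ∨ u = other (mate ω) (D.go x y) e) →
        (v = e' ∨ v = other (mate ω) (D.go x y) e') → W.pos u < W.pos v →
        W.pos v < W.pos (other (mate ω) (D.go x y) u) →
        W.pos u < W.pos (other (mate ω) (D.go x y) v) ∧
          W.pos (other (mate ω) (D.go x y) v) < W.pos (other (mate ω) (D.go x y) u) := by
      intro u v hu hv q1 q2
      have hu' : Bd (D.T y) (D.go x y) u ∧ u ≠ z x y ∧ other (mate ω) (D.go x y) u ≠ z x y := by
        rcases hu with rfl | rfl
        · exact ⟨b1, he.2.2.1, z2⟩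
        · exact ⟨b2, z2, by rw [hoo]; exact he.2.2.1⟩
      have hv' : Bd (D.T y) (D.go x y) v ∧ v ≠ z x y ∧ other (mate ω) (D.go x y) v ≠ z x y := by
        rcases hv with rfl | rfl
        · exact ⟨b1', he'.2.2.1, z2'⟩
        · exact ⟨b2', z2', by rw [hoo']; exact he'.2.2.1⟩
      exact L.noncross H hu'.1 hu'.2.1 hu'.2.2 hv'.1 hv'.2.1 hv'.2.2 q1 q2
    have k1 := key e e' (Or.inl rfl) (Or.inl rfl)
    have k2 := key e _ (Or.inl rfl) (Or.inr rfl)
    have k3 := key _ e' (Or.inr rfl) (Or.inl rfl)
    have k4 := key _ _ (Or.inr rfl) (Or.inr rfl)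
    rw [hoo] at k3 k4
    rw [hoo'] at k2 k4
    unfold Over
    constructor
    · rintro (⟨q1, q2⟩ | ⟨q1, q2⟩)
      · exact Or.inl (k1 q1 q2)
      · exact Or.inr (k3 q1 q2)
    · rintro (⟨q1, q2⟩ | ⟨q1, q2⟩)
      · exact Or.inl (k2 q1 q2)
      · exact Or.inr (k4 q1 q2)
  · intro hlt
    obtain ⟨e1, w1, w2, b1, b2, z2, p1, p2⟩ := R1 e he
    rw [p1, p2] at hlt
    rw [hzh e he hlt]
    push_cast
    ring
  · intro hlt
    obtain ⟨e1, w1, w2, b1, b2, z2, p1, p2⟩ := R1 e he
    rw [p1, p2] at hlt
    have h5 := hRo e he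
    have h6 := hzh _ h5 (by rw [← e1, hGo.other_other b1]; exact hlt)
    have h7 := X3.hol_other hGc (-(Real.pi / 24)) (qph (D.qb W c A x y)) ω he.1
    rw [h7, ← e1, hsym e he] at h6
    push_cast
    linarith
  · -- tokens
    obtain ⟨e1, w1, w2, b1, b2, z2, p1, p2⟩ := R1 e he
    by_contra hno
    push Not at hno
    apply hb
    have t1 := hno (some c.m1) (by simp [tokens])
    have t2 := hno (some c.m2) (by simp [tokens])
    have t3 := hno (some W.P) (by simp [tokens])
    have t4 := hno (some (W.P - c.m4)) (by simp [tokens])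
    have t5 := hno none (by simp [tokens])
    unfold insT at t1 t2 t3 t4 t5
    simp only at t1 t2 t3 t4 t5
    rw [← e1] at t1 t2 t3 t4 t5
    have hz : D.bg W c x y ω e = 0 := by
      unfold bg cb Full.stp
      rw [if_neg t5]
      set p := min (W.pos e) (W.pos (other (mate ω) (D.go x y) e))
      set p' := max (W.pos e) (W.pos (other (mate ω) (D.go x y) e))
      have hpp : p ≤ p' := min_le_max
      split_ifs <;> omega
    rw [hz]
    rfl
  · obtain ⟨e1, w1, w2, b1, b2, z2, p1, p2⟩ := R1 e he
    obtain ⟨e1', w1', w2', b1', b2', z2', p1', p2'⟩ := R1 e' he'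
    rw [p1, p2, p1', p2']
    cases t with
    | none =>
      unfold insT at i1 i2
      simp only at i1 i2
      rw [← e1] at i1
      rw [← e1'] at i2
      unfold Over at i1 i2
      unfold Apart
      omega
    | some m =>
      unfold insT at i1 i2
      simp only at i1 i2
      rw [← e1] at i1
      rw [← e1'] at i2
      unfold Apart
      omega

end Slab

end Full
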