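import Pool.Agent.Full.X3.Amp
import Pool.Agent.Full.Bad.Main
import Pool.Agent.Full.Bad.Gap

/-!
# The amplitude of a domain with a closed row as a sum over two screening pairs

`Slab.qb` are the phases without the two charges `+2`.  `amp_pairs`: the sum over the gaps of the two
charges `+2` is the sum over the screening pairs around every second wall.
-/

set_option autoImplicit false

namespace Full
open Full.X3 Function Finset

namespace Slab
variable (D : Slab) (W : Lab) (c : Chg)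

/-- the charges `-1` of the marks and of the trio up to the position `p` -/
def cb (p : ℤ) : ℤ :=
  -(Full.stp c.m1 p + Full.stp c.m2 p + Full.stp W.P p + Full.stp (W.P - c.m4) p)

open Classical in
/-- the phases without the charges `+2`; `A` is the charge of the seam -/
noncomputable def qb (A x y : ℤ) (w : Half ZT) : ℤ :=
  (if D.IsW w then -W.th w - 4 * cb W c (W.pos w) else
    match w with
    | (.inl (i, v), .W) => if i = D.l ∧ D.b ≤ v ∧ v < D.t then 4 * A else 0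
    | (.inr (i, v), .W) => if i = D.l ∧ D.b ≤ v ∧ v < D.t then 4 * (A - 1) else 0
    | _ => 0) - if lside D.l x y w = true then 4 else 0

/-- the positions of the ends; `z` comes first -/
noncomputable def ps (x y : ℤ) (w : Half ZT) : ℤ := if w = z x y then -1 else W.pos w

variable {D W c} {nL nU a x y : ℤ}

lemma ps_z : ps W x y (z x y) = -1 := if_pos rfl

lemma ps_ne {w : Half ZT} (h : w ≠ z x y) : ps W x y w = W.pos w := if_neg h

/-- the positions of the walls are not negative -/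
lemma pos_nonneg (hW : W.Ok D a nL nU) (hbt : D.b < D.t) (hnL : 0 ≤ nL) {w : Half ZT}
    (h : D.IsW w) : 0 ≤ W.pos w := by
  obtain ⟨t | t, d⟩ := w
  · exact (hW.low t d h).1
  · have h1 := (hW.up t d h).1
    have h2 := hW.P_eq
    omega

lemma z_not_isW (h1 : D.l ≤ x) (h2 : x ≤ D.r) (h3 : D.b < y) (h4 : y < D.t) : ¬ D.IsW (z x y) :=
  not_isW_low h1 h2 (by omega) (by omega) (by decide)

/-- the positions of the ends are different -/
lemma ps_inj (hgc : ∀ u, Bd (D.T y) (D.gc x y) u → u ≠ z x y → D.IsW u) (hW : W.Ok D a nL nU)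
    (hbt : D.b < D.t) (hnL : 0 ≤ nL) : ∀ u, Bd (D.T y) (D.gc x y) u → ∀ v,
      Bd (D.T y) (D.gc x y) v → ps W x y u = ps W x y v → u = v := by
  intro u hu v hv h
  by_cases h1 : u = z x y
  · by_cases h2 : v = z x y
    · rw [h1, h2]
    · rw [h1, ps_z, ps_ne h2] at h
      have := pos_nonneg hW hbt hnL (hgc v hv h2)
      omega
  · by_cases h2 : v = z x y
    · rw [h2, ps_z, ps_ne h1] at h
      have := pos_nonneg hW hbt hnL (hgc u hu h1)
      omega
    · rw [ps_ne h1, ps_ne h2] at h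
      exact hW.inj u v (hgc u hu h1) (hgc v hv h2) h

/-- the phases with the charges `+2` at the gaps `j` and `P - k` -/
lemma qz_split (hgc : ∀ u, (Bd (D.T y) (D.gc x y) u ∧ u ≠ z x y) ↔ D.IsW u) {j k A : ℤ}
    (hA : c.dc j W.P = A) (hj : 0 ≤ j) (hk : 0 ≤ W.P - k) (w : Half ZT) (hw : w.1 ∈ D.T y) :
    qph (D.qz W c j k x y) w = (qph (D.qb W c A x y) + X3.Bad.stp (D.gc x y) (ps W x y) j +
      X3.Bad.stp (D.gc x y) (ps W x y) (W.P - k)) w := by
  simp only [Pi.add_apply]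
  by_cases h : D.IsW w
  · obtain ⟨h1, h2⟩ := (hgc w).2 h
    unfold qph qz q0 qb X3.Bad.stp
    rw [if_pos h, if_pos h, ps_ne h2]
    unfold Chg.dc Chg.tc cb Full.stp kap
    have e1 : (D.gc x y w = w ∧ j ≤ W.pos w) ↔ j ≤ W.pos w := and_iff_right h1.2
    have e2 : (D.gc x y w = w ∧ W.P - k ≤ W.pos w) ↔ W.P - k ≤ W.pos w := and_iff_right h1.2
    rw [if_congr e1 rfl rfl, if_congr e2 rfl rfl]
    split_ifs <;> push_cast <;> ring
  · have h3 : X3.Bad.stp (D.gc x y) (ps W x y) j w = 0 ∧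
        X3.Bad.stp (D.gc x y) (ps W x y) (W.P - k) w = 0 := by
      by_cases h1 : w = z x y
      · subst h1
        unfold X3.Bad.stp
        rw [ps_z]
        exact ⟨if_neg (by omega), if_neg (by omega)⟩
      · have h2 : D.gc x y w ≠ w := fun h2 => h ((hgc w).1 ⟨⟨hw, h2⟩, h1⟩)
        exact ⟨X3.Bad.stp_end h2, X3.Bad.stp_end h2⟩
    rw [h3.1, h3.2, add_zero, add_zero]
    unfold qph qz q0 qb
    rw [if_neg h, if_neg h, hA]
    obtain ⟨⟨i, v⟩ | ⟨i, v⟩, d⟩ := w <;> cases d <;> rfl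

open Classical in
/-- **the sum over the gaps is a sum over screening pairs** -/
theorem amp_pairs (hgc : ∀ u, (Bd (D.T y) (D.gc x y) u ∧ u ≠ z x y) ↔ D.IsW u)
    (hW : W.Ok D a nL nU) (h1 : D.l ≤ x) (h2 : x ≤ D.r) (h3 : D.b < y) (h4 : y < D.t)
    (hnL : 0 ≤ nL) {A p1 b4 : ℤ} {n1 n2 : ℕ} (hp1 : 0 ≤ p1) (hb4 : b4 < 0)
    (hn2 : b4 + 1 = c.m4 + 2 * n2)
    (hA : ∀ j, p1 ≤ j → j < p1 + 2 * n1 → c.dc j W.P = A) (u v : ℕ → Half ZT)
    (hu : ∀ i < n1, D.IsW (u i) ∧ W.pos (u i) = p1 + 2 * i)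
    (hv : ∀ i < n2, D.IsW (v i) ∧ W.pos (v i) = W.P - b4 + 2 * i) (ω : Finset ZT) :
    ∑ j ∈ Icc p1 (p1 + 2 * n1 - 1), ∑ k ∈ Icc c.m4 b4,
      czw (D.qz W c j k x y) (D.T y) (D.gc x y) (z x y) (oz W x y) ω =
    ∑ e ∈ (range n1).image u, ∑ e' ∈ (range n2).image v,
      cw (-(Real.pi / 24)) (qph (D.qb W c A x y + X3.Bad.scq (D.gc x y) (ps W x y) e +
        X3.Bad.scq (D.gc x y) (ps W x y) e')) (D.T y) (D.gc x y) (some (z x y)) (oz W x y) ω := by
  have hbt : D.b < D.t := by omega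
  have hG : Glu (D.T y) (D.gc x y) := glu_gc
  have hgc' : ∀ w, Bd (D.T y) (D.gc x y) w → w ≠ z x y → D.IsW w := fun w h5 h6 => (hgc w).1 ⟨h5, h6⟩
  have hz : ∀ w, some (z x y) = some w → Bd (D.T y) (D.gc x y) w := by
    intro w hw
    rw [← Option.some.inj hw]
    exact bd_z h1 h2 h3
  have ho := oz_inj (x := x) (y := y) hgc' hW
  have hinj := ps_inj (x := x) (y := y) hgc' hW hbt hnL
  have hP : 0 < W.P := by
    have := hW.P_eq
    omega
  set K : ℝ := -(Real.pi / 24) with hK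
  set g := D.gc x y with hg
  set pos := ps W x y with hpos
  set φ : Half ZT → ℝ := qph (D.qb W c A x y) with hφ
  have hu' : ∀ i < n1, Bd (D.T y) g (u i) ∧ (some (z x y) : Option (Half ZT)) ≠ some (u i) ∧
      pos (u i) = p1 + 2 * i := by
    intro i hi
    obtain ⟨h5, h6⟩ := hu i hi
    obtain ⟨h7, h8⟩ := (hgc _).2 h5
    refine ⟨h7, fun h => h8 (Option.some.inj h).symm, ?_⟩
    rw [hpos, ps_ne h8, h6]
  have hv' : ∀ i < n2, Bd (D.T y) g (v i) ∧ (some (z x y) : Option (Half ZT)) ≠ some (v i) ∧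
      pos (v i) = W.P - b4 + 2 * i := by
    intro i hi
    obtain ⟨h5, h6⟩ := hv i hi
    obtain ⟨h7, h8⟩ := (hgc _).2 h5
    refine ⟨h7, fun h => h8 (Option.some.inj h).symm, ?_⟩
    rw [hpos, ps_ne h8, h6]
  -- the images
  have iu : Set.InjOn u (range n1 : Set ℕ) := by
    intro i hi i' hi' h
    have e1 := (hu i (Finset.mem_range.1 (Finset.mem_coe.1 hi))).2
    have e2 := (hu i' (Finset.mem_range.1 (Finset.mem_coe.1 hi'))).2
    rw [h] at e1
    omega
  have iv : Set.InjOn v (range n2 : Set ℕ) := by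
    intro i hi i' hi' h
    have e1 := (hv i (Finset.mem_range.1 (Finset.mem_coe.1 hi))).2
    have e2 := (hv i' (Finset.mem_range.1 (Finset.mem_coe.1 hi'))).2
    rw [h] at e1
    omega
  rw [Finset.sum_image iu]
  have e0 : ∀ i ∈ range n1, ∑ e' ∈ (range n2).image v,
      cw K (qph (D.qb W c A x y + X3.Bad.scq g pos (u i) + X3.Bad.scq g pos e')) (D.T y) g
        (some (z x y)) (oz W x y) ω = ∑ i' ∈ range n2,
      cw K (φ + X3.Bad.sc g pos (u i) + X3.Bad.sc g pos (v i')) (D.T y) g (some (z x y))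
        (oz W x y) ω := by
    intro i _
    rw [Finset.sum_image iv]
    refine Finset.sum_congr rfl fun i' _ => ?_
    rw [X3.Bad.qph_scq, X3.Bad.qph_scq]
  rw [Finset.sum_congr rfl e0]
  -- the weights in the form with `stp`
  have e1 : ∀ j ∈ Icc p1 (p1 + 2 * (n1 : ℤ) - 1), ∀ k ∈ Icc c.m4 b4,
      czw (D.qz W c j k x y) (D.T y) g (z x y) (oz W x y) ω =
      cw K (φ + X3.Bad.stp g pos j + X3.Bad.stp g pos (W.P - k)) (D.T y) g (some (z x y))
        (oz W x y) ω := by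
    intro j hj k hk
    rw [Finset.mem_Icc] at hj hk
    rw [← cw_czw]
    exact X3.Bad.cw_congr hG K (qz_split hgc (hA j hj.1 (by omega)) (by omega) (by omega)) _ hz _ ω
  rw [Finset.sum_congr rfl fun j hj => Finset.sum_congr rfl fun k hk => e1 j hj k hk]
  -- the sum over `j`
  have e2 : ∀ ψ : Half ZT → ℝ, ∑ j ∈ Icc p1 (p1 + 2 * (n1 : ℤ) - 1),
      cw K (ψ + X3.Bad.stp g pos j) (D.T y) g (some (z x y)) (oz W x y) ω =
      ∑ i ∈ range n1, cw K (ψ + X3.Bad.sc g pos (u i)) (D.T y) g (some (z x y)) (oz W x y) ω := by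
    intro ψ
    rw [← X3.Bad.sum_gap hG K ψ (some (z x y)) hz ho hinj p1 n1 u hu' ω]
    refine Finset.sum_congr ?_ fun _ _ => rfl
    ext j
    rw [Finset.mem_Icc, Finset.mem_Ico]
    omega
  -- the sum over `k`
  have e3 : ∀ ψ : Half ZT → ℝ, ∑ k ∈ Icc c.m4 b4,
      cw K (ψ + X3.Bad.stp g pos (W.P - k)) (D.T y) g (some (z x y)) (oz W x y) ω =
      ∑ i ∈ range n2, cw K (ψ + X3.Bad.sc g pos (v i)) (D.T y) g (some (z x y)) (oz W x y) ω := by
    intro ψ
    rw [← X3.Bad.sum_gap hG K ψ (some (z x y)) hz ho hinj (W.P - b4) n2 v hv' ω]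
    refine Finset.sum_nbij' (fun k => W.P - k) (fun k => W.P - k) ?_ ?_ ?_ ?_ ?_
    · intro k hk
      rw [Finset.mem_Icc] at hk
      rw [Finset.mem_Ico]
      omega
    · intro k hk
      rw [Finset.mem_Ico] at hk
      rw [Finset.mem_Icc]
      omega
    · intro k _
      ring
    · intro k _
      ring
    · intro k _
      rfl
  rw [Finset.sum_comm]
  have e4 : ∀ k ∈ Icc c.m4 b4, ∑ j ∈ Icc p1 (p1 + 2 * (n1 : ℤ) - 1),
      cw K (φ + X3.Bad.stp g pos j + X3.Bad.stp g pos (W.P - k)) (D.T y) g (some (z x y))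
        (oz W x y) ω = ∑ i ∈ range n1,
      cw K (φ + X3.Bad.sc g pos (u i) + X3.Bad.stp g pos (W.P - k)) (D.T y) g (some (z x y))
        (oz W x y) ω := by
    intro k _
    have := e2 (φ + X3.Bad.stp g pos (W.P - k))
    simp only [add_right_comm φ (X3.Bad.stp g pos (W.P - k))] at this
    exact this
  rw [Finset.sum_congr rfl e4, Finset.sum_comm]
  exact Finset.sum_congr rfl fun i _ => e3 _

end Slab

end Full
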