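import Pool.Agent.Full.Bad.SlabBound

/-!
# The two gluings of a domain with a closed row differ only at the seam
-/

set_option autoImplicit false

namespace Full
open Function Finset

namespace Slab
variable {D : Slab} {x y : ℤ}

/-- the right side of the seam -/
theorem seam_E (hb : D.b < y) (ht : y < D.t) {s : ZT}
    (h : D.gc x y (s, .E) ≠ D.go x y (s, .E)) :
    ∃ j, (D.b ≤ j ∧ j < D.t) ∧ s = phC D.l D.r y (-1, j) ∧
      D.gc x y (s, .E) = (phC D.l D.r y (0, j), .W) ∧ D.go x y (s, .E) = (s, .E) := by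
  have hlr := D.hlr
  by_cases hT : s ∈ D.T y
  swap
  · exact absurd (by rw [Glu.out glu_gc _ hT, Glu.out glu_go _ hT]) h
  have hn : (zsurf D.l D.r x y D.b D.t).nb .E s ≠ (zsurf D.l D.r x y y y).nb .E s := by
    intro h1
    apply h
    show (zsurf D.l D.r x y D.b D.t).glue (D.T y) (s, .E) = (zsurf D.l D.r x y y y).glue (D.T y) (s, .E)
    unfold Surf.glue
    simp only [h1]
  rcases s with ⟨i, j⟩ | ⟨i, j⟩
  · have hj : D.b ≤ j ∧ j < y := by
      by_contra hj
      apply hn
      rw [zs_E_low_open (b := y) (t := y) (by omega), zs_E_low_open hj]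
    have hi : i = D.r := by
      by_contra hi
      apply hn
      rw [zs_E_low_open (b := y) (t := y) (by omega)]
      refine zs_E_low hi ?_
      rintro rfl
      rw [mem_low] at hT
      rcases hT with h1 | h1
      · exact D.hL _ _ (by omega) (by omega) hj.1 (by omega) h1
      · omega
    subst hi
    refine ⟨j, ⟨hj.1, by omega⟩, ?_, ?_, ?_⟩
    · rw [phC_neg (by omega), phR_low hj.2]
      congr 2
      ring
    · rw [phC_pos le_rfl, phL_low hj.2, add_zero]
      exact Surf.glue_of_mem (zs_E_low_end hj) hT (mem_low.2 (Or.inr ⟨⟨le_rfl, hlr.le⟩, hj⟩))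
    · refine go_low_wall hb.le ht.le (fun h => Dir.noConfusion h.1) ?_
      rw [mk_add]
      simp only [Dir.vec, add_zero]
      exact right_TL hj.1 (by omega)
  · have hj : y ≤ j ∧ j < D.t := by
      by_contra hj
      apply hn
      rw [zs_E_up_open (b := y) (t := y) (by omega), zs_E_up_open hj]
    have hi : i = D.r - 1 := by
      by_contra hi
      apply hn
      rw [zs_E_up_open (b := y) (t := y) (by omega)]
      refine zs_E_up hi ?_
      rintro rfl
      rw [mem_up] at hT
      rcases hT with h1 | h1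
      · exact D.hU _ _ (by omega) (by omega) (by omega) hj.2 h1
      · omega
    subst hi
    refine ⟨j, ⟨by omega, hj.2⟩, ?_, ?_, ?_⟩
    · rw [phC_neg (by omega), phR_up (by omega)]
      congr 2
    · rw [phC_pos le_rfl, phL_up (by omega), add_zero]
      exact Surf.glue_of_mem (zs_E_up_end hj) hT (mem_up.2 (Or.inr ⟨⟨le_rfl, hlr⟩, hj⟩))
    · refine go_up_wall hb.le ht.le (fun h => Dir.noConfusion h.1) ?_
      rw [mk_add]
      simp only [Dir.vec, add_zero, sub_add_cancel]
      exact right_TU (by omega) hj.2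

/-- **the two gluings differ only at the seam** -/
theorem seamAt (hb : D.b < y) (ht : y < D.t) : D.SeamAt x y := by
  rintro ⟨s, d⟩ h
  have hGc : Glu (D.T y) (D.gc x y) := glu_gc
  have hGo : Glu (D.T y) (D.go x y) := glu_go
  cases d with
  | E =>
    obtain ⟨j, h1, h2, h3, -⟩ := seam_E hb ht h
    exact ⟨j, h1, Or.inr ⟨h2, by rw [h3]⟩⟩
  | N => exact absurd rfl h
  | S => exact absurd rfl h
  | W =>
    by_cases h1 : D.gc x y (s, .W) = (s, .W)
    · -- impossible
      have h2 : D.go x y (s, .W) ≠ (s, .W) := fun h2 => h (by rw [h1, h2])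
      have h3 : (D.go x y (s, .W)).2 = Dir.E := straight_go _ h2
      obtain ⟨s', hs'⟩ : ∃ s', D.go x y (s, .W) = (s', .E) := ⟨_, Prod.ext rfl h3⟩
      have h4 : D.go x y (s', .E) = (s, .W) := by rw [← hs', hGo.inv]
      have h5 : D.gc x y (s', .E) ≠ D.go x y (s', .E) := by
        intro h5
        rw [h4] at h5
        have h6 := congrArg (D.gc x y) h5
        rw [hGc.inv, h1] at h6
        exact absurd (congrArg Prod.snd h6) (by simp)
      obtain ⟨j, -, -, -, h7⟩ := seam_E hb ht h5
      rw [h4] at h7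
      exact absurd (congrArg Prod.snd h7) (by simp)
    · have h3 : (D.gc x y (s, .W)).2 = Dir.E := straight_gc _ h1
      obtain ⟨s', hs'⟩ : ∃ s', D.gc x y (s, .W) = (s', .E) := ⟨_, Prod.ext rfl h3⟩
      have h4 : D.gc x y (s', .E) = (s, .W) := by rw [← hs', hGc.inv]
      have h5 : D.gc x y (s', .E) ≠ D.go x y (s', .E) := by
        intro h5
        apply h
        rw [hs']
        rw [h4] at h5
        rw [h5, hGo.inv]
      obtain ⟨j, h6, h7, h8, -⟩ := seam_E hb ht h5
      rw [h4] at h8
      refine ⟨j, h6, Or.inl ⟨congrArg Prod.fst h8, ?_⟩⟩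
      rw [hs']
      exact h7

end Slab

end Full
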