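import Pool.Agent.Full.Bad.Moment
import Pool.Agent.Full.Bad.Main
import Pool.Agent.Full.Loc1.SlabCh

/-!
# The strips of the corridor of a slab domain

The corridor of `(D.T y, D.gc x y)` and its parts are strips; `few` is the count of the dangerous strands
in the form of `Bad/Main`; `sq_moment2` is the second moment of an amplitude with the bound of
`Bad/Main`.
-/

set_option autoImplicit false

namespace Full.Bad
open Finset Function
open Full.Perc (Ex Ex_mono Ex_mul Ex_add)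

variable {τ : Type*} {T : Finset τ} {g : Half τ → Half τ} {c d b t : ℤ}

/-- a channel is a strip -/
theorem Strip.of_channel {ψ : ℤ × ℤ → τ} (h : Loc1.Channel T g ψ c d b t) :
    Strip T g (fun i j => ψ (i, j)) c d b t :=
  ⟨h.mem, h.inj, h.east, h.north, h.floor, h.ceil⟩

/-- the count of the dangerous strands -/
theorem Strip.few [DecidableEq τ] {φ : ℤ → ℤ → τ} (h : Strip T g φ c d b t) (hG : Glu T g) {m : ℕ}
    (hm : 1 ≤ m) (hcd : c + (4 * m + 2) ≤ d) (hw : t - b ≤ m) (ω : Finset τ) :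
    X3.Bad.Few g ω (Danger φ c d b t m g ω) (h.N hG hcd ω) :=
  fun S hS hD => h.count hG hm hcd hw ω S hS hD

/-- a strand which is not dangerous and meets the middle stays in the strip -/
theorem not_danger_mid [DecidableEq τ] {φ : ℤ → ℤ → τ} {m : ℕ} {ω : Finset τ} {y u : Half τ}
    (h : ¬ Danger φ c d b t m g ω y) (hu : Conn (mate ω) g y u) (hM : Mid φ c d b t m u.1)
    {v : Half τ} (hv : Conn (mate ω) g y v) :
    ∃ i j, (c ≤ i ∧ i < d) ∧ (b ≤ j ∧ j < t) ∧ v.1 = φ i j := by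
  by_contra hn
  push Not at hn
  exact h ⟨⟨u, hu, hM⟩, v, hv, fun i j h1 h2 h3 h4 => hn i j ⟨h1, h2⟩ ⟨h3, h4⟩⟩

/-- a strand which is not dangerous and meets the outside does not meet the middle -/
theorem not_danger_out [DecidableEq τ] {φ : ℤ → ℤ → τ} {m : ℕ} {ω : Finset τ} {y v : Half τ}
    (h : ¬ Danger φ c d b t m g ω y) (hv : Conn (mate ω) g y v) (hO : Out φ c d b t v.1)
    {u : Half τ} (hu : Conn (mate ω) g y u) : ¬ Mid φ c d b t m u.1 :=
  fun hM => h ⟨⟨u, hu, hM⟩, v, hv, hO⟩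

/-- **the second moment** for the bound with two strips -/
theorem sq_moment2 (α β : ℕ) : ∃ B : ℝ, ∀ (τ : Type) [DecidableEq τ] (T : Finset τ)
    (g : Half τ → Half τ) (φ φ' : ℤ → ℤ → τ) (c d b t c' d' b' t' : ℤ) (h : Strip T g φ c d b t)
    (h' : Strip T g φ' c' d' b' t') (hG : Glu T g) (m m' : ℕ) (_ : 1 ≤ m) (_ : 1 ≤ m')
    (hcd : c + (4 * m + 2) ≤ d) (hcd' : c' + (4 * m' + 2) ≤ d') (A : Finset τ → ℂ)
    (_ : ∀ ω ⊆ T, ‖A ω‖ ≤ 2 ^ h.N hG hcd ω *
      ((α + 2 * (h.N hG hcd ω : ℝ)) * (β + 2 * (h'.N hG hcd' ω : ℝ)))),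
    Ex T (fun ω => ‖A ω‖ ^ 2) ≤ B := by
  obtain ⟨C, hC1, hC⟩ := moment_N (Q := 36 ^ 2) (by norm_num)
  refine ⟨((α + 1) * (β + 1) : ℝ) ^ 2 * (C + C),
    fun τ _ T g φ φ' c d b t c' d' b' t' h h' hG m m' hm hm' hcd hcd' A hA => ?_⟩
  have h1 := hC τ T g φ c d b t h hG m hm hcd
  have h2 := hC τ T g φ' c' d' b' t' h' hG m' hm' hcd'
  refine (Ex_mono (g := fun ω => ((α + 1) * (β + 1) : ℝ) ^ 2 *
    ((36 ^ 2) ^ h.N hG hcd ω + (36 ^ 2) ^ h'.N hG hcd' ω)) fun ω hω => ?_).trans ?_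
  · set N := h.N hG hcd ω
    set N' := h'.N hG hcd' ω
    have a1 : (α : ℝ) + 2 * N ≤ (α + 1) * 3 ^ N := by
      have := lin_le (x := (α : ℝ) + 1) (by have : (0 : ℝ) ≤ α := Nat.cast_nonneg α; linarith) N
      linarith
    have a2 : (β : ℝ) + 2 * N' ≤ (β + 1) * 3 ^ N' := by
      have := lin_le (x := (β : ℝ) + 1) (by have : (0 : ℝ) ≤ β := Nat.cast_nonneg β; linarith) N'
      linarith
    have a3 : ‖A ω‖ ≤ ((α + 1) * (β + 1) : ℝ) * (6 ^ N * 6 ^ N') := by
      refine (hA ω hω).trans ?_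
      calc (2 : ℝ) ^ N * ((α + 2 * (N : ℝ)) * (β + 2 * (N' : ℝ)))
          ≤ 2 ^ N * (((α + 1) * 3 ^ N) * ((β + 1) * 3 ^ N')) := by
            refine mul_le_mul_of_nonneg_left (mul_le_mul a1 a2 (by positivity) (by positivity))
              (by positivity)
        _ = ((α + 1) * (β + 1) : ℝ) * (6 ^ N * 3 ^ N') := by
            have : (6 : ℝ) ^ N = 2 ^ N * 3 ^ N := by rw [← mul_pow]; norm_num
            rw [this]
            ring
        _ ≤ ((α + 1) * (β + 1) : ℝ) * (6 ^ N * 6 ^ N') := by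
            refine mul_le_mul_of_nonneg_left (mul_le_mul_of_nonneg_left ?_ (by positivity))
              (by positivity)
            exact pow_le_pow_left₀ (by norm_num) (by norm_num) _
    have a4 := pow_le_pow_left₀ (norm_nonneg _) a3 2
    refine a4.trans ?_
    rw [mul_pow]
    refine mul_le_mul_of_nonneg_left ?_ (sq_nonneg _)
    have a5 : ((6 : ℝ) ^ N * 6 ^ N') ^ 2 = 36 ^ N * 36 ^ N' := by
      rw [mul_pow, ← pow_mul, ← pow_mul, mul_comm N 2, mul_comm N' 2, pow_mul, pow_mul]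
      norm_num
    have e1 : ∀ k : ℕ, ((36 : ℝ) ^ 2) ^ k = (36 ^ k) ^ 2 := fun k => by
      rw [← pow_mul, ← pow_mul, mul_comm]
    rw [a5, e1, e1]
    nlinarith [sq_nonneg ((36 : ℝ) ^ N - 36 ^ N'), sq_nonneg ((36 : ℝ) ^ N), sq_nonneg ((36 : ℝ) ^ N')]
  · rw [Ex_mul, Ex_add]
    exact mul_le_mul_of_nonneg_left (add_le_add h1 h2) (sq_nonneg _)

end Full.Bad

namespace Full.Slab
open Full.Bad

variable {D : Slab} {x y : ℤ}

/-- the corridor as a strip, and every part of it -/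
theorem strip {a : ℤ} (hD : D.DeadEnd a) (ha : 0 ≤ a) (hl : D.l + a ≤ x) (hr : x ≤ D.r - a)
    (hb : D.b ≤ y) (ht : y ≤ D.t) {c d : ℤ} (hc : -a ≤ c) (hd : d ≤ a) :
    Strip (D.T y) (D.gc x y) (fun i j => phC D.l D.r y (i, j)) c d D.b D.t :=
  Strip.of_channel ((corridor hD ha hl hr hb ht).mono hc hd)

end Full.Slab
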