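import Pool.Agent.Full.Bad.SlabLaw
import Pool.Agent.Full.Bad.Strips
import Pool.Agent.Full.Loc1.Pot

/-!
# The walls of the corridor
-/

set_option autoImplicit false

namespace Full
open Full.X3 Full.X3.Bad Full.Bad Function Finset

namespace Slab
variable {D : Slab} {W : Lab} {c : Chg} {nL nU a x y A : ℤ} {ω : Finset ZT}

/-- the position of a wall of the corridor -/
theorem pos_phC (hD : D.Good x y a) (hb : D.b < y) (ht : y < D.t) (hW : W.Ok D a nL nU)
    {u : Half ZT} (hu : D.IsW u) {i j : ℤ} (h1 : -a ≤ i) (h2 : i < a) (h3 : D.b ≤ j) (h4 : j < D.t)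
    (he : u.1 = phC D.l D.r y (i, j)) :
    (0 ≤ W.pos u ∧ W.pos u < a ∧ 0 ≤ i) ∨
      (nL - a ≤ W.pos u ∧ W.pos u < nL ∧ i < 0) ∨
      (W.pos u = W.P - 1 - i ∧ i < 0) ∨
      (W.P + nU - a ≤ W.pos u ∧ W.pos u < W.P + nU ∧ 0 ≤ i) := by
  have hxl := hD.xl
  have hxr := hD.xr
  obtain ⟨t, d⟩ := u
  simp only at he
  by_cases a1 : 0 ≤ i
  · rw [phC_pos a1] at he
    by_cases a2 : j < y
    · rw [phL_low a2] at he
      subst he
      have hd : d = .S := by
        by_contra hd
        exact not_isW_low (by omega) (by omega) h3 h4 hd hu
      subst hd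
      have hj : j = D.b := by
        by_contra hj
        exact not_isW_lowS (by omega) (by omega) (by omega) h4 hu
      subst hj
      left
      rw [(hW.floorL i a1 h2).2.1]
      omega
    · rw [phL_up a2] at he
      subst he
      have hd : d = .N := by
        by_contra hd
        exact not_isW_up (by omega) (by omega) h3 h4 hd hu
      subst hd
      have hj : j = D.t - 1 := by
        by_contra hj
        exact not_isW_upN (by omega) (by omega) (by omega) (by omega) hu
      subst hj
      right; right; right
      rw [(hW.ceilL i a1 h2).2.1]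
      omega
  · rw [phC_neg a1] at he
    by_cases a2 : j < y
    · rw [phR_low a2] at he
      subst he
      have hd : d = .S := by
        by_contra hd
        exact not_isW_low (by omega) (by omega) h3 h4 hd hu
      subst hd
      have hj : j = D.b := by
        by_contra hj
        exact not_isW_lowS (by omega) (by omega) (by omega) h4 hu
      subst hj
      right; left
      have h5 := (hW.floorR (-1 - i) (by omega) (by omega)).2.1
      rw [show D.r - (-1 - i) = D.r + i + 1 by ring] at h5
      rw [h5]
      omega
    · rw [phR_up a2] at he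
      subst he
      have hd : d = .N := by
        by_contra hd
        exact not_isW_up (by omega) (by omega) h3 h4 hd hu
      subst hd
      have hj : j = D.t - 1 := by
        by_contra hj
        exact not_isW_upN (by omega) (by omega) (by omega) (by omega) hu
      subst hj
      right; right; left
      have h5 := (hW.ceilR (-1 - i) (by omega) (by omega)).2.1
      rw [show D.r - 1 - (-1 - i) = D.r + i by ring] at h5
      rw [h5]
      omega

/-- the walls of the ceiling of the right dead end -/
theorem tile_ceil (ht : y < D.t) (hW : W.Ok D a nL nU) {u : Half ZT} (hu : D.IsW u)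
    (h1 : W.P ≤ W.pos u) (h2 : W.pos u < W.P + a) :
    u.1 = phC D.l D.r y (W.P - 1 - W.pos u, D.t - 1) := by
  have h3 := hW.ceilR (W.pos u - W.P) (by omega) (by omega)
  have h4 := hW.inj _ _ hu h3.1 (by rw [h3.2.1]; ring)
  rw [phC_neg (by omega), phR_up (by omega), h4]
  simp only
  congr 2
  have h5 := h3.2.1
  rw [← h4] at h5
  omega

end Slab

end Full
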