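import Pool.Agent.Full.Bad.Count
import Pool.Agent.Full.Bad.Pair

/-!
# The sum over two screening pairs has a bounded number of terms

`T, g` is a region with the ends ordered by `pos`; `φ₀ + sc y + sc y'` are the phases with screening pairs
around the ends `y` and `y'`.  For a fixed configuration only few pairs `(y, y')` have a nonzero weight:
the regular strands (`R`) do not cross each other and have the holonomy `π / 3 * (1 / 2 + b)` where `b` is
an integer which is divisible by `3` unless the arc is over one of the tokens `Q`.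
-/

set_option autoImplicit false

namespace Full.X3.Bad
open Full.Bad Function Relation Finset

noncomputable section

variable {τ : Type*} [DecidableEq τ] {T : Finset τ} {g : Half τ → Half τ}

/-- the charge passed at the position `b` for a screening pair at the position `a` -/
def ap (a b : ℤ) : ℤ := if b < a then 0 else if b = a then 1 else 2

/-- the phases of a screening pair around the end `y` -/
def sc (g : Half τ → Half τ) (pos : Half τ → ℤ) (y x : Half τ) : ℝ :=
  open Classical in if g x = x then Real.pi / 3 * (ap (pos y) (pos x) : ℤ) else 0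

lemma sc_end {pos : Half τ → ℤ} {y x : Half τ} (hx : g x ≠ x) : sc g pos y x = 0 := if_neg hx

lemma sc_of {pos : Half τ → ℤ} {y x : Half τ} (hx : g x = x) :
    sc g pos y x = Real.pi / 3 * (ap (pos y) (pos x) : ℤ) := if_pos hx

/-- the cosine vanishes if the charge is one modulo three -/
lemma cos_zero {m k : ℤ} (h : (m : ZMod 3) = 1) :
    Complex.cos ((Real.pi / 3 * (1 / 2 + m) + 2 * Real.pi * k : ℝ) : ℂ) = 0 := by
  have h1 : ((m - 1 : ℤ) : ZMod 3) = 0 := by
    push_cast
    rw [h]
    decide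
  obtain ⟨j, hj⟩ := (ZMod.intCast_zmod_eq_zero_iff_dvd (m - 1) 3).1 h1
  have hm : (m : ℝ) = 1 + 3 * j := by
    have : m = 1 + 3 * j := by omega
    rw [this]
    push_cast
    ring
  rw [← Complex.ofReal_cos]
  have : Real.pi / 3 * (1 / 2 + m) + 2 * Real.pi * k = Real.pi / 2 + ((j + 2 * k : ℤ) : ℝ) * Real.pi := by
    rw [hm]
    push_cast
    ring
  rw [this, Real.cos_add, Real.cos_pi_div_two, Real.sin_int_mul_pi]
  simp

variable {ι : Type*} [LinearOrder ι]

/-- the hypotheses on the regular strands of a configuration -/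
structure Law (T : Finset τ) (g : Half τ → Half τ) (K : ℝ) (φ : Half τ → ℝ) (z : Option (Half τ))
    (ω : Finset τ) (pos : Half τ → ℤ) (R : Half τ → Prop) (b : Half τ → ℤ) {κ : Type*}
    (Q : Finset κ) (ins : Half τ → κ → Prop) : Prop where
  inj : ∀ x, Bd T g x → ∀ y, Bd T g y → pos x = pos y → x = y
  arc : ∀ x, R x → Bd T g x ∧ z ≠ some x ∧ z ≠ some (other (mate ω) g x)
  nc : ∀ x, R x → ∀ y, R y → y ≠ x → y ≠ other (mate ω) g x →
    (Over (pos x) (pos (other (mate ω) g x)) (pos y) ↔
      Over (pos x) (pos (other (mate ω) g x)) (pos (other (mate ω) g y)))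
  law : ∀ x, R x → ∃ k : ℤ,
    (pos x < pos (other (mate ω) g x) →
      hol K φ g ω x = Real.pi / 3 * (1 / 2 + b x) + 2 * Real.pi * k) ∧
    (pos (other (mate ω) g x) < pos x →
      hol K φ g ω x = -(Real.pi / 3 * (1 / 2 + b x) + 2 * Real.pi * k))
  tok : ∀ x, R x → (b x : ZMod 3) ≠ 0 → ∃ q ∈ Q, ins x q
  tok' : ∀ x, R x → ∀ y, R y → ∀ q ∈ Q, ins x q → ins y q →
    ¬ Apart (pos x) (pos (other (mate ω) g x)) (pos y) (pos (other (mate ω) g y))

instance (a b p : ℤ) : Decidable (Over a b p) := by unfold Over; infer_instance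

/-- the charge which a pair at `p` gives to an arc with the ends `a`, `b` -/
def cg (a b p : ℤ) : ℤ := if Over a b p then 2 else if p = a ∨ p = b then 1 else 0

lemma cg_lt {a b : ℤ} (h : a < b) (p : ℤ) : ap p b - ap p a = cg a b p := by
  unfold ap cg Over
  split_ifs <;> omega

lemma cg_gt {a b : ℤ} (h : b < a) (p : ℤ) : ap p b - ap p a = -cg a b p := by
  unfold ap cg Over
  split_ifs <;> omega

variable {K : ℝ} {φ : Half τ → ℝ} {z : Option (Half τ)} {ω : Finset τ} {pos : Half τ → ℤ}
  {R : Half τ → Prop} {b : Half τ → ℤ} {κ : Type*} {Q : Finset κ} {ins : Half τ → κ → Prop}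

/-- the charge of a regular strand is not one -/
theorem Law.ne_one (hG : Glu T g) (hL : Law T g K φ z ω pos R b Q ins) {o : Half τ → ι}
    (ho : ∀ x, Bd T g x → ∀ y, Bd T g y → o x = o y → x = y)
    {y y' x : Half τ} (hne : cw K (φ + sc g pos y + sc g pos y') T g z o ω ≠ 0) (hx : R x) :
    ((b x + cg (pos x) (pos (other (mate ω) g x)) (pos y) +
      cg (pos x) (pos (other (mate ω) g x)) (pos y') : ℤ) : ZMod 3) ≠ 1 := by
  intro h1
  apply hne
  obtain ⟨hb, hz1, hz2⟩ := hL.arc x hx
  have hob := hG.other_bd (ω := ω) hb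
  have hoo := hG.other_other (ω := ω) hb
  have hon := hG.other_ne (ω := ω) hb
  have hs : ∀ y x, g x ≠ x → sc g pos y x = 0 := fun y x hx => sc_end hx
  have hval : hol K (φ + sc g pos y + sc g pos y') g ω x = hol K φ g ω x +
      Real.pi / 3 * ((ap (pos y) (pos (other (mate ω) g x)) - ap (pos y) (pos x) +
        (ap (pos y') (pos (other (mate ω) g x)) - ap (pos y') (pos x)) : ℤ) : ℝ) := by
    rw [hol_add hG K _ _ (hs y') ω hb, hol_add hG K _ _ (hs y) ω hb, sc_of hb.2, sc_of hob.2,
      sc_of hb.2, sc_of hob.2]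
    push_cast
    ring
  have hcos : Complex.cos (hol K (φ + sc g pos y + sc g pos y') g ω x) = 0 := by
    obtain ⟨k, hk1, hk2⟩ := hL.law x hx
    rcases lt_trichotomy (pos x) (pos (other (mate ω) g x)) with h | h | h
    · rw [hval, hk1 h, cg_lt h, cg_lt h]
      have := cos_zero (k := k) h1
      rw [← this]
      congr 2
      push_cast
      ring
    · exact absurd (hL.inj _ hb _ hob h).symm hon
    · rw [hval, hk2 h, cg_gt h, cg_gt h, ← Complex.cos_neg]
      have := cos_zero (k := k) h1
      rw [← this, ← Complex.ofReal_neg]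
      congr 2
      push_cast
      ring
  -- the strand is one of the arcs
  unfold cw
  have hzero : ∏ e ∈ arcs T g ω z o, 2 * Complex.cos (hol K (φ + sc g pos y + sc g pos y') g ω e)
      = 0 := by
    rcases lt_trichotomy (o x) (o (other (mate ω) g x)) with h | h | h
    · refine Finset.prod_eq_zero (mem_arcs.2 ⟨hb, hz1, hz2, h⟩) ?_
      rw [hcos, mul_zero]
    · exact absurd (ho _ hb _ hob h).symm hon
    · refine Finset.prod_eq_zero (i := other (mate ω) g x) (mem_arcs.2 ⟨hob, hz2, ?_, ?_⟩) ?_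
      · rw [hoo]; exact hz1
      · rw [hoo]; exact h
      · rw [hol_other hG K _ ω hb, Complex.ofReal_neg, Complex.cos_neg, hcos, mul_zero]
  rw [hzero, zero_mul, zero_mul]

open Classical in
/-- the regular positions with a nonzero weight: `b'` is the charge of the own strand without the
pair; the other pair contributes a constant -/
theorem Law.card_le (hG : Glu T g) (hL : Law T g K φ z ω pos R b Q ins) (V : Finset (Half τ))
    (hR : ∀ x ∈ V, R x) (c : Half τ → ℤ)
    (hV : ∀ y ∈ V, ∀ x ∈ V, ((b x + cg (pos x) (pos (other (mate ω) g x)) (pos y) + c x : ℤ) :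
      ZMod 3) ≠ 1)
    {κ' : Type*} (Q' : Finset κ') (ins' : Half τ → κ' → Prop)
    (ht : ∀ x ∈ V, (c x : ZMod 3) ≠ 0 → ∃ q ∈ Q', ins' x q)
    (ht' : ∀ x ∈ V, ∀ y ∈ V, ∀ q ∈ Q', ins' x q → ins' y q →
      ¬ Apart (pos x) (pos (other (mate ω) g x)) (pos y) (pos (other (mate ω) g y))) :
    V.card ≤ 2 + 2 * (Q.card + Q'.card) := by
  set f := other (mate ω) g with hf
  have hbd : ∀ x ∈ V, Bd T g x := fun x hx => (hL.arc x (hR x hx)).1
  have hob : ∀ x ∈ V, Bd T g (f x) := fun x hx => hG.other_bd (hbd x hx)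
  have hoo : ∀ x ∈ V, f (f x) = x := fun x hx => hG.other_other (hbd x hx)
  have hon : ∀ x ∈ V, f x ≠ x := fun x hx => hG.other_ne (hbd x hx)
  have hA : Arcs V f pos := by
    refine ⟨fun x hx y hy h1 h2 => ⟨?_, ?_, ?_, ?_⟩, fun x hx y hy h => ?_, fun x hx y hy => ?_⟩
    · exact fun h => h1 (hL.inj _ (hbd y hy) _ (hbd x hx) h)
    · exact fun h => h2 (hL.inj _ (hbd y hy) _ (hob x hx) h)
    · intro h
      have := hL.inj _ (hob y hy) _ (hbd x hx) h
      exact h2 (by rw [← this, hoo y hy])
    · intro h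
      have := hL.inj _ (hob y hy) _ (hob x hx) h
      exact h1 (by rw [← hoo y hy, this, hoo x hx])
    · rw [h, hoo x hx]
    · exact hL.nc x (hR x hx) y (hR y hy)
  have hVal : Pairs V f pos (fun x => ((b x + c x : ℤ) : ZMod 3)) := by
    refine ⟨fun x hx h0 => ?_, fun x hx h1 y hy => ?_, fun x hx h2 y hy h3 => ?_⟩
    · have h := hV x hx x hx
      apply h
      have e1 : cg (pos x) (pos (f x)) (pos x) = 1 := by
        unfold cg Over
        have : pos x ≠ pos (f x) := fun h => hon x hx (hL.inj _ (hbd x hx) _ (hob x hx) h).symm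
        split_ifs <;> omega
      rw [e1]
      push_cast at h0 ⊢
      have : ((b x : ℤ) : ZMod 3) + 1 + (c x : ℤ) = (((b x : ℤ) : ZMod 3) + (c x : ℤ)) + 1 := by ring
      rw [this, h0, zero_add]
    · by_contra hne
      push Not at hne
      obtain ⟨hn1, hn2, hn3⟩ := hne
      have h := hV y hy x hx
      apply h
      have e1 : cg (pos x) (pos (f x)) (pos y) = 0 := by
        unfold cg
        rw [if_neg hn3, if_neg]
        rintro (h4 | h4)
        · exact hn1 (hL.inj _ (hbd y hy) _ (hbd x hx) h4)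
        · exact hn2 (hL.inj _ (hbd y hy) _ (hob x hx) h4)
      rw [e1, add_zero]
      exact h1
    · have h := hV y hy x hx
      apply h
      have e1 : cg (pos x) (pos (f x)) (pos y) = 2 := by
        unfold cg
        rw [if_pos h3]
      rw [e1]
      push_cast at h2 ⊢
      have : ((b x : ℤ) : ZMod 3) + 2 + (c x : ℤ) = (((b x : ℤ) : ZMod 3) + (c x : ℤ)) + 2 := by ring
      rw [this, h2]
      decide
  have := Full.Bad.card_le hA hVal (Q.disjSum Q') (fun x q => Sum.elim (ins x) (ins' x) q)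
    (fun x hx h0 => ?_) (fun x hx y hy q hq h1 h2 => ?_)
  · rwa [Finset.card_disjSum] at this
  · by_cases hb0 : (b x : ZMod 3) = 0
    · have hc0 : (c x : ZMod 3) ≠ 0 := by
        intro h
        apply h0
        push_cast
        rw [hb0, h, add_zero]
      obtain ⟨q, hq, hi⟩ := ht x hx hc0
      exact ⟨Sum.inr q, Finset.inr_mem_disjSum.2 hq, hi⟩
    · obtain ⟨q, hq, hi⟩ := hL.tok x (hR x hx) hb0
      exact ⟨Sum.inl q, Finset.inl_mem_disjSum.2 hq, hi⟩
  · rcases q with q | q
    · exact hL.tok' x (hR x hx) y (hR y hy) q (Finset.inl_mem_disjSum.1 hq) h1 h2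
    · exact ht' x hx y hy q (Finset.inr_mem_disjSum.1 hq) h1 h2

/-- the weight of a configuration with screening pairs around `y` and `y'` -/
def W2 (K : ℝ) (φ : Half τ → ℝ) (T : Finset τ) (g : Half τ → Half τ) (z : Option (Half τ))
    (o : Half τ → ι) (ω : Finset τ) (pos : Half τ → ℤ) (y y' : Half τ) : ℂ :=
  cw K (φ + sc g pos y + sc g pos y') T g z o ω

open Classical in
/-- **few terms**: the sum over the screening pairs around `y ∈ I` and `y' ∈ J`, where the positions of
`J` are in `[j₁, j₂] ⊆ [k₁, k₂]` and those of `I` are outside `[k₁, k₂]` -/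
theorem Law.sum_le (hG : Glu T g) (hL : Law T g K φ z ω pos R b Q ins) {o : Half τ → ι}
    (ho : ∀ x, Bd T g x → ∀ y, Bd T g y → o x = o y → x = y) (I J : Finset (Half τ))
    {j₁ j₂ k₁ k₂ : ℤ} (h1 : k₁ ≤ j₁) (h2 : j₂ ≤ k₂) (h12 : j₁ ≤ j₂)
    (hI : ∀ y ∈ I, pos y < k₁ ∨ k₂ < pos y) (hJ : ∀ y ∈ J, j₁ ≤ pos y ∧ pos y ≤ j₂)
    {M : ℝ} (hM : ∀ y ∈ I, ∀ y' ∈ J, ‖W2 K φ T g z o ω pos y y'‖ ≤ M) (hM0 : 0 ≤ M) :
    ∑ y ∈ I, ∑ y' ∈ J, ‖W2 K φ T g z o ω pos y y'‖ ≤
      M * (((4 + 2 * Q.card + (I.filter fun y => ¬ (R y ∧ ¬ (j₁ ≤ pos (other (mate ω) g y) ∧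
        pos (other (mate ω) g y) ≤ j₂))).card : ℕ) : ℝ) *
        ((2 + 2 * Q.card + (J.filter fun y => ¬ (R y ∧ k₁ ≤ pos (other (mate ω) g y) ∧
        pos (other (mate ω) g y) ≤ k₂)).card : ℕ) : ℝ)) := by
  set f := other (mate ω) g with hf
  set W := W2 K φ T g z o ω pos with hW
  set V1 := I.filter fun y => ∃ y' ∈ J, W y y' ≠ 0 with hV1
  set V2 := J.filter fun y' => ∃ y ∈ I, W y y' ≠ 0 with hV2
  set RI : Half τ → Prop := fun y => R y ∧ ¬ (j₁ ≤ pos (f y) ∧ pos (f y) ≤ j₂) with hRI
  set RJ : Half τ → Prop := fun y => R y ∧ k₁ ≤ pos (f y) ∧ pos (f y) ≤ k₂ with hRJ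
  -- the number of the first positions
  have c1 : V1.card ≤ 4 + 2 * Q.card + (I.filter fun y => ¬ RI y).card := by
    have e1 : V1.card ≤ (V1.filter RI).card + (I.filter fun y => ¬ RI y).card := by
      rw [← Finset.card_filter_add_card_filter_not (s := V1) RI]
      exact Nat.add_le_add_left (Finset.card_le_card
        (Finset.filter_subset_filter _ (Finset.filter_subset _ _))) _
    have e2 : (V1.filter RI).card ≤ 2 + 2 * (Q.card + ({()} : Finset Unit).card) := by
      refine hL.card_le hG (V1.filter RI) (fun x hx => (Finset.mem_filter.1 hx).2.1)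
        (fun x => cg (pos x) (pos (f x)) j₁) (fun y hy x hx => ?_) {()}
        (fun x _ => Over (pos x) (pos (f x)) j₁) (fun x hx h0 => ?_) (fun x hx y hy q _ h3 h4 => ?_)
      · obtain ⟨hy1, -⟩ := Finset.mem_filter.1 hy
        obtain ⟨hx1, hx2⟩ := Finset.mem_filter.1 hx
        obtain ⟨-, y', hy', hne⟩ := Finset.mem_filter.1 hy1
        obtain ⟨hxI, -⟩ := Finset.mem_filter.1 hx1
        have h3 := hL.ne_one hG ho hne hx2.1
        have h4 : cg (pos x) (pos (f x)) (pos y') = cg (pos x) (pos (f x)) j₁ := by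
          have a1 := hI x hxI
          have a2 := hx2.2
          have a3 := hJ y' hy'
          unfold cg Over
          split_ifs <;> omega
        rwa [h4] at h3
      · refine ⟨(), Finset.mem_singleton_self _, ?_⟩
        obtain ⟨hx1, hx2⟩ := Finset.mem_filter.1 hx
        obtain ⟨hxI, -⟩ := Finset.mem_filter.1 hx1
        by_contra h3
        apply h0
        have a1 := hI x hxI
        have a2 := hx2.2
        unfold cg
        rw [if_neg h3, if_neg (by omega)]
        rfl
      · change ¬ Apart (pos x) (pos (f x)) (pos y) (pos (f y))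
        unfold Over at h3 h4
        unfold Apart
        omega
    rw [Finset.card_singleton] at e2
    omega
  -- the number of the second positions
  have c2 : V2.card ≤ 2 + 2 * Q.card + (J.filter fun y => ¬ RJ y).card := by
    have e1 : V2.card ≤ (V2.filter RJ).card + (J.filter fun y => ¬ RJ y).card := by
      rw [← Finset.card_filter_add_card_filter_not (s := V2) RJ]
      exact Nat.add_le_add_left (Finset.card_le_card
        (Finset.filter_subset_filter _ (Finset.filter_subset _ _))) _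
    have e2 : (V2.filter RJ).card ≤ 2 + 2 * (Q.card + (∅ : Finset Unit).card) := by
      refine hL.card_le hG (V2.filter RJ) (fun x hx => (Finset.mem_filter.1 hx).2.1)
        (fun x => 0) (fun y' hy' x hx => ?_) ∅
        (fun x _ => False) (fun x hx h0 => absurd rfl h0) (fun x hx y hy q hq => ?_)
      · obtain ⟨hy1, -⟩ := Finset.mem_filter.1 hy'
        obtain ⟨hx1, hx2⟩ := Finset.mem_filter.1 hx
        obtain ⟨-, y, hy, hne⟩ := Finset.mem_filter.1 hy1
        obtain ⟨hxJ, -⟩ := Finset.mem_filter.1 hx1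
        have h3 := hL.ne_one hG ho hne hx2.1
        have h4 : cg (pos x) (pos (f x)) (pos y) = 0 := by
          have a1 := hI y hy
          have a2 := hx2.2
          have a3 := hJ x hxJ
          unfold cg Over
          split_ifs <;> omega
        rw [h4, add_zero] at h3
        rwa [add_zero]
      · exact absurd hq (Finset.notMem_empty q)
    rw [Finset.card_empty] at e2
    omega
  -- the sum
  have c3 : ∑ y ∈ I, ∑ y' ∈ J, ‖W y y'‖ ≤ M * ((V1.card : ℝ) * (V2.card : ℝ)) := by
    have e1 : ∑ y ∈ I, ∑ y' ∈ J, ‖W y y'‖ = ∑ y ∈ V1, ∑ y' ∈ V2, ‖W y y'‖ := by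
      symm
      calc ∑ y ∈ V1, ∑ y' ∈ V2, ‖W y y'‖ = ∑ y ∈ V1, ∑ y' ∈ J, ‖W y y'‖ := by
            refine Finset.sum_congr rfl fun y hy => ?_
            refine Finset.sum_subset (Finset.filter_subset _ _) fun y' hy' hn => ?_
            rw [norm_eq_zero]
            by_contra hne
            exact hn (Finset.mem_filter.2 ⟨hy', y, (Finset.mem_filter.1 hy).1, hne⟩)
        _ = ∑ y ∈ I, ∑ y' ∈ J, ‖W y y'‖ := by
            refine Finset.sum_subset (Finset.filter_subset _ _) fun y hy hn => ?_
            refine Finset.sum_eq_zero fun y' hy' => ?_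
            rw [norm_eq_zero]
            by_contra hne
            exact hn (Finset.mem_filter.2 ⟨hy, y', hy', hne⟩)
    rw [e1]
    calc ∑ y ∈ V1, ∑ y' ∈ V2, ‖W y y'‖ ≤ ∑ y ∈ V1, ∑ y' ∈ V2, M :=
          Finset.sum_le_sum fun y hy => Finset.sum_le_sum fun y' hy' =>
            hM y (Finset.mem_filter.1 hy).1 y' (Finset.mem_filter.1 hy').1
      _ = M * ((V1.card : ℝ) * (V2.card : ℝ)) := by
          rw [Finset.sum_const, Finset.sum_const, nsmul_eq_mul, nsmul_eq_mul]
          ring
  refine c3.trans (mul_le_mul_of_nonneg_left ?_ hM0)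
  exact mul_le_mul (Nat.cast_le.2 c1) (Nat.cast_le.2 c2) (Nat.cast_nonneg _) (Nat.cast_nonneg _)

end

end Full.X3.Bad
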